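import Pool.Agent.P.MP_ac4909_gt.B.H.API

/-! Smooth paths in GL⁺(3). Work with Matrix (Fin 3) (Fin 3) ℝ and Matrix.toEuclideanCLM / toEuclideanLin (determinant: LinearMap.det_toLin). Call A nice if there are a diagonal sign matrix D
(entries ±1) and a smooth path P with det (P t) ≠ 0, P t = A for t ≤ 0, P t = D for t ≥ 1. Nice is closed under products (multiply the paths), holds for invertible diagonal matrices
(segment reparametrised by Real.smoothTransition) and transvections (scale the entry): Matrix.diagonal_transvection_induction_of_det_ne_zero.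
The sign of det is constant along P (intermediate value theorem), so for det A > 0 the matrix D is 1 or a rotation by π about a coordinate axis; multiply P by the rotation of angle
π smoothTransition t about that axis to end at 1. For A and B take P_A t * P_B (1 - t). Any other proof is welcome. -/

namespace Pool.Agent.P.MP_ac4909_gt.B.H

open scoped Manifold ContDiff Topology RealInnerProductSpace
open Set Metric Filter

noncomputable section

namespace RGLP

/-- square matrices of size three -/
abbrev M3 : Type := Matrix (Fin 3) (Fin 3) ℝ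

/-- entrywise smooth paths -/
def Sm (P : ℝ → M3) : Prop := ∀ i j, ContDiff ℝ ∞ fun t => P t i j

theorem Sm.mul {P Q : ℝ → M3} (hP : Sm P) (hQ : Sm Q) : Sm fun t => P t * Q t := fun i j => by
  simp only [Matrix.mul_apply]
  exact ContDiff.sum fun k _ => (hP i k).mul (hQ k j)

theorem Sm.const (A : M3) : Sm fun _ => A := fun _ _ => contDiff_const

theorem Sm.comp {P : ℝ → M3} (hP : Sm P) {f : ℝ → ℝ} (hf : ContDiff ℝ ∞ f) :
    Sm fun t => P (f t) := fun i j => (hP i j).comp hf

theorem Sm.pos {P : ℝ → M3} (hP : Sm P) (h : ∀ t, (P t).det ≠ 0) (h0 : 0 < (P 0).det) (t : ℝ) :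
    0 < (P t).det := by
  have hc : Continuous fun t => (P t).det :=
    (continuous_matrix fun i j => (hP i j).continuous).matrix_det
  by_contra hn
  obtain ⟨u, hu⟩ := intermediate_value_univ t 0 hc ⟨not_lt.1 hn, h0.le⟩
  exact h u hu

/-- `A` and `B` are joined by a smooth path of invertible matrices -/
def Jn (A B : M3) : Prop :=
  ∃ P : ℝ → M3, Sm P ∧ (∀ t, (P t).det ≠ 0) ∧ (∀ t ≤ 0, P t = A) ∧ ∀ t, 1 ≤ t → P t = B

theorem Jn.refl {A : M3} (h : A.det ≠ 0) : Jn A A :=
  ⟨fun _ => A, Sm.const A, fun _ => h, fun _ _ => rfl, fun _ _ => rfl⟩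

theorem Jn.symm {A B : M3} (h : Jn A B) : Jn B A := by
  obtain ⟨P, h1, h2, h3, h4⟩ := h
  exact ⟨fun t => P (1 - t), h1.comp (contDiff_const.sub contDiff_id), fun t => h2 _,
    fun t ht => h4 _ (by linarith), fun t ht => h3 _ (by linarith)⟩

theorem Jn.mul {A B A' B' : M3} (h : Jn A B) (h' : Jn A' B') : Jn (A * A') (B * B') := by
  obtain ⟨P, h1, h2, h3, h4⟩ := h
  obtain ⟨Q, k1, k2, k3, k4⟩ := h'
  exact ⟨fun t => P t * Q t, h1.mul k1,
    fun t => by rw [Matrix.det_mul]; exact mul_ne_zero (h2 t) (k2 t),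
    fun t ht => congrArg₂ _ (h3 t ht) (k3 t ht), fun t ht => congrArg₂ _ (h4 t ht) (k4 t ht)⟩

theorem Jn.det_ne {A B : M3} (h : Jn A B) : B.det ≠ 0 := by
  obtain ⟨P, -, h2, -, h4⟩ := h
  rw [← h4 1 le_rfl]
  exact h2 1

theorem Jn.trans {A B C : M3} (h : Jn A B) (h' : Jn B C) : Jn A C := by
  have hB : IsUnit B.det := isUnit_iff_ne_zero.2 h.det_ne
  have hi : B⁻¹.det ≠ 0 := (Matrix.isUnit_nonsing_inv_det B hB).ne_zero
  have k := (h.mul (Jn.refl hi)).mul h'
  rwa [Matrix.nonsing_inv_mul_cancel_right B A hB, Matrix.mul_nonsing_inv B hB, one_mul] at k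

theorem Jn.pos {A B : M3} (h : Jn A B) (hA : 0 < A.det) : 0 < B.det := by
  obtain ⟨P, h1, h2, h3, h4⟩ := h
  rw [← h4 1 le_rfl]
  exact h1.pos h2 (by rwa [h3 0 le_rfl]) 1

theorem Jn.of_curve {c : ℝ → M3} (hc : Sm c) (h : ∀ s ∈ Icc (0 : ℝ) 1, (c s).det ≠ 0) :
    Jn (c 0) (c 1) :=
  ⟨fun t => c (Real.smoothTransition t), hc.comp Real.smoothTransition.contDiff,
    fun t => h _ ⟨Real.smoothTransition.nonneg t, Real.smoothTransition.le_one t⟩,
    fun _ ht => congrArg c (Real.smoothTransition.zero_of_nonpos ht),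
    fun _ ht => congrArg c (Real.smoothTransition.one_of_one_le ht)⟩

theorem jn_transvection {i j : Fin 3} (hij : i ≠ j) (c : ℝ) :
    Jn (Matrix.transvection i j c) 1 := by
  have h := Jn.of_curve (c := fun s => Matrix.transvection i j (s * c)) (fun k l => ?_)
    fun s _ => by rw [Matrix.det_transvection_of_ne i j hij]; exact one_ne_zero
  · simpa using h.symm
  · simp only [Matrix.transvection, Matrix.add_apply, Matrix.single_apply]
    split_ifs
    · exact contDiff_const.add (contDiff_id.mul contDiff_const)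
    · exact contDiff_const

/-- diagonal matrices whose entries have the same signs are joined -/
theorem jn_diagonal {d e : Fin 3 → ℝ} (h : ∀ i, 0 < d i * e i) :
    Jn (Matrix.diagonal d) (Matrix.diagonal e) := by
  have k := Jn.of_curve (c := fun s => Matrix.diagonal fun i => (1 - s) * d i + s * e i)
    (fun k l => ?_) fun s hs => ?_
  · simpa using k
  · simp only [Matrix.diagonal_apply]
    split_ifs
    · exact ((contDiff_const.sub contDiff_id).mul contDiff_const).add
        (contDiff_id.mul contDiff_const)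
    · exact contDiff_const
  · rw [Matrix.det_diagonal]
    refine Finset.prod_ne_zero_iff.2 fun i _ e0 => ?_
    have h1 := h i
    have h2 : d i ≠ 0 := fun k => by simp [k] at h1
    have h3 : ((1 - s) * d i + s * e i) * d i = (1 - s) * d i ^ 2 + s * (d i * e i) := by ring
    rw [e0, zero_mul] at h3
    have h4 : 0 < d i ^ 2 := by positivity
    rcases eq_or_lt_of_le hs.1 with k | k
    · rw [← k] at h3
      linarith
    · nlinarith [mul_nonneg (sub_nonneg.2 hs.2) h4.le, mul_pos k h1]

/-- the reflection in the first coordinate -/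
def rf : M3 := Matrix.diagonal ![-1, 1, 1]

theorem rf_det : rf.det = -1 := by simp [rf, Fin.prod_univ_three]

theorem rf_mul : rf * rf = 1 := by
  rw [rf, Matrix.diagonal_mul_diagonal, ← Matrix.diagonal_one]
  congr 1
  ext i
  fin_cases i <;> simp

theorem quad_ne (s : ℝ) : (1 - 2 * s) ^ 2 + (s * (1 - s)) ^ 2 ≠ 0 := by
  intro h
  have h1 : 1 - 2 * s = 0 := by nlinarith [sq_nonneg (1 - 2 * s), sq_nonneg (s * (1 - s))]
  have h2 : s = 1 / 2 := by linarith
  rw [h2] at h
  norm_num at h

theorem jn_rf₁ : Jn (Matrix.diagonal ![1, -1, 1]) rf := by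
  have k := Jn.of_curve
    (c := fun s => !![1 - 2 * s, s * (1 - s), 0; s * (1 - s), -(1 - 2 * s), 0; 0, 0, 1])
    (fun k l => ?_) fun s _ => ?_
  · convert k using 1
    · ext i j
      fin_cases i <;> fin_cases j <;> simp
    · ext i j
      fin_cases i <;> fin_cases j <;> simp [rf] <;> norm_num
  · fin_cases k <;> fin_cases l <;> simp <;> fun_prop
  · intro h
    rw [Matrix.det_fin_three] at h
    simp at h
    exact quad_ne s (by linarith)

theorem jn_rf₂ : Jn (Matrix.diagonal ![1, 1, -1]) rf := by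
  have k := Jn.of_curve
    (c := fun s => !![1 - 2 * s, 0, s * (1 - s); 0, 1, 0; s * (1 - s), 0, -(1 - 2 * s)])
    (fun k l => ?_) fun s _ => ?_
  · convert k using 1
    · ext i j
      fin_cases i <;> fin_cases j <;> simp
    · ext i j
      fin_cases i <;> fin_cases j <;> simp [rf] <;> norm_num
  · fin_cases k <;> fin_cases l <;> simp <;> fun_prop
  · intro h
    rw [Matrix.det_fin_three] at h
    simp at h
    exact quad_ne s (by linarith)

/-- joined to the identity or to the reflection -/
def Nice (A : M3) : Prop := Jn A 1 ∨ Jn A rf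

theorem Nice.mul {A B : M3} (hA : Nice A) (hB : Nice B) : Nice (A * B) := by
  rcases hA with h | h <;> rcases hB with k | k
  · exact Or.inl (by simpa using h.mul k)
  · exact Or.inr (by simpa using h.mul k)
  · exact Or.inr (by simpa using h.mul k)
  · exact Or.inl (by simpa [rf_mul] using h.mul k)

theorem nice_diagonal {d : Fin 3 → ℝ} (h : ∀ i, d i ≠ 0) : Nice (Matrix.diagonal d) := by
  have e : Matrix.diagonal d = Matrix.diagonal ![d 0, 1, 1] * Matrix.diagonal ![1, d 1, 1] *
      Matrix.diagonal ![1, 1, d 2] := by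
    rw [Matrix.diagonal_mul_diagonal, Matrix.diagonal_mul_diagonal]
    congr 1
    ext i
    fin_cases i <;> simp
  have one : ∀ v : Fin 3 → ℝ, (∀ i, 0 < v i) → Nice (Matrix.diagonal v) := fun v hv =>
    Or.inl (by simpa using jn_diagonal (d := v) (e := fun _ => 1) fun i => by simpa using hv i)
  rw [e]
  refine (Nice.mul ?_ ?_).mul ?_
  · rcases (h 0).lt_or_gt with k | k
    · exact Or.inr (jn_diagonal fun i => by fin_cases i <;> simp [k])
    · exact one _ fun i => by fin_cases i <;> simp [k]
  · rcases (h 1).lt_or_gt with k | k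
    · exact Or.inr ((jn_diagonal fun i => by fin_cases i <;> simp [k]).trans jn_rf₁)
    · exact one _ fun i => by fin_cases i <;> simp [k]
  · rcases (h 2).lt_or_gt with k | k
    · exact Or.inr ((jn_diagonal fun i => by fin_cases i <;> simp [k]).trans jn_rf₂)
    · exact one _ fun i => by fin_cases i <;> simp [k]

theorem jn_one {A : M3} (h : 0 < A.det) : Jn A 1 := by
  have k : Nice A := by
    refine Matrix.diagonal_transvection_induction_of_det_ne_zero Nice A h.ne' (fun D hD => ?_)
      (fun t => Or.inl (jn_transvection t.hij t.c)) fun _ _ _ _ => Nice.mul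
    rw [Matrix.det_diagonal] at hD
    exact nice_diagonal fun i => Finset.prod_ne_zero_iff.1 hD i (Finset.mem_univ i)
  refine k.resolve_right fun k => ?_
  have := k.pos h
  rw [rf_det] at this
  linarith

/-- the linear map of a matrix -/
def cl (A : M3) : E3 →L[ℝ] E3 := LinearMap.toContinuousLinearMap (Matrix.toEuclideanLin A)

theorem cl_det (A : M3) : (cl A).det = A.det := LinearMap.det_toLpLin 2 A

theorem cl_surj (A : E3 →L[ℝ] E3) : ∃ M, cl M = A :=
  ⟨Matrix.toEuclideanLin.symm (A : E3 →ₗ[ℝ] E3), by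
    ext1 x
    simp [cl]⟩

theorem cl_smooth {P : ℝ → M3} (hP : Sm P) : ContDiff ℝ ∞ fun t => cl (P t) := by
  refine contDiff_clm_apply_iff.2 fun y => contDiff_euclidean.2 fun i => ?_
  have e : (fun t => cl (P t) y i) = fun t => ∑ j, P t i j * y j := by
    funext t
    simp [cl, Matrix.toEuclideanLin, Matrix.mulVec, dotProduct]
  rw [e]
  exact ContDiff.sum fun j _ => (hP i j).mul contDiff_const

end RGLP

theorem glp_of : S_GLP := by
  intro A B hA hB
  obtain ⟨M, rfl⟩ := RGLP.cl_surj A
  obtain ⟨N, rfl⟩ := RGLP.cl_surj B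
  rw [RGLP.cl_det] at hA hB
  obtain ⟨P, h1, h2, h3, h4⟩ := (RGLP.jn_one hA).trans (RGLP.jn_one hB).symm
  refine ⟨fun t => RGLP.cl (P t), RGLP.cl_smooth h1, fun t => ?_,
    fun t ht => congrArg _ (h3 t ht), fun t ht => congrArg _ (h4 t ht)⟩
  rw [RGLP.cl_det]
  exact h1.pos h2 (by rwa [h3 0 le_rfl]) t

end

end Pool.Agent.P.MP_ac4909_gt.B.H
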