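import Pool.Agent.P.MP_ac4909_gt.B.H.Defs

/-! Layer H, tools 1: the linear models in Euclidean space. -/

namespace Pool.Agent.P.MP_ac4909_gt.B.H

open scoped Manifold ContDiff Topology
open Set Metric Filter

@[simp] theorem ax_apply_zero (z : ℝ) : ax z 0 = 0 := by simp [ax]
@[simp] theorem ax_apply_one (z : ℝ) : ax z 1 = 0 := by simp [ax]
@[simp] theorem ax_apply_two (z : ℝ) : ax z 2 = z := by simp [ax]
@[simp] theorem lf_apply_zero (a b t : ℝ) (q : E3) : lf a b t q 0 = Real.exp (a * t) * q 0 := by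
  simp [lf]
@[simp] theorem lf_apply_one (a b t : ℝ) (q : E3) : lf a b t q 1 = Real.exp (a * t) * q 1 := by
  simp [lf]
@[simp] theorem lf_apply_two (a b t : ℝ) (q : E3) : lf a b t q 2 = Real.exp (b * t) * q 2 := by
  simp [lf]
@[simp] theorem lin_apply_zero (a b : ℝ) (q : E3) : lin a b q 0 = a * q 0 := by simp [lin]
@[simp] theorem lin_apply_one (a b : ℝ) (q : E3) : lin a b q 1 = a * q 1 := by simp [lin]
@[simp] theorem lin_apply_two (a b : ℝ) (q : E3) : lin a b q 2 = b * q 2 := by simp [lin]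
@[simp] theorem sad_apply_zero (t : ℝ) (q : E3) : sad t q 0 = Real.exp t * q 0 := by simp [sad]
@[simp] theorem sad_apply_one (t : ℝ) (q : E3) : sad t q 1 = Real.exp t * q 1 := by simp [sad]
@[simp] theorem sad_apply_two (t : ℝ) (q : E3) : sad t q 2 = Real.exp (-t) * q 2 := by simp [sad]

theorem E3_ext {p q : E3} (h0 : p 0 = q 0) (h1 : p 1 = q 1) (h2 : p 2 = q 2) : p = q := by
  ext i
  fin_cases i
  exacts [h0, h1, h2]

theorem hasDerivAt_E3 {f : ℝ → E3} {v : E3} {t : ℝ}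
    (h : ∀ i, HasDerivAt (fun s => f s i) (v i) t) : HasDerivAt f v t := by
  have h1 :=
    ((PiLp.continuousLinearEquiv 2 ℝ fun _ : Fin 3 => ℝ).symm.toContinuousLinearMap.hasFDerivAt
      (x := fun i => f t i)).comp_hasDerivAt t (hasDerivAt_pi.2 h)
  exact h1

theorem ax_zero : ax 0 = 0 := E3_ext (by simp) (by simp) (by simp)
theorem norm_ax (z : ℝ) : ‖ax z‖ = |z| := by
  rw [EuclideanSpace.norm_eq, Fin.sum_univ_three]
  simp [Real.sqrt_sq_eq_abs]
theorem smul_ax (r z : ℝ) : r • ax z = ax (r * z) := E3_ext (by simp) (by simp) (by simp)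
theorem ax_eq_smul (z : ℝ) : ax z = z • ez := E3_ext (by simp [ez]) (by simp [ez]) (by simp [ez])
theorem contDiff_ax : ContDiff ℝ ∞ ax := by
  rw [show ax = fun z => z • ez from funext ax_eq_smul]
  exact contDiff_id.smul contDiff_const
theorem hasDerivAt_ax (z : ℝ) : HasDerivAt ax ez z := by
  rw [show ax = fun z => z • ez from funext ax_eq_smul]
  simpa using (hasDerivAt_id z).smul_const ez
theorem rad_ax (z : ℝ) : rad (ax z) = 0 := by simp [rad]
theorem ax_mem_axis (z : ℝ) : ax z ∈ axis := ⟨by simp, by simp⟩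
theorem ax_mem_Dom (z : ℝ) : ax z ∈ Dom := by simp [Dom, rad_ax]
theorem eq_ax {p : E3} (h0 : p 0 = 0) (h1 : p 1 = 0) : p = ax (p 2) := E3_ext (by simpa) (by simpa) (by simp)
theorem axis_eq_range : axis = range ax := by
  ext p
  exact ⟨fun h => ⟨p 2, (eq_ax h.1 h.2).symm⟩, fun ⟨z, hz⟩ => hz ▸ ax_mem_axis z⟩
theorem axis_subset_Dom : axis ⊆ Dom := by
  rw [axis_eq_range]
  rintro _ ⟨z, rfl⟩
  exact ax_mem_Dom z

theorem continuous_rad : Continuous rad := by
  unfold rad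
  fun_prop
theorem continuous_coord (i : Fin 3) : Continuous fun p : E3 => p i := by fun_prop
theorem contDiff_coord (i : Fin 3) : ContDiff ℝ ∞ fun p : E3 => p i := (EuclideanSpace.proj i : E3 →L[ℝ] ℝ).contDiff
theorem isOpen_Dom : IsOpen Dom :=   isOpen_lt (continuous_rad.mul (continuous_coord 2).abs) continuous_const
theorem rad_nonneg (p : E3) : 0 ≤ rad p := Real.sqrt_nonneg _
theorem rad_sq (p : E3) : rad p ^ 2 = p 0 ^ 2 + p 1 ^ 2 := Real.sq_sqrt (by positivity)
theorem rad_eq_zero_iff {p : E3} : rad p = 0 ↔ p 0 = 0 ∧ p 1 = 0 := by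
  constructor
  · intro h
    have h1 := rad_sq p
    rw [h] at h1
    constructor <;> nlinarith [sq_nonneg (p 0), sq_nonneg (p 1)]
  · rintro ⟨h0, h1⟩
    simp [rad, h0, h1]
theorem norm_sq_eq (p : E3) : ‖p‖ ^ 2 = rad p ^ 2 + p 2 ^ 2 := by
  rw [EuclideanSpace.norm_sq_eq, Fin.sum_univ_three, rad_sq]
  simp
theorem rad_le_norm (p : E3) : rad p ≤ ‖p‖ :=   (le_abs_self _).trans <|
    abs_le_of_sq_le_sq (by rw [norm_sq_eq]; nlinarith [sq_nonneg (p 2)]) (norm_nonneg p)
theorem abs_two_le_norm (p : E3) : |p 2| ≤ ‖p‖ :=   abs_le_of_sq_le_sq (by rw [norm_sq_eq]; nlinarith [sq_nonneg (rad p)]) (norm_nonneg p)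
theorem norm_le_rad_add (p : E3) : ‖p‖ ≤ rad p + |p 2| := by
  have h := norm_sq_eq p
  have h1 := rad_nonneg p
  have h2 := abs_nonneg (p 2)
  refine (le_abs_self _).trans (abs_le_of_sq_le_sq ?_ (by positivity))
  rw [h, ← sq_abs (p 2)]
  nlinarith [mul_nonneg h1 h2]
theorem norm_sub_ax (p : E3) : ‖p - ax (p 2)‖ = rad p := by
  rw [EuclideanSpace.norm_eq, Fin.sum_univ_three, rad]
  simp
theorem rad_smul (r : ℝ) (p : E3) : rad (r • p) = |r| * rad p := by
  rw [rad, rad, ← Real.sqrt_sq_eq_abs, ← Real.sqrt_mul (sq_nonneg r)]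
  congr 1
  simp only [PiLp.smul_apply, smul_eq_mul]
  ring

theorem rad_lf (a b t : ℝ) (q : E3) : rad (lf a b t q) = Real.exp (a * t) * rad q := by
  rw [rad, rad, ← Real.sqrt_sq (Real.exp_pos (a * t)).le, ← Real.sqrt_mul (sq_nonneg _)]
  congr 1
  simp only [lf_apply_zero, lf_apply_one]
  ring
theorem lf_add (a b s t : ℝ) (q : E3) : lf a b (s + t) q = lf a b s (lf a b t q) := by
  refine E3_ext ?_ ?_ ?_ <;> simp [mul_add, Real.exp_add, mul_assoc]
theorem lf_zero (a b : ℝ) (q : E3) : lf a b 0 q = q := E3_ext (by simp) (by simp) (by simp)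
theorem lf_origin (a b t : ℝ) : lf a b t 0 = 0 := E3_ext (by simp) (by simp) (by simp)
theorem lf_smul (a b t r : ℝ) (q : E3) : lf a b t (r • q) = r • lf a b t q := by
  refine E3_ext ?_ ?_ ?_ <;> simp [mul_left_comm]
theorem lf_ax (a b t z : ℝ) : lf a b t (ax z) = ax (Real.exp (b * t) * z) := E3_ext (by simp) (by simp) (by simp)
theorem lf_injective (a b t : ℝ) : Function.Injective (lf a b t) := fun p q h => by
  rw [← lf_zero a b p, ← lf_zero a b q, ← neg_add_cancel t, lf_add, lf_add, h]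
theorem lf_sad (t : ℝ) (q : E3) : lf 1 (-1) t q = sad t q := E3_ext (by simp) (by simp) (by simp)
theorem lf_source (t : ℝ) (q : E3) : lf 1 1 t q = Real.exp t • q := E3_ext (by simp) (by simp) (by simp)
theorem hasDerivAt_lf (a b t : ℝ) (q : E3) :
    HasDerivAt (fun s => lf a b s q) (lin a b (lf a b t q)) t := by
  have key : ∀ c x : ℝ, HasDerivAt (fun s => Real.exp (c * s) * x) (c * (Real.exp (c * t) * x)) t :=
    fun c x => by
      have h := (((hasDerivAt_id' t).const_mul c).exp).mul_const x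
      exact h.congr_deriv (by ring)
  refine hasDerivAt_E3 fun i => ?_
  fin_cases i
  · simpa using key a (q 0)
  · simpa using key a (q 1)
  · simpa using key b (q 2)
theorem continuous_lf (a b : ℝ) : Continuous fun p : ℝ × E3 => lf a b p.1 p.2 := by
  unfold lf
  fun_prop
theorem contDiff_lin (a b : ℝ) : ContDiff ℝ ∞ (lin a b) := by
  refine contDiff_euclidean.2 fun i => ?_
  fin_cases i
  · simpa using contDiff_const.mul (contDiff_coord 0)
  · simpa using contDiff_const.mul (contDiff_coord 1)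
  · simpa using contDiff_const.mul (contDiff_coord 2)
theorem lin_smul (a b r : ℝ) (q : E3) : lin a b (r • q) = r • lin a b q := by
  refine E3_ext ?_ ?_ ?_ <;> simp [mul_left_comm]

/-- The square of the norm is convex along the linear flow. -/
theorem lf_mem_ball {a b r s t : ℝ} {q : E3} (hq : q ∈ ball (0 : E3) r)
    (ht : lf a b t q ∈ ball (0 : E3) r) (hs : s ∈ uIcc 0 t) : lf a b s q ∈ ball (0 : E3) r := by
  rw [mem_ball_zero_iff] at *
  have hr : 0 < r := (norm_nonneg _).trans_lt hq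
  obtain ⟨θ, h0, h1, rfl⟩ : ∃ θ : ℝ, 0 ≤ θ ∧ θ ≤ 1 ∧ s = θ * t := by
    rw [← segment_eq_uIcc] at hs
    obtain ⟨x, y, hx, hy, hxy, rfl⟩ := hs
    exact ⟨y, hy, by linarith, by simp⟩
  have key : ∀ c : ℝ, Real.exp (c * (θ * t)) ^ 2 ≤ (1 - θ) + θ * Real.exp (c * t) ^ 2 := fun c => by
    have h := convexOn_exp.2 (mem_univ 0) (mem_univ (2 * (c * t))) (sub_nonneg.2 h1) h0 (by ring)
    simp only [smul_eq_mul, mul_zero, zero_add, Real.exp_zero, mul_one] at h
    rw [← Real.exp_nat_mul, ← Real.exp_nat_mul]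
    have e1 : ((2 : ℕ) : ℝ) * (c * (θ * t)) = θ * (2 * (c * t)) := by
      push_cast
      ring
    rw [e1]
    exact_mod_cast h
  have e : ∀ u, ‖lf a b u q‖ ^ 2
      = Real.exp (a * u) ^ 2 * rad q ^ 2 + Real.exp (b * u) ^ 2 * q 2 ^ 2 := fun u => by
    rw [norm_sq_eq, rad_lf, lf_apply_two]
    ring
  have h2 : ‖q‖ ^ 2 < r ^ 2 := by gcongr
  have h3 : ‖lf a b t q‖ ^ 2 < r ^ 2 := by gcongr
  have h4 : ‖lf a b (θ * t) q‖ ^ 2 ≤ (1 - θ) * ‖q‖ ^ 2 + θ * ‖lf a b t q‖ ^ 2 := by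
    rw [e, e, norm_sq_eq]
    nlinarith [mul_le_mul_of_nonneg_right (key a) (sq_nonneg (rad q)),
      mul_le_mul_of_nonneg_right (key b) (sq_nonneg (q 2))]
  refine lt_of_pow_lt_pow_left₀ 2 hr.le (h4.trans_lt ?_)
  rcases eq_or_lt_of_le h0 with h | h
  · subst h
    simpa using h2
  · nlinarith [mul_le_mul_of_nonneg_left h2.le (sub_nonneg.2 h1), mul_lt_mul_of_pos_left h3 h]

theorem exists_lfEquiv (a b t l : ℝ) (hl : 0 < l) :
    ∃ L : E3 ≃L[ℝ] E3, 0 < (L : E3 →L[ℝ] E3).det ∧ ∀ q, L q = lf a b t (l • q) := by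
  let D : Matrix (Fin 3) (Fin 3) ℝ :=
    Matrix.diagonal ![Real.exp (a * t) * l, Real.exp (a * t) * l, Real.exp (b * t) * l]
  let A : E3 →L[ℝ] E3 := LinearMap.toContinuousLinearMap (Matrix.toEuclideanLin D)
  have hd : 0 < A.det := by
    have : A.det = D.det := LinearMap.det_toLpLin 2 D
    rw [this, Matrix.det_diagonal, Fin.prod_univ_three]
    simp only [Matrix.cons_val]
    positivity
  refine ⟨A.toContinuousLinearEquivOfDetNeZero hd.ne', by simpa using hd, fun q => ?_⟩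
  refine E3_ext ?_ ?_ ?_ <;> simp [A, D, Matrix.toEuclideanLin, Matrix.mulVec_diagonal, mul_assoc]

theorem rad_sad (t : ℝ) (q : E3) : rad (sad t q) = Real.exp t * rad q := by rw [← lf_sad, rad_lf, one_mul]
theorem sad_add (s t : ℝ) (q : E3) : sad (s + t) q = sad s (sad t q) := by simp only [← lf_sad, lf_add]
theorem sad_zero (q : E3) : sad 0 q = q := by rw [← lf_sad, lf_zero]
theorem sad_smul (t r : ℝ) (q : E3) : sad t (r • q) = r • sad t q := by simp only [← lf_sad, lf_smul]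
theorem sad_ax (t z : ℝ) : sad t (ax z) = ax (Real.exp (-t) * z) := E3_ext (by simp) (by simp) (by simp)
theorem sad_injective (t : ℝ) : Function.Injective (sad t) := fun p q h =>
  lf_injective 1 (-1) t (by rwa [lf_sad, lf_sad])
theorem sad_mem_Dom (t : ℝ) {q : E3} (hq : q ∈ Dom) : sad t q ∈ Dom := by
  have h : rad (sad t q) * |sad t q 2| = rad q * |q 2| := by
    rw [rad_sad, sad_apply_two, abs_mul, abs_of_pos (Real.exp_pos _), Real.exp_neg]
    field_simp
  exact h.trans_lt hq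
theorem continuous_sad : Continuous fun p : ℝ × E3 => sad p.1 p.2 := by
  unfold sad
  fun_prop
theorem exists_sad_small {p : E3} (hp : p ∈ Dom) : ∃ T, ‖sad (-T) p‖ < 2 := by
  have hp' : rad p * |p 2| < 1 := hp
  have h0 := rad_nonneg p
  have h1 := abs_nonneg (p 2)
  obtain ⟨c, hc, h2, h3⟩ : ∃ c : ℝ, 0 < c ∧ rad p < c ∧ c * |p 2| < 1 := by
    have h : ∀ᶠ c in 𝓝[>] (rad p), c * |p 2| < 1 :=
      nhdsWithin_le_nhds ((continuous_id.mul continuous_const).continuousAt.eventually_lt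
        continuousAt_const hp')
    obtain ⟨c, hc, hc'⟩ := (h.and self_mem_nhdsWithin).exists
    exact ⟨c, h0.trans_lt hc', hc', hc⟩
  refine ⟨Real.log c, (norm_le_rad_add _).trans_lt ?_⟩
  rw [rad_sad, sad_apply_two, neg_neg, Real.exp_neg, Real.exp_log hc, abs_mul, abs_of_pos hc]
  have : c⁻¹ * rad p < 1 := by rwa [inv_mul_lt_iff₀ hc, mul_one]
  linarith

/-- A point off the horizontal plane lies on the orbit of a point of height `± c`. -/
theorem exists_sad_height {p : E3} (hp : p 2 ≠ 0) {c : ℝ} (hc : 0 < c) :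
    ∃ σ T : ℝ, (σ = 1 ∨ σ = -1) ∧ Real.exp T * |p 2| = c ∧ sad (-T) p 2 = σ * c := by
  have h := abs_pos.2 hp
  have e : Real.exp (Real.log (c / |p 2|)) * |p 2| = c := by
    rw [Real.exp_log (by positivity)]
    field_simp
  rcases lt_or_gt_of_ne hp with h' | h'
  · refine ⟨-1, _, Or.inr rfl, e, ?_⟩
    rw [sad_apply_two, neg_neg]
    nth_rewrite 2 [abs_of_neg h'] at e
    linarith
  · refine ⟨1, _, Or.inl rfl, e, ?_⟩
    rw [sad_apply_two, neg_neg]
    nth_rewrite 2 [abs_of_pos h'] at e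
    linarith

theorem isCompact_cyl (δ a b : ℝ) : IsCompact {p : E3 | rad p ≤ δ ∧ p 2 ∈ Icc a b} := by
  refine (isCompact_closedBall (0 : E3) (δ + max |a| |b|)).of_isClosed_subset
    ((isClosed_le continuous_rad continuous_const).inter
      (isClosed_Icc.preimage (continuous_coord 2))) fun p hp => ?_
  rw [mem_closedBall_zero_iff]
  exact (norm_le_rad_add p).trans (add_le_add hp.1 (abs_le_max_abs_abs hp.2.1 hp.2.2))

/-- An open set that contains a segment of the axis contains a cylinder about it. -/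
theorem exists_cyl {O : Set E3} (hO : IsOpen O) {a b : ℝ} (h : ∀ z ∈ Icc a b, ax z ∈ O) :
    ∃ δ : ℝ, 0 < δ ∧ ∀ p : E3, rad p ≤ δ → p 2 ∈ Icc a b → p ∈ O := by
  obtain ⟨δ, hδ, h'⟩ := (isCompact_Icc.image contDiff_ax.continuous).exists_cthickening_subset_open
    hO (image_subset_iff.2 h)
  refine ⟨δ, hδ, fun p hp hz => h' (mem_cthickening_of_dist_le p _ δ _ ⟨_, hz, rfl⟩ ?_)⟩
  rwa [dist_eq_norm, norm_sub_ax]

/-- An open set that contains a horizontal circle contains a ring about it. -/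
theorem exists_ring {O : Set E3} (hO : IsOpen O) {r : ℝ}
    (h : ∀ p : E3, rad p = r → p 2 = 0 → p ∈ O) :
    ∃ δ : ℝ, 0 < δ ∧ ∀ p : E3, rad p = r → |p 2| ≤ δ → p ∈ O := by
  have hK : IsCompact {p : E3 | rad p = r ∧ p 2 = 0} :=
    (isCompact_cyl r 0 0).of_isClosed_subset ((isClosed_eq continuous_rad continuous_const).inter
      (isClosed_eq (continuous_coord 2) continuous_const))
      fun p hp => ⟨hp.1.le, hp.2.ge, hp.2.le⟩
  obtain ⟨δ, hδ, h'⟩ := hK.exists_cthickening_subset_open hO fun p hp => h p hp.1 hp.2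
  refine ⟨δ, hδ, fun p hp hz => h' (mem_cthickening_of_dist_le p (p - ax (p 2)) δ _ ⟨?_, ?_⟩ ?_)⟩
  · rw [← hp]
    simp [rad]
  · simp
  · rwa [dist_eq_norm, sub_sub_cancel, norm_ax]

theorem orientedAtlas_E3 : OrientedAtlas E3 := by
  intro e he e' he' x _
  rw [chartedSpaceSelf_atlas] at he he'
  subst he he'
  simp [ContinuousLinearMap.det]

theorem compact_orbit {X : Type*} [TopologicalSpace X] {γ : ℝ → X} (hγ : Continuous γ) {a b : X}
    (ha : Tendsto γ atBot (𝓝 a)) (hb : Tendsto γ atTop (𝓝 b)) :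
    IsCompact (range γ ∪ {a, b}) := by
  refine isCompact_of_finite_subcover fun U hU hs => ?_
  obtain ⟨i, hi⟩ := mem_iUnion.1 (hs (Or.inr (Or.inl rfl)))
  obtain ⟨j, hj⟩ := mem_iUnion.1 (hs (Or.inr (Or.inr rfl)))
  obtain ⟨A, hA⟩ := eventually_atBot.1 (ha ((hU i).mem_nhds hi))
  obtain ⟨B, hB⟩ := eventually_atTop.1 (hb ((hU j).mem_nhds hj))
  obtain ⟨s, hs'⟩ := ((isCompact_Icc (a := A) (b := B)).image hγ).elim_finite_subcover U hU
    ((image_subset_range _ _).trans (subset_union_left.trans hs))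
  classical
  refine ⟨insert i (insert j s), ?_⟩
  rw [Finset.set_biUnion_insert, Finset.set_biUnion_insert]
  rintro _ (⟨t, rfl⟩ | rfl | rfl)
  · rcases le_total t A with h | h
    · exact Or.inl (hA t h)
    · rcases le_total B t with h' | h'
      · exact Or.inr (Or.inl (hB t h'))
      · exact Or.inr (Or.inr (hs' ⟨t, ⟨h, h'⟩, rfl⟩))
  · exact Or.inl hi
  · exact Or.inr (Or.inl hj)

/-- Countably many smooth images of pieces of a plane have dense complement. -/
theorem dense_compl_surfaces {ι : Type*} [Countable ι] (g : ι → ℝ × ℝ → E3)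
    (s : ι → Set (ℝ × ℝ)) (hg : ∀ i, ∀ p ∈ s i, ContDiffAt ℝ 1 (g i) p) :
    Dense (⋃ i, g i '' s i)ᶜ := by
  refine dense_compl_of_dimH_lt_finrank ?_
  rw [dimH_iUnion]
  refine (iSup_le fun i => ?_ : _ ≤ (2 : ENNReal)).trans_lt (by simp; norm_num)
  refine (dimH_image_le_of_locally_lipschitzOn fun p hp => ?_).trans ?_
  · obtain ⟨K, u, hu, h⟩ := (hg i p hp).exists_lipschitzOnWith
    exact ⟨K, u, nhdsWithin_le_nhds hu, h⟩
  · refine (dimH_mono (subset_univ _)).trans ?_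
    rw [Real.dimH_univ_eq_finrank]
    simp

end Pool.Agent.P.MP_ac4909_gt.B.H
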