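import Pool.Agent.P.MP_ac4909_gt.B.H.A1

/-! Layer H, tools 2: flows. -/

namespace Pool.Agent.P.MP_ac4909_gt.B.H

open scoped Manifold ContDiff Topology
open Set Metric Filter

variable {M : Type*} [TopologicalSpace M] [ChartedSpace E3 M]

namespace SFlow

variable {Φ : ℝ → M → M}

theorem continuous (h : SFlow Φ) : Continuous fun p : ℝ × M => Φ p.1 p.2 := h.smooth.continuous
theorem contMDiff (h : SFlow Φ) (t : ℝ) : ContMDiff (𝓡 3) (𝓡 3) ∞ (Φ t) :=   h.smooth.comp (contMDiff_const.prodMk contMDiff_id)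
theorem continuous_space (h : SFlow Φ) (t : ℝ) : Continuous (Φ t) := (h.contMDiff t).continuous
theorem continuous_time (h : SFlow Φ) (x : M) : Continuous fun t => Φ t x :=   h.continuous.comp (continuous_id.prodMk continuous_const)
theorem neg_apply (h : SFlow Φ) (t : ℝ) (x : M) : Φ (-t) (Φ t x) = x := by
  rw [← h.add, neg_add_cancel, h.zero]
theorem apply_neg (h : SFlow Φ) (t : ℝ) (x : M) : Φ t (Φ (-t) x) = x := by
  rw [← h.add, add_neg_cancel, h.zero]
theorem injective (h : SFlow Φ) (t : ℝ) : Function.Injective (Φ t) :=   Function.LeftInverse.injective (h.neg_apply t)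
theorem tendsto_atBot_iff (h : SFlow Φ) (s : ℝ) (x p : M) :
    Tendsto (fun t => Φ t (Φ s x)) atBot (𝓝 p) ↔ Tendsto (fun t => Φ t x) atBot (𝓝 p) := by
  have key : ∀ (s : ℝ) (x : M), Tendsto (fun t => Φ t x) atBot (𝓝 p) →
      Tendsto (fun t => Φ t (Φ s x)) atBot (𝓝 p) := fun s x hx => by
    simpa only [← h.add, Function.comp_def, id] using
      hx.comp (tendsto_atBot_add_const_right atBot s tendsto_id)
  exact ⟨fun hx => by simpa only [h.neg_apply] using key (-s) _ hx, key s x⟩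
theorem tendsto_atTop_iff (h : SFlow Φ) (s : ℝ) (x p : M) :
    Tendsto (fun t => Φ t (Φ s x)) atTop (𝓝 p) ↔ Tendsto (fun t => Φ t x) atTop (𝓝 p) := by
  have key : ∀ (s : ℝ) (x : M), Tendsto (fun t => Φ t x) atTop (𝓝 p) →
      Tendsto (fun t => Φ t (Φ s x)) atTop (𝓝 p) := fun s x hx => by
    simpa only [← h.add, Function.comp_def, id] using
      hx.comp (tendsto_atTop_add_const_right atTop s tendsto_id)
  exact ⟨fun hx => by simpa only [h.neg_apply] using key (-s) _ hx, key s x⟩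

end SFlow

namespace CD

variable {κ : Type} (C : CD M κ)

@[simp] theorem rev_c : C.rev.c = C.c := rfl
@[simp] theorem rev_a (k : κ) : C.rev.a k = -C.a k := rfl
@[simp] theorem rev_b (k : κ) : C.rev.b k = -C.b k := rfl

theorem mem_target (k : κ) {q : E3} (hq : q ∈ ball (0 : E3) 1) : C.c k q ∈ (C.c k).target :=   (C.c k).map_source (C.source k ▸ hq)
theorem target_eq (k : κ) : (C.c k).target = C.c k '' ball 0 1 := by
  rw [← C.source k, (C.c k).image_source_eq_target]
theorem inj {k k' : κ} {q q' : E3} (hq : q ∈ ball (0 : E3) 1) (hq' : q' ∈ ball (0 : E3) 1)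
    (h : C.c k q = C.c k' q') : k = k' ∧ q = q' := by
  have hk : k = k' := by
    by_contra hne
    exact disjoint_left.1 (C.disj hne) (C.mem_target k hq) (h ▸ C.mem_target k' hq')
  subst hk
  exact ⟨rfl, (C.c k).injOn (C.source k ▸ hq) (C.source k ▸ hq') h⟩
theorem pt_inj {k k' : κ} (h : C.c k 0 = C.c k' 0) : k = k' :=   (C.inj (mem_ball_self one_pos) (mem_ball_self one_pos) h).1
theorem ne_pt {k : κ} {q : E3} (hq : q ∈ ball (0 : E3) 1) (h0 : q ≠ 0) (k' : κ) :
    C.c k q ≠ C.c k' 0 := fun h => h0 (C.inj hq (mem_ball_self one_pos) h).2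
theorem continuousOn (k : κ) : ContinuousOn (C.c k) (ball 0 1) := C.source k ▸ (C.c k).continuousOn
theorem continuousAt (k : κ) {q : E3} (hq : q ∈ ball (0 : E3) 1) : ContinuousAt (C.c k) q :=   (C.c k).continuousAt (C.source k ▸ hq)
theorem isOpen_image (k : κ) {s : Set E3} (hs : IsOpen s) (h1 : s ⊆ ball 0 1) :
    IsOpen (C.c k '' s) := (C.c k).isOpen_image_of_subset_source hs (C.source k ▸ h1)
theorem isCompact_image (k : κ) {s : Set E3} (hs : IsCompact s) (h1 : s ⊆ ball 0 1) :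
    IsCompact (C.c k '' s) := hs.image_of_continuousOn ((C.continuousOn k).mono h1)
theorem isOpen_preimage (k : κ) {O : Set M} (hO : IsOpen O) :
    IsOpen (ball (0 : E3) 1 ∩ C.c k ⁻¹' O) := (C.continuousOn k).isOpen_inter_preimage isOpen_ball hO
theorem image_ball_mem_nhds (k : κ) {r : ℝ} (hr : 0 < r) : C.c k '' ball 0 r ∈ 𝓝 (C.c k 0) :=   (C.c k).image_mem_nhds (C.source k ▸ mem_ball_self one_pos) (ball_mem_nhds 0 hr)

end CD

namespace FL

variable {κ : Type} (F : FL M κ)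

@[simp] theorem rev_c : F.rev.c = F.c := rfl
@[simp] theorem rev_a (k : κ) : F.rev.a k = -F.a k := rfl
@[simp] theorem rev_b (k : κ) : F.rev.b k = -F.b k := rfl
@[simp] theorem rev_f (x : M) : F.rev.f x = -F.f x := rfl
@[simp] theorem rev_Φ (t : ℝ) : F.rev.Φ t = F.Φ (-t) := rfl

theorem fixed (k : κ) (t : ℝ) : F.Φ t (F.c k 0) = F.c k 0 := by
  have h := F.conj k 0 t (mem_ball_self one_pos) (by rw [lf_origin]; exact mem_ball_self one_pos)
  rwa [lf_origin] at h
theorem eq_of_flow_eq_pt {k : κ} {t : ℝ} {x : M} (h : F.Φ t x = F.c k 0) : x = F.c k 0 :=   F.flow.injective t (h.trans (F.fixed k t).symm)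
theorem antitone (x : M) : Antitone fun t => F.f (F.Φ t x) := by
  by_cases h : ∀ k, x ≠ F.c k 0
  · exact (F.anti x h).antitone
  · push Not at h
    obtain ⟨k, rfl⟩ := h
    simp only [F.fixed]
    exact antitone_const
theorem le_of_nonneg (x : M) {t : ℝ} (ht : 0 ≤ t) : F.f (F.Φ t x) ≤ F.f x := by
  simpa only [F.flow.zero] using F.antitone x ht
theorem le_of_nonpos (x : M) {t : ℝ} (ht : t ≤ 0) : F.f x ≤ F.f (F.Φ t x) := by
  simpa only [F.flow.zero] using F.antitone x ht
theorem Src_flow (t : ℝ) (x : M) : F.Src (F.Φ t x) ↔ F.Src x := by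
  simp only [Src, F.flow.tendsto_atBot_iff]
theorem rev_Src_iff (x : M) : F.rev.Src x ↔
    ∃ v, F.a v = -1 ∧ F.b v = -1 ∧ Tendsto (fun t => F.Φ t x) atTop (𝓝 (F.c v 0)) := by
  refine exists_congr fun v => ?_
  rw [rev_a, rev_b, neg_eq_iff_eq_neg, neg_eq_iff_eq_neg]
  refine and_congr_right fun _ => and_congr_right fun _ => ⟨fun h => ?_, fun h => ?_⟩
  · simpa [Function.comp_def] using h.comp tendsto_neg_atTop_atBot
  · simpa [Function.comp_def] using h.comp tendsto_neg_atBot_atTop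
theorem rev_rev_Src (x : M) : F.rev.rev.Src x ↔ F.Src x := by simp [Src]
theorem rev_rev_Good (k : κ) (σ : ℝ) : F.rev.rev.Good k σ ↔ F.Good k σ := F.rev_rev_Src _
theorem conj_sad {k : κ} (ha : F.a k = 1) (hb : F.b k = -1) {q : E3} {t : ℝ}
    (hq : q ∈ ball (0 : E3) 1) (ht : sad t q ∈ ball (0 : E3) 1) :
    F.Φ t (F.c k q) = F.c k (sad t q) := by
  have h := F.conj k q t hq
  rw [ha, hb, lf_sad] at h
  exact h ht
theorem conj_source {v : κ} (ha : F.a v = 1) (hb : F.b v = 1) {q : E3} {t : ℝ}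
    (hq : q ∈ ball (0 : E3) 1) (ht : Real.exp t • q ∈ ball (0 : E3) 1) :
    F.Φ t (F.c v q) = F.c v (Real.exp t • q) := by
  have h := F.conj v q t hq
  rw [ha, hb, lf_source] at h
  exact h ht

/-- On the unstable subspace the backward flow is linear and stays in the ball. -/
theorem conj_unstable {k : κ} {q : E3} (hq : q ∈ ball (0 : E3) 1)
    (h0 : F.a k = -1 → q 0 = 0 ∧ q 1 = 0) (h2 : F.b k = -1 → q 2 = 0) {t : ℝ} (ht : t ≤ 0) :
    Real.exp t • q ∈ ball (0 : E3) 1 ∧ F.Φ t (F.c k q) = F.c k (Real.exp t • q) := by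
  have e : lf (F.a k) (F.b k) t q = Real.exp t • q := by
    refine E3_ext ?_ ?_ ?_
    · rcases F.a_sign k with h | h
      · simp [h]
      · simp [(h0 h).1]
    · rcases F.a_sign k with h | h
      · simp [h]
      · simp [(h0 h).2]
    · rcases F.b_sign k with h | h
      · simp [h]
      · simp [h2 h]
  have hm : Real.exp t • q ∈ ball (0 : E3) 1 := by
    rw [mem_ball_zero_iff] at hq ⊢
    rw [norm_smul, Real.norm_of_nonneg (Real.exp_pos t).le]
    exact (mul_le_of_le_one_left (norm_nonneg q) (Real.exp_le_one_iff.2 ht)).trans_lt hq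
  exact ⟨hm, e ▸ F.conj k q t hq (e ▸ hm)⟩

theorem tendsto_atBot {k : κ} {q : E3} (hq : q ∈ ball (0 : E3) 1)
    (h0 : F.a k = -1 → q 0 = 0 ∧ q 1 = 0) (h2 : F.b k = -1 → q 2 = 0) :
    Tendsto (fun t => F.Φ t (F.c k q)) atBot (𝓝 (F.c k 0)) := by
  have h1 : Tendsto (fun t : ℝ => Real.exp t • q) atBot (𝓝 0) := by
    simpa using Real.tendsto_exp_atBot.smul_const q
  refine ((F.continuousAt k (mem_ball_self one_pos)).tendsto.comp h1).congr' ?_
  filter_upwards [eventually_le_atBot 0] with t ht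
  exact (F.conj_unstable hq h0 h2 ht).2.symm
theorem tendsto_atTop {k : κ} {q : E3} (hq : q ∈ ball (0 : E3) 1)
    (h0 : F.a k = 1 → q 0 = 0 ∧ q 1 = 0) (h2 : F.b k = 1 → q 2 = 0) :
    Tendsto (fun t => F.Φ t (F.c k q)) atTop (𝓝 (F.c k 0)) := by
  have h := F.rev.tendsto_atBot (k := k) hq (fun h => h0 (by simpa using h))
    fun h => h2 (by simpa using h)
  simpa [Function.comp_def] using h.comp tendsto_neg_atTop_atBot
theorem lt_of_tendsto_atBot {x p : M} (hx : ∀ k, x ≠ F.c k 0)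
    (h : Tendsto (fun t => F.Φ t x) atBot (𝓝 p)) : F.f x < F.f p := by
  have h1 : F.f x < F.f (F.Φ (-1) x) := by
    simpa only [F.flow.zero] using F.anti x hx (show (-1 : ℝ) < 0 by norm_num)
  refine h1.trans_le (ge_of_tendsto (F.f_cont.continuousAt.tendsto.comp h) ?_)
  filter_upwards [eventually_le_atBot (-1)] with t ht using F.antitone x ht
theorem lt_of_tendsto_atTop {x p : M} (hx : ∀ k, x ≠ F.c k 0)
    (h : Tendsto (fun t => F.Φ t x) atTop (𝓝 p)) : F.f p < F.f x := by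
  have h1 : F.f (F.Φ 1 x) < F.f x := by
    simpa only [F.flow.zero] using F.anti x hx (show (0 : ℝ) < 1 by norm_num)
  refine lt_of_le_of_lt (le_of_tendsto (F.f_cont.continuousAt.tendsto.comp h) ?_) h1
  filter_upwards [eventually_ge_atTop 1] with t ht using F.antitone x ht

/-- Spreading a chart along the flow does not depend on the time. -/
theorem sat_wd (k : κ) {T T' : ℝ} {p : E3} (h : lf (F.a k) (F.b k) (-T) p ∈ ball (0 : E3) 1)
    (h' : lf (F.a k) (F.b k) (-T') p ∈ ball (0 : E3) 1) :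
    F.Φ T (F.c k (lf (F.a k) (F.b k) (-T) p)) = F.Φ T' (F.c k (lf (F.a k) (F.b k) (-T') p)) := by
  have e : lf (F.a k) (F.b k) (T - T') (lf (F.a k) (F.b k) (-T) p) = lf (F.a k) (F.b k) (-T') p := by
    rw [← lf_add]
    congr 1
    ring
  rw [← e, ← F.conj k _ (T - T') h (e ▸ h'), ← F.flow.add]
  congr 1
  ring

end FL

namespace Half

variable {ι Vx : Type} (H : Half M ι Vx)

theorem continuous_cv (v : Vx) : Continuous (H.cv v) :=   continuousOn_univ.1 (H.cv_source v ▸ (H.cv v).continuousOn)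
theorem target_cv (v : Vx) : (H.cv v).target = range (H.cv v) := by
  rw [← (H.cv v).image_source_eq_target, H.cv_source, image_univ]
theorem target_ce (e : ι) : (H.ce e).target = H.ce e '' Dom := by
  rw [← (H.ce e).image_source_eq_target, H.ce_source]
theorem mem_gs {x : M} : x ∈ H.gs ↔ (∃ e z, H.ce e (ax z) = x) ∨ ∃ v, H.cv v 0 = x := by
  simp [gs, B.gs, axis_eq_range]

/-- The far ends of an edge chart lie near the vertices. -/
theorem far (e : ι) {σ : ℝ} (hσ : σ = 1 ∨ σ = -1) : ∃ (v : Vx) (C : ℝ), ∀ p ∈ Dom, 0 < σ * p 2 →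
    ∃ d, ‖d‖ * |p 2| ≤ C ∧ H.ce e p = H.cv v d := by
  obtain ⟨v, C, h⟩ := H.ends e σ hσ
  refine ⟨v, C, fun p hp hz => ?_⟩
  have ha : |p 2| = σ * p 2 := by
    rcases hσ with rfl | rfl
    · rw [one_mul] at hz ⊢
      exact abs_of_pos hz
    · rw [neg_one_mul] at hz ⊢
      exact abs_of_neg (neg_pos.1 hz)
  have hs : σ * σ = 1 := by rcases hσ with rfl | rfl <;> norm_num
  set T := Real.log (σ * p 2) with hT
  have hT' : Real.exp (-T) = (σ * p 2)⁻¹ := by rw [Real.exp_neg, Real.exp_log hz]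
  have hp2 : p 2 ≠ 0 := fun h => by simp [h] at hz
  have hσ0 : σ ≠ 0 := fun h => by simp [h] at hz
  obtain ⟨d, hd, he⟩ := h (sad T p) (sad_mem_Dom T hp) (by
    rw [sad_apply_two, hT']
    field_simp
    linarith)
  refine ⟨Real.exp (-T) • d, ?_, ?_⟩
  · rw [norm_smul, hT', Real.norm_of_nonneg (by positivity), ha]
    field_simp
    exact hd
  · rw [← H.cv_flow, ← he, H.ce_flow e _ _ (sad_mem_Dom T hp), ← sad_add, neg_add_cancel,
      sad_zero]

end Half

end Pool.Agent.P.MP_ac4909_gt.B.H
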