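import Pool.Agent.P.MP_ac4909_gt.B.H.A1

/-! Layer H, tools 3: differentials and positive charts. -/

namespace Pool.Agent.P.MP_ac4909_gt.B.H

open scoped Manifold ContDiff Topology
open Set Metric Filter

variable {M N P : Type*} [TopologicalSpace M] [ChartedSpace E3 M] [TopologicalSpace N]
  [ChartedSpace E3 N] [TopologicalSpace P] [ChartedSpace E3 P]

theorem jac_eq_fderiv (f : E3 → E3) (x : E3) : jac f x = fderiv ℝ f x := mfderiv_eq_fderiv
theorem df_eq_fderiv (f : E3 → ℝ) (x : E3) : df f x = fderiv ℝ f x := mfderiv_eq_fderiv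
theorem jac_id (x : M) : jac (fun y : M => y) x = ContinuousLinearMap.id ℝ E3 := mfderiv_id
theorem jac_congr {f g : M → N} {x : M} (h : f =ᶠ[𝓝 x] g) : jac f x = jac g x := h.mfderiv_eq
theorem df_congr {f g : M → ℝ} {x : M} (h : f =ᶠ[𝓝 x] g) : df f x = df g x := h.mfderiv_eq
theorem jac_comp {g : N → P} {f : M → N} {x : M} (hg : MDifferentiableAt (𝓡 3) (𝓡 3) g (f x))
    (hf : MDifferentiableAt (𝓡 3) (𝓡 3) f x) :
    jac (fun y => g (f y)) x = (jac g (f x)).comp (jac f x) := mfderiv_comp x hg hf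
theorem det_jac_comp {g : N → P} {f : M → N} {x : M}
    (hg : MDifferentiableAt (𝓡 3) (𝓡 3) g (f x)) (hf : MDifferentiableAt (𝓡 3) (𝓡 3) f x) :
    (jac (fun y => g (f y)) x).det = (jac g (f x)).det * (jac f x).det := by
  rw [jac_comp hg hf]
  exact LinearMap.det_comp (jac g (f x) : E3 →ₗ[ℝ] E3) (jac f x : E3 →ₗ[ℝ] E3)
theorem df_comp {g : N → ℝ} {f : M → N} {x : M} (hg : MDifferentiableAt (𝓡 3) 𝓘(ℝ, ℝ) g (f x))
    (hf : MDifferentiableAt (𝓡 3) (𝓡 3) f x) :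
    df (fun y => g (f y)) x = (df g (f x)).comp (jac f x) := mfderiv_comp x hg hf
theorem det_comp (A B : E3 →L[ℝ] E3) : (A.comp B).det = A.det * B.det := 
  LinearMap.det_comp (A : E3 →ₗ[ℝ] E3) (B : E3 →ₗ[ℝ] E3)
theorem det_id : (ContinuousLinearMap.id ℝ E3).det = 1 := LinearMap.det_id
theorem exists_equiv_of_det {A : E3 →L[ℝ] E3} (h : A.det ≠ 0) :
    ∃ L : E3 ≃L[ℝ] E3, (L : E3 →L[ℝ] E3) = A := 
  ⟨A.toContinuousLinearEquivOfDetNeZero h, A.coe_toContinuousLinearEquivOfDetNeZero h⟩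
theorem det_ne_zero_iff {A : E3 →L[ℝ] E3} : A.det ≠ 0 ↔ Function.Injective A := by
  constructor
  · intro h
    obtain ⟨L, hL⟩ := exists_equiv_of_det h
    rw [← hL]
    exact L.injective
  · intro h h0
    have h1 : LinearMap.det (A : E3 →ₗ[ℝ] E3) = 0 := h0
    rw [LinearMap.det_eq_zero_iff_ker_ne_bot] at h1
    exact h1 (LinearMap.ker_eq_bot.2 h)

variable {e : OpenPartialHomeomorph E3 M}

theorem pc_at (h : IsPChart e) {q : E3} (hq : q ∈ e.source) :
    ContMDiffAt (𝓡 3) (𝓡 3) ∞ e q := h.smooth.contMDiffAt (e.open_source.mem_nhds hq)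
theorem pc_symm_at (h : IsPChart e) {x : M} (hx : x ∈ e.target) :
    ContMDiffAt (𝓡 3) (𝓡 3) ∞ e.symm x := h.smooth_symm.contMDiffAt (e.open_target.mem_nhds hx)
theorem pc_md (h : IsPChart e) {q : E3} (hq : q ∈ e.source) :
    MDifferentiableAt (𝓡 3) (𝓡 3) e q := (pc_at h hq).mdifferentiableAt (by simp)
theorem pc_symm_md (h : IsPChart e) {x : M} (hx : x ∈ e.target) :
    MDifferentiableAt (𝓡 3) (𝓡 3) e.symm x := (pc_symm_at h hx).mdifferentiableAt (by simp)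
theorem pc_symm_comp (h : IsPChart e) {q : E3} (hq : q ∈ e.source) :
    (jac e.symm (e q)).comp (jac e q) = ContinuousLinearMap.id ℝ E3 := by
  rw [← jac_comp (pc_symm_md h (e.map_source hq)) (pc_md h hq), ← jac_id q]
  apply jac_congr
  filter_upwards [e.open_source.mem_nhds hq] with y hy
  exact e.left_inv hy
theorem pc_comp_symm (h : IsPChart e) {q : E3} (hq : q ∈ e.source) :
    (jac e q).comp (jac e.symm (e q)) = ContinuousLinearMap.id ℝ E3 := by
  have h1 : MDifferentiableAt (𝓡 3) (𝓡 3) e (e.symm (e q)) := by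
    rw [e.left_inv hq]
    exact pc_md h hq
  have h2 := jac_comp h1 (pc_symm_md h (e.map_source hq))
  rw [e.left_inv hq] at h2
  rw [← h2, ← jac_id (e q)]
  apply jac_congr
  filter_upwards [e.open_target.mem_nhds (e.map_source hq)] with y hy
  exact e.right_inv hy
theorem pc_symm_apply (h : IsPChart e) {q : E3} (hq : q ∈ e.source) (v : E3) :
    jac e.symm (e q) (jac e q v) = v := by
  have h1 := congrArg (fun A : E3 →L[ℝ] E3 => A v) (pc_symm_comp h hq)
  simpa using h1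
theorem pc_apply_symm (h : IsPChart e) {q : E3} (hq : q ∈ e.source) (v : E3) :
    jac e q (jac e.symm (e q) v) = v := by
  have h1 := congrArg (fun A : E3 →L[ℝ] E3 => A v) (pc_comp_symm h hq)
  simpa using h1
theorem pc_det_symm_pos (h : IsPChart e) {x : M} (hx : x ∈ e.target) :
    0 < (jac e.symm x).det := by
  have hq := e.map_target hx
  have h1 := congrArg ContinuousLinearMap.det (pc_symm_comp h hq)
  rw [det_comp, det_id, e.right_inv hx] at h1
  have h2 := h.pos _ hq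
  by_contra h3
  have h4 : (jac e.symm x).det * (jac e (e.symm x)).det ≤ 0 :=
    mul_nonpos_of_nonpos_of_nonneg (not_lt.1 h3) h2.le
  linarith

theorem pc_contDiffOn {F : Type*} [NormedAddCommGroup F] [NormedSpace ℝ F] (h : IsPChart e)
    {f : M → F} (hf : ContMDiff (𝓡 3) 𝓘(ℝ, F) ∞ f) : ContDiffOn ℝ ∞ (f ∘ e) e.source := 
  contMDiffOn_iff_contDiffOn.1 (hf.comp_contMDiffOn h.smooth)
theorem pc_contDiffAt {F : Type*} [NormedAddCommGroup F] [NormedSpace ℝ F] (h : IsPChart e)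
    {f : M → F} {q : E3} (hq : q ∈ e.source) (hf : ContMDiffAt (𝓡 3) 𝓘(ℝ, F) ∞ f (e q)) :
    ContDiffAt ℝ ∞ (f ∘ e) q := contMDiffAt_iff_contDiffAt.1 (hf.comp q (pc_at h hq))
theorem pc_fderiv_real (h : IsPChart e) {f : M → ℝ} {q : E3} (hq : q ∈ e.source)
    (hf : MDifferentiableAt (𝓡 3) 𝓘(ℝ, ℝ) f (e q)) :
    fderiv ℝ (f ∘ e) q = (df f (e q)).comp (jac e q) := by
  rw [← df_eq_fderiv]
  exact df_comp hf (pc_md h hq)
theorem pc_fderiv (h : IsPChart e) {j : M → E3} {q : E3} (hq : q ∈ e.source)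
    (hj : MDifferentiableAt (𝓡 3) (𝓡 3) j (e q)) :
    fderiv ℝ (j ∘ e) q = (jac j (e q)).comp (jac e q) := by
  rw [← jac_eq_fderiv]
  exact jac_comp hj (pc_md h hq)
theorem pc_df_eq_zero_iff (h : IsPChart e) {f : M → ℝ} {q : E3} (hq : q ∈ e.source)
    (hf : MDifferentiableAt (𝓡 3) 𝓘(ℝ, ℝ) f (e q)) :
    df f (e q) = 0 ↔ fderiv ℝ (f ∘ e) q = 0 := by
  rw [pc_fderiv_real h hq hf]
  constructor
  · intro h0
    rw [h0]
    simp
  · intro h0
    ext v
    have h1 := congrArg (fun A : E3 →L[ℝ] ℝ => A (jac e.symm (e q) v)) h0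
    simpa [pc_apply_symm h hq] using h1

variable [IsManifold (𝓡 3) ∞ M]

theorem pc_chartAt (hM : OrientedAtlas M) (x : M) : IsPChart (chartAt E3 x).symm := by
  refine ⟨contMDiffOn_chart_symm, contMDiffOn_chart, fun p hp => ?_⟩
  have hp' : p ∈ (chartAt E3 x).target := hp
  have hmd : MDifferentiableAt (𝓡 3) (𝓡 3) (chartAt E3 x).symm p :=
    ((contMDiffOn_chart_symm (I := 𝓡 3) (n := ∞) (x := x)).contMDiffAt
      ((chartAt E3 x).open_target.mem_nhds hp')).mdifferentiableAt (by simp)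
  have h1 := hM (chartAt E3 x) (chart_mem_atlas E3 x) (chartAt E3 ((chartAt E3 x).symm p))
    (chart_mem_atlas E3 _) p ⟨hp', mem_chart_source E3 _⟩
  have h2 : jac (chartAt E3 x).symm p =
      fderiv ℝ ((chartAt E3 x).symm ≫ₕ chartAt E3 ((chartAt E3 x).symm p)) p := by
    unfold jac
    rw [hmd.mfderiv]
    simp only [writtenInExtChartAt, mfld_simps, fderivWithin_univ] <;> rfl
  rw [h2]
  exact h1
theorem exists_pc (hM : OrientedAtlas M) (x : M) :
    ∃ (e : OpenPartialHomeomorph E3 M) (q : E3), IsPChart e ∧ q ∈ e.source ∧ e q = x := 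
  ⟨(chartAt E3 x).symm, chartAt E3 x x, pc_chartAt hM x,
    (chartAt E3 x).map_source (mem_chart_source E3 x),
    (chartAt E3 x).left_inv (mem_chart_source E3 x)⟩
theorem isOpen_df_ne (hM : OrientedAtlas M) {f : M → ℝ} (hf : ContMDiff (𝓡 3) 𝓘(ℝ, ℝ) ∞ f) :
    IsOpen {x | df f x ≠ 0} := by
  rw [isOpen_iff_mem_nhds]
  intro x hx
  obtain ⟨e, q, he, hq, rfl⟩ := exists_pc hM x
  have hfd : ∀ y, MDifferentiableAt (𝓡 3) 𝓘(ℝ, ℝ) f y := fun y =>
    (hf y).mdifferentiableAt (by simp)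
  have h1 : fderiv ℝ (f ∘ e) q ≠ 0 := fun h0 => hx ((pc_df_eq_zero_iff he hq (hfd _)).2 h0)
  have h2 : ContinuousAt (fderiv ℝ (f ∘ e)) q :=
    ((pc_contDiffAt he hq (hf _)).fderiv_right (m := 0) (by simp)).continuousAt
  have h3 : ∀ᶠ y in 𝓝 q, fderiv ℝ (f ∘ e) y ≠ 0 := h2.eventually_ne h1
  have h4 : ∀ᶠ y in 𝓝 q, df f (e y) ≠ 0 := by
    filter_upwards [h3, e.open_source.mem_nhds hq] with y hy hy'
    exact fun h0 => hy ((pc_df_eq_zero_iff he hy' (hfd _)).1 h0)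
  rw [← e.map_nhds_eq hq]
  exact h4

/-- The inverse function theorem: local injectivity. -/
theorem exists_injOn (hM : OrientedAtlas M) {j : M → E3} (hj : ContMDiff (𝓡 3) (𝓡 3) ∞ j) {x : M}
    (hx : (jac j x).det ≠ 0) : ∃ u ∈ 𝓝 x, InjOn j u := by
  obtain ⟨e, q, he, hq, rfl⟩ := exists_pc hM x
  have hjd : MDifferentiableAt (𝓡 3) (𝓡 3) j (e q) := (hj _).mdifferentiableAt (by simp)
  have h1 : ContDiffAt ℝ ∞ (j ∘ e) q := pc_contDiffAt he hq (hj _)
  have h2 : (fderiv ℝ (j ∘ e) q).det ≠ 0 := by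
    rw [pc_fderiv he hq hjd, det_comp]
    exact mul_ne_zero hx (he.pos q hq).ne'
  obtain ⟨L, hL⟩ := exists_equiv_of_det h2
  have h3 : HasStrictFDerivAt (j ∘ e) (L : E3 →L[ℝ] E3) q := by
    rw [hL]
    exact h1.hasStrictFDerivAt (by simp)
  have h4 : InjOn (j ∘ e) (h3.toOpenPartialHomeomorph _).source := by
    have h5 := (h3.toOpenPartialHomeomorph _).injOn
    rwa [h3.toOpenPartialHomeomorph_coe] at h5
  have h6 : (h3.toOpenPartialHomeomorph _).source ∩ e.source ∈ 𝓝 q :=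
    inter_mem ((h3.toOpenPartialHomeomorph _).open_source.mem_nhds
      h3.mem_toOpenPartialHomeomorph_source) (e.open_source.mem_nhds hq)
  refine ⟨e '' ((h3.toOpenPartialHomeomorph _).source ∩ e.source), e.image_mem_nhds hq h6, ?_⟩
  rintro _ ⟨a, ha, rfl⟩ _ ⟨b, hb, rfl⟩ hab
  rw [h4 ha.1 hb.1 hab]

end Pool.Agent.P.MP_ac4909_gt.B.H
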