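import Pool.Agent.P.MP_ac4909_gt.B.H.A2
import Pool.Agent.P.MP_ac4909_gt.B.H.A3

/-! Layer H, tools 4: new charts from old ones; extension of smooth maps. -/

namespace Pool.Agent.P.MP_ac4909_gt.B.H

open scoped Manifold ContDiff Topology
open Set Metric Filter

variable {M : Type*} [TopologicalSpace M] [ChartedSpace E3 M] {e : OpenPartialHomeomorph E3 M}

namespace RA4

theorem restr (h : IsPChart e) {W : Set E3} (hW : IsOpen W) : IsPChart (e.restrOpen W hW) where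
  smooth := h.smooth.mono inter_subset_left
  smooth_symm := h.smooth_symm.mono inter_subset_left
  pos := fun p hp => h.pos p hp.1

/-- the affine homeomorphism -/
noncomputable def aff (q₀ : E3) (L : E3 ≃L[ℝ] E3) : E3 ≃ₜ E3 :=
  L.toHomeomorph.trans (Homeomorph.addLeft q₀)

theorem aff_apply (q₀ : E3) (L : E3 ≃L[ℝ] E3) (q : E3) : aff q₀ L q = q₀ + L q := rfl

theorem aff_symm_apply (q₀ : E3) (L : E3 ≃L[ℝ] E3) (q : E3) :
    (aff q₀ L).symm q = L.symm (-q₀ + q) := rfl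

theorem contDiff_aff (q₀ : E3) (L : E3 ≃L[ℝ] E3) : ContDiff ℝ ∞ fun q => q₀ + L q :=
  contDiff_const.add L.contDiff

theorem contDiff_aff_symm (q₀ : E3) (L : E3 ≃L[ℝ] E3) :
    ContDiff ℝ ∞ fun q => L.symm (-q₀ + q) :=
  L.symm.contDiff.comp (contDiff_const.add contDiff_id)

theorem jac_aff (q₀ : E3) (L : E3 ≃L[ℝ] E3) (q : E3) :
    jac (fun q => q₀ + L q) q = (L : E3 →L[ℝ] E3) := by
  rw [jac_eq_fderiv]
  exact (L.hasFDerivAt.const_add q₀).fderiv

theorem jac_pre (h : IsPChart e) (q₀ : E3) (L : E3 ≃L[ℝ] E3) {q : E3}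
    (hq : q₀ + L q ∈ e.source) :
    jac (fun q => e (q₀ + L q)) q = (jac e (q₀ + L q)).comp (L : E3 →L[ℝ] E3) := by
  rw [← jac_aff q₀ L q]
  exact jac_comp (f := fun q => q₀ + L q) (pc_md h hq)
    ((contDiff_aff q₀ L).contMDiff.mdifferentiableAt (by simp))

theorem pre (h : IsPChart e) (q₀ : E3) (L : E3 ≃L[ℝ] E3) (hL : 0 < (L : E3 →L[ℝ] E3).det) :
    IsPChart ((aff q₀ L).transOpenPartialHomeomorph e) where
  smooth := h.smooth.comp (contDiff_aff q₀ L).contMDiff.contMDiffOn fun _ hq => hq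
  smooth_symm := (contDiff_aff_symm q₀ L).contMDiff.comp_contMDiffOn h.smooth_symm
  pos := fun p hp => by
    have h1 : jac ((aff q₀ L).transOpenPartialHomeomorph e) p
        = (jac e (q₀ + L p)).comp (L : E3 →L[ℝ] E3) := jac_pre h q₀ L hp
    rw [h1, det_comp]
    exact mul_pos (h.pos _ hp) hL

/-- the time `T` map of a flow -/
def flowH {Φ : ℝ → M → M} (hΦ : SFlow Φ) (T : ℝ) : M ≃ₜ M where
  toFun := Φ T
  invFun := Φ (-T)
  left_inv := hΦ.neg_apply T
  right_inv := hΦ.apply_neg T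
  continuous_toFun := hΦ.continuous_space T
  continuous_invFun := hΦ.continuous_space (-T)

omit [ChartedSpace E3 M] in
theorem map_nhds_eq {g : E3 → M} {p : E3} (hp : p ∈ e.source) (hg : g =ᶠ[𝓝 p] e) :
    map g (𝓝 p) = 𝓝 (g p) := by
  rw [map_congr hg, hg.eq_of_nhds]
  exact e.map_nhds_eq hp

end RA4

theorem pc_affine (h : IsPChart e) (q₀ : E3) (L : E3 ≃L[ℝ] E3) (hL : 0 < (L : E3 →L[ℝ] E3).det)
    {W : Set E3} (hW : IsOpen W) (hm : MapsTo (fun q => q₀ + L q) W e.source) :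
    ∃ e' : OpenPartialHomeomorph E3 M, IsPChart e' ∧ e'.source = W ∧
      (∀ q, e' q = e (q₀ + L q)) ∧ ∀ q ∈ W, ∀ v, jac e' q v = jac e (q₀ + L q) (L v) := by
  refine ⟨((RA4.aff q₀ L).transOpenPartialHomeomorph e).restrOpen W hW,
    RA4.restr (RA4.pre h q₀ L hL) hW, inter_eq_right.2 fun q hq => hm hq, fun q => rfl,
    fun q hq v => ?_⟩
  have h1 : jac (((RA4.aff q₀ L).transOpenPartialHomeomorph e).restrOpen W hW) q
      = (jac e (q₀ + L q)).comp (L : E3 →L[ℝ] E3) := RA4.jac_pre h q₀ L (hm hq)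
  rw [h1]
  rfl

theorem pc_scale (h : IsPChart e) (hs : e.source = ball 0 1) {r : ℝ} (hr : 0 < r) (h1 : r ≤ 1) :
    ∃ e' : OpenPartialHomeomorph E3 M, IsPChart e' ∧ e'.source = ball 0 1 ∧
      (∀ q, e' q = e (r • q)) ∧ e'.target = e '' ball 0 r ∧
      ∀ q ∈ ball (0 : E3) 1, ∀ v, jac e' q v = jac e (r • q) (r • v) := by
  obtain ⟨L, hL, hq⟩ := exists_lfEquiv 1 1 0 r hr
  simp only [lf_zero] at hq
  have hb : ∀ q : E3, r • q ∈ ball (0 : E3) r ↔ q ∈ ball (0 : E3) 1 := fun q => by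
    rw [mem_ball_zero_iff, mem_ball_zero_iff, norm_smul, Real.norm_of_nonneg hr.le]
    exact mul_lt_iff_lt_one_right hr
  obtain ⟨e', h1', h2, h3, h4⟩ := pc_affine h 0 L hL (W := ball 0 1) isOpen_ball fun q hq' => by
    rw [hs]
    simp only [zero_add, hq]
    exact ball_subset_ball h1 ((hb q).2 hq')
  simp only [zero_add, hq] at h3 h4
  refine ⟨e', h1', h2, h3, ?_, h4⟩
  rw [← e'.image_source_eq_target, h2]
  ext x
  constructor
  · rintro ⟨q, hq', rfl⟩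
    exact ⟨r • q, (hb q).2 hq', (h3 q).symm⟩
  · rintro ⟨q, hq', rfl⟩
    have h5 : r • r⁻¹ • q = q := smul_inv_smul₀ hr.ne' q
    exact ⟨r⁻¹ • q, (hb _).1 (h5.symm ▸ hq'), by rw [h3, h5]⟩

theorem pc_flow (h : IsPChart e) {Φ : ℝ → M → M} (hΦ : SFlow Φ) (T : ℝ) :
    ∃ e' : OpenPartialHomeomorph E3 M, IsPChart e' ∧ e'.source = e.source ∧
      ∀ q, e' q = Φ T (e q) := by
  refine ⟨e.transHomeomorph (RA4.flowH hΦ T), ⟨?_, ?_, fun p hp => ?_⟩, rfl, fun q => rfl⟩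
  · exact (hΦ.contMDiff T).comp_contMDiffOn h.smooth
  · exact h.smooth_symm.comp (hΦ.contMDiff (-T)).contMDiffOn fun _ hx => hx
  · have h1 : (jac (e.transHomeomorph (RA4.flowH hΦ T)) p).det
        = (jac (Φ T) (e p)).det * (jac e p).det :=
      det_jac_comp ((hΦ.contMDiff T).mdifferentiableAt (by simp)) (pc_md h hp)
    rw [h1]
    exact mul_pos (hΦ.pos T _) (h.pos p hp)

/-- An injective map that is locally a positive chart is a positive chart. -/
theorem exists_pc_of_local (g : E3 → M) {W : Set E3} (hW : IsOpen W) (inj : InjOn g W)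
    (loc : ∀ p ∈ W, ∃ e : OpenPartialHomeomorph E3 M, IsPChart e ∧ p ∈ e.source ∧ g =ᶠ[𝓝 p] e) :
    ∃ e : OpenPartialHomeomorph E3 M, IsPChart e ∧ e.source = W ∧ ∀ p, e p = g p := by
  have hc : ContinuousOn g W := fun p hp => by
    obtain ⟨e₀, -, h1, h2⟩ := loc p hp
    exact ((e₀.continuousAt h1).congr h2.symm).continuousWithinAt
  have ho : IsOpenMap (W.domRestrict g) := by
    refine isOpenMap_iff_nhds_le.2 fun p => ?_
    obtain ⟨e₀, -, h1, h2⟩ := loc p p.2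
    have h3 : map (W.domRestrict g) (𝓝 p) = map g (𝓝 (p : E3)) := by
      rw [← hW.isOpenEmbedding_subtypeVal.map_nhds_eq p, map_map]
      rfl
    rw [h3, RA4.map_nhds_eq h1 h2]
    exact le_rfl
  let e₁ : OpenPartialHomeomorph E3 M :=
    OpenPartialHomeomorph.ofContinuousOpenRestrict (inj.toPartialEquiv g W) hc ho hW
  have hs : e₁.source = W := rfl
  have hg : ∀ p, e₁ p = g p := fun p => rfl
  refine ⟨e₁, ⟨fun p hp => ?_, fun x hx => ?_, fun p hp => ?_⟩, hs, hg⟩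
  · obtain ⟨e₀, h0, h1, h2⟩ := loc p hp
    exact ((pc_at h0 h1).congr_of_eventuallyEq h2).contMDiffWithinAt
  · obtain ⟨p, hp, rfl⟩ : x ∈ e₁ '' e₁.source := e₁.image_source_eq_target ▸ hx
    obtain ⟨e₀, h0, h1, h2⟩ := loc p hp
    have h3 : e₁ p = e₀ p := h2.eq_of_nhds
    have h4 : Tendsto e₀.symm (𝓝 (e₀ p)) (𝓝 p) := e₀.tendsto_symm h1
    have h5 : e₁.symm =ᶠ[𝓝 (e₀ p)] e₀.symm := by
      filter_upwards [h4.eventually h2, h4.eventually (hW.mem_nhds hp),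
        e₀.open_target.mem_nhds (e₀.map_source h1)] with y hy1 hy2 hy3
      rw [e₀.right_inv hy3] at hy1
      have h6 := e₁.left_inv (x := e₀.symm y) hy2
      rwa [hg, hy1] at h6
    rw [h3]
    exact ((pc_symm_at h0 (e₀.map_source h1)).congr_of_eventuallyEq h5).contMDiffWithinAt
  · obtain ⟨e₀, h0, h1, h2⟩ := loc p hp
    have h3 : jac e₁ p = jac e₀ p := jac_congr h2
    rw [h3]
    exact h0.pos p h1

theorem ext_smooth_E3 {F : Type*} [NormedAddCommGroup F] [NormedSpace ℝ F] {g : E3 → F}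
    {O : Set E3} {q₀ : E3} (hO : IsOpen O) (h₀ : q₀ ∈ O) (hg : ContDiffOn ℝ ∞ g O) :
    ∃ G : E3 → F, ContDiff ℝ ∞ G ∧ HasCompactSupport G ∧ G =ᶠ[𝓝 q₀] g := by
  obtain ⟨r, hr, hb⟩ := nhds_basis_closedBall.mem_iff.1 (hO.mem_nhds h₀)
  let b : ContDiffBump q₀ := ⟨r / 2, r, half_pos hr, half_lt_self hr⟩
  have hsub : tsupport (fun q => b q • g q) ⊆ closedBall q₀ r := by
    have h1 := tsupport_smul_subset_left (fun q => b q) g
    rwa [b.tsupport_eq] at h1
  refine ⟨fun q => b q • g q, contDiff_iff_contDiffAt.2 fun q => ?_,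
    (isCompact_closedBall q₀ r).of_isClosed_subset (isClosed_tsupport _) hsub, ?_⟩
  · by_cases hq : q ∈ tsupport fun q => b q • g q
    · exact b.contDiff.contDiffAt.smul (hg.contDiffAt (hO.mem_nhds (hb (hsub hq))))
    · exact contDiffAt_const.congr_of_eventuallyEq (notMem_tsupport_iff_eventuallyEq.1 hq)
  · filter_upwards [b.eventuallyEq_one] with q hq
    rw [hq, Pi.one_apply, one_smul]

/-- A map that is smooth near a compact set agrees there with a smooth map. -/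
theorem ext_smooth [T2Space M] [CompactSpace M] [IsManifold (𝓡 3) ∞ M] {F : Type*}
    [NormedAddCommGroup F] [NormedSpace ℝ F] {g : M → F} {K : Set M} (hK : IsCompact K)
    (hg : ∀ x ∈ K, ∀ᶠ y in 𝓝 x, ContMDiffAt (𝓡 3) 𝓘(ℝ, F) ∞ g y) :
    ∃ G : M → F, ContMDiff (𝓡 3) 𝓘(ℝ, F) ∞ G ∧ ∀ x ∈ K, G =ᶠ[𝓝 x] g := by
  let O : Set M := interior {y | ContMDiffAt (𝓡 3) 𝓘(ℝ, F) ∞ g y}
  have hKO : K ⊆ O := fun x hx => mem_interior_iff_mem_nhds.2 (hg x hx)
  obtain ⟨f, h0, h1, -⟩ := exists_contMDiffMap_zero_one_nhds_of_isClosed (𝓡 3) (n := ⊤)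
    (s := Oᶜ) isOpen_interior.isClosed_compl hK.isClosed (disjoint_compl_left_iff_subset.2 hKO)
  refine ⟨fun x => f x • g x, fun x => ?_, fun x hx => ?_⟩
  · by_cases hx : x ∈ O
    · have h2 : ContMDiffAt (𝓡 3) 𝓘(ℝ, F) ∞ g x := interior_subset hx
      exact (f.contMDiff x).smul h2
    · refine (contMDiffAt_const (c := (0 : F))).congr_of_eventuallyEq ?_
      filter_upwards [h0.filter_mono (nhds_le_nhdsSet hx)] with y hy
      rw [hy, zero_smul]
  · filter_upwards [h1.filter_mono (nhds_le_nhdsSet hx)] with y hy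
    rw [hy, one_smul]

/-- Finitely many closed balls in positive charts cover a compact manifold. -/
theorem exists_cover [CompactSpace M] [IsManifold (𝓡 3) ∞ M] (hM : OrientedAtlas M) :
    ∃ (n : ℕ) (c : Fin n → OpenPartialHomeomorph E3 M) (K : Fin n → Set E3),
      (∀ i, IsPChart (c i)) ∧ (∀ i, IsCompact (K i)) ∧ (∀ i, K i ⊆ (c i).source) ∧
        ∀ x, ∃ i, ∃ q ∈ K i, c i q = x := by
  have key : ∀ x : M, ∃ (c : OpenPartialHomeomorph E3 M) (K : Set E3), IsPChart c ∧ IsCompact K ∧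
      K ⊆ c.source ∧ c '' K ∈ 𝓝 x := fun x => by
    obtain ⟨c, q, hc, hq, rfl⟩ := exists_pc hM x
    obtain ⟨r, hr, hb⟩ := nhds_basis_closedBall.mem_iff.1 (c.open_source.mem_nhds hq)
    exact ⟨c, closedBall q r, hc, isCompact_closedBall q r, hb,
      c.image_mem_nhds hq (closedBall_mem_nhds q hr)⟩
  choose c K h1 h2 h3 h4 using key
  obtain ⟨t, ht⟩ := CompactSpace.elim_nhds_subcover (fun x => c x '' K x) h4
  refine ⟨t.card, fun i => c (t.equivFin.symm i), fun i => K (t.equivFin.symm i), fun i => h1 _,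
    fun i => h2 _, fun i => h3 _, fun x => ?_⟩
  have h5 : x ∈ ⋃ y ∈ t, c y '' K y := ht ▸ mem_univ x
  obtain ⟨y, hy, hx⟩ := mem_iUnion₂.1 h5
  refine ⟨t.equivFin ⟨y, hy⟩, ?_⟩
  simp only [Equiv.symm_apply_apply]
  exact hx

/-- Countably many smooth images of pieces of a plane have dense complement. -/
theorem dense_compl_surfaces_M [IsManifold (𝓡 3) ∞ M] (hM : OrientedAtlas M) {ι : Type*}
    [Countable ι] (g : ι → ℝ × ℝ → M) (s : ι → Set (ℝ × ℝ))
    (hg : ∀ i, ∀ p ∈ s i, ContMDiffAt 𝓘(ℝ, ℝ × ℝ) (𝓡 3) ∞ (g i) p) :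
    Dense (⋃ i, g i '' s i)ᶜ := by
  refine dense_iff_inter_open.2 fun U hU ⟨x, hx⟩ => ?_
  obtain ⟨c, q, hc, hq, rfl⟩ := exists_pc hM x
  have hd := dense_compl_surfaces (fun i p => c.symm (g i p)) (fun i => s i ∩ g i ⁻¹' c.target)
    fun i p hp => by
      have h1 := (pc_symm_at hc hp.2).comp p (hg i p hp.1)
      exact (contMDiffAt_iff_contDiffAt.1 h1).of_le (by simp)
  obtain ⟨q', hq', hn⟩ := hd.inter_open_nonempty (c.source ∩ c ⁻¹' U)
    (c.isOpen_inter_preimage hU) ⟨q, hq, hx⟩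
  refine ⟨c q', hq'.2, fun hm => hn ?_⟩
  obtain ⟨i, p, hp, he⟩ := mem_iUnion.1 hm
  refine mem_iUnion.2 ⟨i, p, ⟨hp, ?_⟩, ?_⟩
  · rw [mem_preimage, he]
    exact c.map_source hq'.1
  · simp only [he]
    exact c.left_inv hq'.1

end Pool.Agent.P.MP_ac4909_gt.B.H
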