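import Pool.Agent.P.MP_ac4909_gt.B.H.A3

/-! Layer H, tools 5: velocities and vector fields. -/

namespace Pool.Agent.P.MP_ac4909_gt.B.H

open scoped Manifold ContDiff Topology
open Set Metric Filter

variable {M N : Type*} [TopologicalSpace M] [ChartedSpace E3 M] [TopologicalSpace N]
  [ChartedSpace E3 N] {e : OpenPartialHomeomorph E3 M} {γ : ℝ → M} {v : E3} {t : ℝ}

theorem HasVel.continuousAt (h : HasVel γ v t) : ContinuousAt γ t :=
  HasMFDerivAt.continuousAt h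

theorem hasVel_E3 {γ : ℝ → E3} : HasVel γ v t ↔ HasDerivAt γ v t :=
  hasMFDerivAt_iff_hasFDerivAt.trans Iff.rfl

theorem HasVel.comp (h : HasVel γ v t) {g : M → N}
    (hg : MDifferentiableAt (𝓡 3) (𝓡 3) g (γ t)) :
    HasVel (fun s => g (γ s)) (jac g (γ t) v) t := by
  refine (hg.hasMFDerivAt.comp t h).congr_mfderiv (ContinuousLinearMap.ext fun r => ?_)
  exact (jac g (γ t)).map_smul (r : ℝ) v

theorem pc_hasVel (h : IsPChart e) {γ : ℝ → E3} (hγ : HasDerivAt γ v t) (ht : γ t ∈ e.source) :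
    HasVel (fun s => e (γ s)) (jac e (γ t) v) t :=
  (hasVel_E3.2 hγ).comp (pc_md h ht)

theorem HasVel.hasDerivAt_comp (h : HasVel γ v t) {f : M → ℝ}
    (hf : MDifferentiableAt (𝓡 3) 𝓘(ℝ, ℝ) f (γ t)) :
    HasDerivAt (fun s => f (γ s)) (df f (γ t) v) t := by
  refine hasDerivAt_iff_hasFDerivAt.2 (hasMFDerivAt_iff_hasFDerivAt.1
    ((hf.hasMFDerivAt.comp t h).congr_mfderiv (ContinuousLinearMap.ext fun r => ?_)))
  exact (df f (γ t)).map_smul (r : ℝ) v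

theorem HasVel.congr (h : HasVel γ v t) {γ' : ℝ → M} (h' : γ' =ᶠ[𝓝 t] γ) : HasVel γ' v t :=
  HasMFDerivAt.congr_of_eventuallyEq h h'

theorem RA5.repar {σ : ℝ → ℝ} {c : ℝ} (h : HasVel γ v (σ t)) (hσ : HasDerivAt σ c t) :
    HasVel (fun s => γ (σ s)) (c • v) t := by
  refine (HasMFDerivAt.comp t h (hasMFDerivAt_iff_hasFDerivAt.2 hσ.hasFDerivAt)).congr_mfderiv
    (ContinuousLinearMap.ext fun r => ?_)
  exact mul_smul (show ℝ from r) c v

theorem HasVel.comp_add {a : ℝ} (h : HasVel γ v (t + a)) : HasVel (fun s => γ (s + a)) v t := by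
  have h1 := RA5.repar (σ := fun s => s + a) h ((hasDerivAt_id t).add_const a)
  rwa [one_smul] at h1

theorem HasVel.comp_neg (h : HasVel γ v (-t)) : HasVel (fun s => γ (-s)) (-v) t := by
  have h1 := RA5.repar (σ := fun s => -s) h (hasDerivAt_neg t)
  rwa [neg_one_smul] at h1

theorem isMIntegralCurve_iff {ξ : M → E3} :
    IsMIntegralCurve (I := 𝓡 3) γ (fun x => ξ x) ↔ ∀ t, HasVel γ (ξ (γ t)) t :=
  Iff.rfl

theorem isMIntegralCurveOn_iff {ξ : M → E3} {s : Set ℝ} (hs : IsOpen s) :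
    IsMIntegralCurveOn (I := 𝓡 3) γ (fun x => ξ x) s ↔ ∀ t ∈ s, HasVel γ (ξ (γ t)) t :=
  forall₂_congr fun _ ht =>
    ⟨fun h => h.hasMFDerivAt (hs.mem_nhds ht), fun h => HasMFDerivAt.hasMFDerivWithinAt h⟩

variable [IsManifold (𝓡 3) ∞ M]

theorem RA5.tan [IsManifold (𝓡 3) ∞ N] {f : M → N} {s : Set M} (hs : IsOpen s)
    (hf : ContMDiffOn (𝓡 3) (𝓡 3) ∞ f s) :
    ContMDiffOn (𝓡 3).tangent (𝓡 3).tangent ∞
      (fun p : TM M => (⟨f p.1, jac f p.1 p.2⟩ : TM N)) {p | p.1 ∈ s} := by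
  refine (hf.contMDiffOn_tangentMapWithin (m := ∞) le_rfl hs.uniqueMDiffOn).congr fun p hp => ?_
  exact (tangentMapWithin_eq_tangentMap (hs.uniqueMDiffOn _ hp)
    ((hf.contMDiffAt (hs.mem_nhds hp)).mdifferentiableAt (by simp))).symm

/-- A smooth field in a chart gives a smooth field on the manifold. -/
theorem pc_push (h : IsPChart e) {Y : E3 → E3} {W : Set E3} (hW : IsOpen W) (hs : W ⊆ e.source)
    (hY : ContDiffOn ℝ ∞ Y W) :
    SVFOn (fun x => jac e (e.symm x) (Y (e.symm x))) (e '' W) := by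
  have h1 : e '' W ⊆ e.target := by
    rintro _ ⟨q, hq, rfl⟩
    exact e.map_source (hs hq)
  have h2 : MapsTo e.symm (e '' W) W := by
    rintro _ ⟨q, hq, rfl⟩
    rwa [e.left_inv (hs hq)]
  have h3 := (contMDiffOn_vectorSpace_iff_contDiffOn.2 hY).comp (h.smooth_symm.mono h1) h2
  refine ((RA5.tan e.open_source h.smooth).comp h3 fun x hx => hs (h2 hx)).congr fun x hx => ?_
  exact Bundle.TotalSpace.ext (e.right_inv (h1 hx)).symm HEq.rfl

/-- A smooth field on the manifold is smooth in a chart. -/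
theorem pc_pull (h : IsPChart e) {ξ : M → E3} (hξ : SVF ξ) :
    ContDiffOn ℝ ∞ (fun q => jac e.symm (e q) (ξ (e q))) e.source := by
  have h1 := (RA5.tan e.open_target h.smooth_symm).comp (hξ.comp_contMDiffOn h.smooth)
    fun q hq => e.map_source hq
  exact ((contMDiff_snd_tangentBundle_modelSpace E3 (𝓡 3)).comp_contMDiffOn h1).contDiffOn

theorem SVF.on {ξ : M → E3} (h : SVF ξ) (s : Set M) : SVFOn ξ s :=
  ContMDiff.contMDiffOn h

theorem SVFOn.mono {ξ : M → E3} {s s' : Set M} (h : SVFOn ξ s) (hs : s' ⊆ s) : SVFOn ξ s' :=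
  ContMDiffOn.mono h hs

theorem SVF.of_local {ξ : M → E3}
    (h : ∀ x, ∃ (ζ : M → E3) (O : Set M), IsOpen O ∧ x ∈ O ∧ SVFOn ζ O ∧ EqOn ξ ζ O) :
    SVF ξ :=
  fun x => by
  obtain ⟨ζ, O, h1, h2, h3, h4⟩ := h x
  exact (ContMDiffOn.congr h3 fun y hy => by rw [h4 hy]).contMDiffAt (h1.mem_nhds h2)

theorem SVF.one {ξ : M → E3} (h : SVF ξ) : ContMDiff (𝓡 3) (𝓡 3).tangent 1
    fun x => (⟨x, ξ x⟩ : TangentBundle (𝓡 3) M) :=
  ContMDiff.of_le h (by simp)

/-- Gluing local fields under convex conditions. -/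
theorem exists_svf_of_local [T2Space M] [CompactSpace M] (c : M → Set E3)
    (hc : ∀ x, Convex ℝ (c x))
    (loc : ∀ x, ∃ U ∈ 𝓝 x, ∃ ζ : M → E3, SVFOn ζ U ∧ ∀ y ∈ U, ζ y ∈ c y) :
    ∃ ξ : M → E3, SVF ξ ∧ ∀ x, ξ x ∈ c x := by
  obtain ⟨s, hs⟩ := exists_contMDiffSection_forall_mem_convex_of_local (n := ⊤) (𝓡 3)
    (F_fiber := E3) (TangentSpace (𝓡 3) : M → Type _) c hc loc
  exact ⟨s, s.contMDiff, hs⟩

theorem Flows.rev {κ : Type} {V : VD M κ} {F : FL M κ} (h : Flows V F) : Flows V.rev F.rev :=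
  ⟨congrArg CD.rev h.cd, congrArg (fun g : M → ℝ => fun x => -g x) h.f,
    fun x t => (h.vel x (-t)).comp_neg⟩

theorem Flows.c {κ : Type} {V : VD M κ} {F : FL M κ} (h : Flows V F) : F.c = V.c :=
  congrArg CD.c h.cd

theorem Flows.a {κ : Type} {V : VD M κ} {F : FL M κ} (h : Flows V F) : F.a = V.a :=
  congrArg CD.a h.cd

theorem Flows.b {κ : Type} {V : VD M κ} {F : FL M κ} (h : Flows V F) : F.b = V.b :=
  congrArg CD.b h.cd

end Pool.Agent.P.MP_ac4909_gt.B.H
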