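import Pool.Agent.P.MP_ac4909_gt.B.H.S
import Pool.Agent.P.MP_ac4909_gt.B.H.A4
import Pool.Agent.P.MP_ac4909_gt.B.H.A5
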