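import Pool.Agent.P.MP_ac4909_gt.B.H.API

/-! CRIT: f, c, q₀ from MORSE; pc_df_eq_zero_iff, pc_contDiffOn, QUAD with V = c.source gives L a b; pc_affine with W = ball 0 1 gives c'; df f (c' q) (jac c' q v) = fderiv (f ∘ c) (q₀ + L q) (L v) (pc_fderiv_real).
MKCD: Z = {x | df f x = 0} is closed (isOpen_df_ne), so compact; the target of the chart at x ∈ Z meets Z only in x (the inequality gives df f (c q) ≠ 0), so Z is finite (IsCompact.elim_nhds_subcover, or IsCompact.finite).
Set.Finite.t2_separation gives disjoint open U x; choose r x ≤ 1 with c x '' ball 0 (r x) ⊆ U x; pc_scale, lin_smul (jac c' q (lin q) = jac c (r • q) (lin (r • q))). κ = Fin n through Finite.equivFin (M lives in any universe). -/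

namespace Pool.Agent.P.MP_ac4909_gt.B.H

open scoped Manifold ContDiff Topology RealInnerProductSpace
open Set Metric Filter

noncomputable section

namespace RCRIT

/-- A linear model can be shrunk into any neighbourhood of its centre. -/
theorem shrink {M : Type*} [TopologicalSpace M] [ChartedSpace E3 M] {f : M → ℝ}
    {c : OpenPartialHomeomorph E3 M} {a b : ℝ} (hc : IsPChart c) (hs : c.source = ball 0 1)
    (hd : ∀ q ∈ ball (0 : E3) 1, q ≠ 0 → df f (c q) (jac c q (lin a b q)) < 0) {U : Set M}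
    (hU : U ∈ 𝓝 (c 0)) : ∃ c' : OpenPartialHomeomorph E3 M, IsPChart c' ∧ c'.source = ball 0 1 ∧
      c' 0 = c 0 ∧ c'.target ⊆ U ∧
      ∀ q ∈ ball (0 : E3) 1, q ≠ 0 → df f (c' q) (jac c' q (lin a b q)) < 0 := by
  obtain ⟨r, hr, h1⟩ := Metric.mem_nhds_iff.1
    ((c.continuousAt (hs ▸ mem_ball_self one_pos)).preimage_mem_nhds hU)
  have h2 : 0 < min r 1 := lt_min hr one_pos
  obtain ⟨c', hc', hs', he, ht, hj⟩ := pc_scale hc hs h2 (min_le_right r 1)
  refine ⟨c', hc', hs', by rw [he, smul_zero], ?_, fun q hq h0 => ?_⟩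
  · rw [ht, image_subset_iff]
    exact (ball_subset_ball (min_le_left r 1)).trans h1
  · rw [hj q hq, he, ← lin_smul]
    refine hd _ ?_ (smul_ne_zero h2.ne' h0)
    rw [mem_ball_zero_iff] at hq ⊢
    rw [norm_smul, Real.norm_of_nonneg h2.le]
    exact (mul_le_of_le_one_left (norm_nonneg _) (min_le_right r 1)).trans_lt hq

end RCRIT

theorem crit_of (M : Type*) [TopologicalSpace M] [T2Space M] [CompactSpace M] [ChartedSpace E3 M]
    [IsManifold (𝓡 3) ∞ M] (hM : OrientedAtlas M)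
    (hQ : S_QUAD) (hF : S_MORSE M) : S_CRIT M := by
  obtain ⟨f, hf, h⟩ := hF
  refine ⟨f, hf, fun x hx => ?_⟩
  obtain ⟨c, q₀, hc, hq, rfl, hi⟩ := h x
  have md : ∀ y, MDifferentiableAt (𝓡 3) 𝓘(ℝ, ℝ) f y := fun y => hf.mdifferentiableAt (by simp)
  have h0 := (pc_df_eq_zero_iff hc hq (md _)).1 hx
  obtain ⟨L, a, b, ha, hb, hL, hm, hd⟩ :=
    hQ (f ∘ c) c.source q₀ c.open_source hq (pc_contDiffOn hc hf) h0 (hi h0)
  obtain ⟨c', hc', hs, he, hj⟩ := pc_affine hc q₀ L hL isOpen_ball hm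
  refine ⟨c', a, b, hc', hs, by rw [he, map_zero, add_zero], ha, hb, fun q hq1 hq0 => ?_⟩
  have h1 := hd q hq1 hq0
  rw [pc_fderiv_real hc (hm hq1) (md _)] at h1
  rw [hj q hq1, he]
  exact h1

theorem mkcd_of (M : Type*) [TopologicalSpace M] [T2Space M] [CompactSpace M] [ChartedSpace E3 M]
    [IsManifold (𝓡 3) ∞ M] (hM : OrientedAtlas M)
    (hC : S_CRIT M) : S_MKCD M := by
  obtain ⟨f, hf, h⟩ := hC
  choose c a b hc hs h0 ha hb hd using h
  have hK : IsCompact {x | df f x = 0} := by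
    have h1 := (isOpen_df_ne hM hf).isClosed_compl
    simp only [ne_eq, compl_ofPred, not_not] at h1
    exact h1.isCompact
  have hZ : {x | df f x = 0}.Finite := by
    obtain ⟨t, ht⟩ := hK.elim_nhds_subcover' (fun x hx => (c x hx).target) fun x hx =>
      (c x hx).open_target.mem_nhds (mem_of_eq_of_mem (h0 x hx).symm
        ((c x hx).map_source (hs x hx ▸ mem_ball_self one_pos)))
    refine (t.finite_toSet.image Subtype.val).subset fun y hy => ?_
    obtain ⟨x, hx, h1⟩ := mem_iUnion₂.1 (ht hy)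
    refine ⟨x, hx, by_contra fun hne => ?_⟩
    have h2 := (c x x.2).right_inv h1
    have h3 := hd x x.2 _ (hs x x.2 ▸ (c x x.2).map_target h1) fun e =>
      hne (by rw [← h2, e, h0])
    rw [h2, show df f y = 0 from hy] at h3
    exact lt_irrefl _ h3
  obtain ⟨U, hU, hUd⟩ := hZ.t2_separation
  have h1 := fun x hx => RCRIT.shrink (hc x hx) (hs x hx) (hd x hx) (U := U x)
    ((hU x).2.mem_nhds ((h0 x hx).symm ▸ (hU x).1))
  choose c' hc' hs' h0' ht' hd' using h1
  have := hZ.to_subtype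
  let e := (Finite.equivFin {x | df f x = 0}).symm
  refine ⟨_, inferInstance, ⟨fun k => c' (e k) (e k).2, fun k => a (e k) (e k).2,
    fun k => b (e k) (e k).2, fun k => hc' _ _, fun k => hs' _ _, fun k => ha _ _, fun k => hb _ _,
    fun k k' hk => ?_⟩, f, hf, fun x hx h2 => ?_, fun k => hd' _ _⟩
  · exact (hUd (e k).2 (e k').2 fun h2 => hk (e.injective (Subtype.ext h2))).mono (ht' _ _)
      (ht' _ _)
  · refine hx (e.symm ⟨x, h2⟩) ?_
    change x = c' _ _ 0
    rw [h0', h0, Equiv.apply_symm_apply]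

end

end Pool.Agent.P.MP_ac4909_gt.B.H
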