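import Pool.Agent.P.MP_ac4909_gt.B.H.API

/-! FLOW: LMF and compactness give ε > 0 such that every x₀ has U, ψ for the time ε (finite subcover, minimum). exists_isMIntegralCurve_of_isMIntegralCurveOn (SVF.one, isMIntegralCurveOn_iff) gives global curves; Φ t x = γ x t.
Group law: isMIntegralCurve_eq_of_contMDiff (or isMIntegralCurve_Ioo_eq_of_contMDiff_boundaryless) with IsMIntegralCurve.comp_add. On Ioo (-ε) ε ×ˢ U, Φ = ψ (isMIntegralCurveOn_Ioo_eqOn_of_contMDiff_boundaryless), so Φ is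
ContMDiffAt at all (t,x), |t| < ε. Induction: smooth at all (t,x) with |t| < r implies the same for 2r because Φ t x = Φ (t/2) (Φ (t/2) x); r = 2^n ε.
UNIQ: for s ≠ t let u₀ be the midpoint; γ and u ↦ Φ (u - u₀) (γ u₀) are integral curves on uIoo s t (HasVel.comp_add), equal there, so equal on the closure by continuity (Set.EqOn.of_subset_closure); group law. -/

namespace Pool.Agent.P.MP_ac4909_gt.B.H

open scoped Manifold ContDiff Topology RealInnerProductSpace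
open Set Metric Filter

noncomputable section

namespace RFLOW

theorem uq {M : Type*} [TopologicalSpace M] [T2Space M] [ChartedSpace E3 M]
    [IsManifold (𝓡 3) ∞ M] {ξ : M → E3} (hξ : SVF ξ) {γ γ' : ℝ → M} {a b t₀ : ℝ}
    (ht : t₀ ∈ Ioo a b) (h : ∀ t ∈ Ioo a b, HasVel γ (ξ (γ t)) t)
    (h' : ∀ t ∈ Ioo a b, HasVel γ' (ξ (γ' t)) t) (e : γ t₀ = γ' t₀) : EqOn γ γ' (Ioo a b) :=
  isMIntegralCurveOn_Ioo_eqOn_of_contMDiff_boundaryless (I := 𝓡 3) (v := fun x => ξ x) ht hξ.one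
    ((isMIntegralCurveOn_iff isOpen_Ioo).2 h) ((isMIntegralCurveOn_iff isOpen_Ioo).2 h') e

end RFLOW

theorem flow_of (M : Type*) [TopologicalSpace M] [T2Space M] [CompactSpace M] [ChartedSpace E3 M]
    [IsManifold (𝓡 3) ∞ M] (hM : OrientedAtlas M)
    (hL : S_LMF M) : S_FLOW M := by
  intro ξ hξ
  choose ε U ψ hε hU hx hs hψ using hL ξ hξ
  obtain ⟨T, hT⟩ := isCompact_univ.elim_finite_subcover U hU fun x _ => mem_iUnion.2 ⟨x, hx x⟩
  obtain ⟨δ, hδ', hδ⟩ : ∃ δ : ℝ, (∀ i ∈ T, δ ≤ ε i) ∧ 0 < δ := by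
    have h1 : ∀ᶠ δ in 𝓝[>] (0 : ℝ), ∀ i ∈ T, δ ≤ ε i :=
      T.eventually_all.2 fun i _ => mem_nhdsWithin_of_mem_nhds (Iic_mem_nhds (hε i))
    exact (h1.and self_mem_nhdsWithin).exists
  have hc : ∀ x, ∃ i, Ioo (-δ) δ ⊆ Ioo (-ε i) (ε i) ∧ x ∈ U i := fun x => by
    obtain ⟨i, hi, h⟩ := mem_iUnion₂.1 (hT (mem_univ x))
    exact ⟨i, Ioo_subset_Ioo (neg_le_neg (hδ' i hi)) (hδ' i hi), h⟩
  choose γ h0 hγ using exists_isMIntegralCurve_of_isMIntegralCurveOn (I := 𝓡 3)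
    (v := fun x => ξ x) hξ.one hδ fun x => by
      obtain ⟨i, hi, h⟩ := hc x
      exact ⟨fun s => ψ i (s, x), (hψ i x h).1,
        (isMIntegralCurveOn_iff isOpen_Ioo).2 fun t ht => (hψ i x h).2 t (hi ht)⟩
  have hv : ∀ x t, HasVel (γ x) (ξ (γ x t)) t := fun x => isMIntegralCurve_iff.1 (hγ x)
  have hadd : ∀ s t x, γ x (s + t) = γ (γ x t) s := fun s t x =>
    congrFun (isMIntegralCurve_Ioo_eq_of_contMDiff_boundaryless (t₀ := 0) hξ.one
      ((hγ x).comp_add t) (hγ (γ x t)) (by simp [h0])) s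
  have hind : ∀ (n : ℕ) (p : ℝ × M), |p.1| < 2 ^ n * δ →
      ContMDiffAt (𝓘(ℝ, ℝ).prod (𝓡 3)) (𝓡 3) ∞ (fun p : ℝ × M => γ p.2 p.1) p := by
    intro n
    induction n with
    | zero =>
      intro p hp
      obtain ⟨i, hi, h⟩ := hc p.2
      have hn : Ioo (-ε i) (ε i) ×ˢ U i ∈ 𝓝 p :=
        (isOpen_Ioo.prod (hU i)).mem_nhds ⟨hi (abs_lt.1 (by simpa using hp)), h⟩
      refine ((hs i).contMDiffAt hn).congr_of_eventuallyEq ?_
      filter_upwards [hn] with q hq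
      exact RFLOW.uq hξ (t₀ := 0) ⟨neg_lt_zero.2 (hε i), hε i⟩ (fun t _ => hv q.2 t)
        (hψ i q.2 hq.2).2 ((h0 q.2).trans (hψ i q.2 hq.2).1.symm) hq.1
    | succ n ih =>
      intro p hp
      have h1 : |p.1 / 2| < 2 ^ n * δ := by
        rw [abs_div, abs_two, pow_succ] at *
        linarith
      have h2 : ContMDiff (𝓘(ℝ, ℝ).prod (𝓡 3)) 𝓘(ℝ, ℝ) ∞ fun p : ℝ × M => p.1 / 2 :=
        (contDiff_id.div_const 2).contMDiff.comp contMDiff_fst
      have h3 := (ih (p.1 / 2, p.2) h1).comp p (h2.prodMk contMDiff_snd p)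
      have h4 := (ih (p.1 / 2, γ p.2 (p.1 / 2)) h1).comp p ((h2 p).prodMk h3)
      refine h4.congr_of_eventuallyEq (Eventually.of_forall fun q => ?_)
      exact (congrArg (γ q.2) (add_halves q.1).symm).trans (hadd _ _ _)
  refine ⟨fun t x => γ x t, fun p => ?_, h0, hadd, hv⟩
  obtain ⟨n, hn⟩ := pow_unbounded_of_one_lt (|p.1| / δ) (one_lt_two : (1 : ℝ) < 2)
  exact hind n p ((div_lt_iff₀ hδ).1 hn)

theorem uniq_of (M : Type*) [TopologicalSpace M] [T2Space M] [CompactSpace M] [ChartedSpace E3 M]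
    [IsManifold (𝓡 3) ∞ M] (hM : OrientedAtlas M) : S_UNIQ M := by
  intro ξ Φ hξ hΦ hv γ s t hc hγ
  rcases eq_or_ne s t with rfl | hst
  · rw [sub_self, hΦ.zero]
  have hlt : min s t < max s t := min_lt_max.2 hst
  obtain ⟨u, hu⟩ := nonempty_Ioo.2 hlt
  have h1 : EqOn γ (fun r => Φ (r + -u) (γ u)) (Ioo (min s t) (max s t)) :=
    RFLOW.uq hξ hu hγ (fun r _ => (hv (γ u) (r + -u)).comp_add) (by simp [hΦ.zero])
  have h2 : EqOn γ (fun r => Φ (r + -u) (γ u)) (uIcc s t) :=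
    h1.of_subset_closure hc
      ((hΦ.continuous_time (γ u)).comp (continuous_add_const (-u))).continuousOn
      Ioo_subset_Icc_self (by rw [closure_Ioo hlt.ne]; exact Subset.rfl)
  rw [h2 left_mem_uIcc, h2 right_mem_uIcc]
  simp only [← hΦ.add]
  congr 1
  ring

end

end Pool.Agent.P.MP_ac4909_gt.B.H
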