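import Pool.Agent.P.MP_ac4909_gt.B.H.API

/-! GEN: TUBE gives δ, m; SHEAR gives ρ (tube δ σ is compact by isCompact_cyl and lies in ball 0 1 minus ball 0 (1/3)); GENV gives ε; SHEAR η; DENSE gives u with rad u < min η δ and Src (c k u); SHEAR w, γ, T; GENV V'; MKFL F'.
Lemma: if Φ r y ∉ c k '' tube for all r ∈ uIcc 0 t then Φ' t y = Φ t y (UNIQ for V'.ξ, Φ' and the curve r ↦ Φ r y). For t ≤ 0, f (Φ t (c k u)) ≥ f (c k u) > m, so Φ' t (c k u) = Φ t (c k u) → c v 0 = F'.c v 0 (v ≠ k as b v = 1).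
c k ∘ γ is an integral curve of V'.ξ (pc_hasVel), so F'.c k (ax (σ/2)) = c k (ax (σ/6)) = Φ' T (c k u) (smul_ax); FL.Src_flow. Other good ends: the whole orbit misses the tube; for k' = k the new point c k (ax (σ'/6)) = Φ (log 3) (c k (ax (σ'/2))) is on it.
For the reversed ends use FL.rev_Src_iff (k' ≠ k, sink v ≠ k). Flows.c, Flows.a, Flows.b.
ALL: Lemma: for a Finset s of pairs (k, σ) there are V', F' with Flows V' F', same a and b, all old good ends (of F and of F.rev) still good and all ends in s of type (1,-1) good (Finset induction, GEN); take s = univ ×ˢ {1,-1}.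
Apply it to (V,F), then to the reverse (Flows.rev, FL.rev_rev_Good). -/

namespace Pool.Agent.P.MP_ac4909_gt.B.H

open scoped Manifold ContDiff Topology RealInnerProductSpace
open Set Metric Filter

noncomputable section

namespace RGEN

theorem tube_sub {δ σ : ℝ} (hδ : δ ≤ 1 / 10) (hσ : σ = 1 ∨ σ = -1) {q : E3} (hq : q ∈ tube δ σ) :
    q ∈ ball (0 : E3) 1 \ ball 0 (1 / 3) ∧ q 2 ∈ Icc (-1 : ℝ) 1 := by
  obtain ⟨h1, h2, h3⟩ := hq
  have h4 : 1 / 3 ≤ |q 2| ∧ |q 2| ≤ 1 / 2 := by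
    rcases hσ with rfl | rfl
    · rw [abs_of_nonneg (by linarith)]
      constructor <;> linarith
    · rw [abs_of_nonpos (by linarith)]
      constructor <;> linarith
  have h5 := norm_le_rad_add q
  have h6 := abs_two_le_norm q
  refine ⟨⟨mem_ball_zero_iff.2 (by linarith [h4.2]), fun h => ?_⟩, abs_le.1 (by linarith [h4.2])⟩
  linarith [mem_ball_zero_iff.1 h, h4.1]

theorem ax_mem {σ c : ℝ} (hσ : σ = 1 ∨ σ = -1) (hc : 1 < c) : ax (σ / c) ∈ ball (0 : E3) 1 := by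
  rw [mem_ball_zero_iff, norm_ax, abs_div, abs_of_pos (show 0 < c by linarith),
    div_lt_one (by linarith)]
  rcases hσ with rfl | rfl <;> simpa using hc

theorem sad_log (σ : ℝ) : sad (Real.log 3) (ax (σ / 2)) = ax (σ / 6) := by
  rw [sad_ax, Real.exp_neg, Real.exp_log (by norm_num)]
  congr 1
  ring

variable {M : Type*} [TopologicalSpace M] [ChartedSpace E3 M] [IsManifold (𝓡 3) ∞ M]

theorem repair (hG : S_GEN M) {κ : Type} [Fintype κ] {V : VD M κ} {F : FL M κ} (h : Flows V F)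
    (s : Finset (κ × ℝ)) : ∃ (V' : VD M κ) (F' : FL M κ), Flows V' F' ∧ F'.a = F.a ∧ F'.b = F.b ∧
      (∀ k (σ : ℝ), F.a k = 1 → F.b k = -1 → σ = 1 ∨ σ = -1 → (k, σ) ∈ s → F'.Good k σ) ∧
      ∀ k (σ : ℝ), F.a k = -1 → F.b k = 1 → σ = 1 ∨ σ = -1 → F.rev.Good k σ →
        F'.rev.Good k σ := by
  classical
  induction s using Finset.induction_on with
  | empty => exact ⟨V, F, h, rfl, rfl, fun _ _ _ _ _ hs => by simp at hs, fun _ _ _ _ _ hs => hs⟩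
  | insert p s _ ih =>
    obtain ⟨V₁, F₁, h₁, a₁, b₁, g₁, r₁⟩ := ih
    obtain ⟨k₀, σ₀⟩ := p
    by_cases hp : F.a k₀ = 1 ∧ F.b k₀ = -1 ∧ (σ₀ = 1 ∨ σ₀ = -1) ∧ ¬F₁.Good k₀ σ₀
    · obtain ⟨V₂, F₂, h₂, a₂, b₂, g₀, g₂, r₂⟩ :=
        hG κ V₁ F₁ k₀ σ₀ h₁ (a₁ ▸ hp.1) (b₁ ▸ hp.2.1) hp.2.2.1 hp.2.2.2
      refine ⟨V₂, F₂, h₂, a₂.trans a₁, b₂.trans b₁, fun k σ ha hb hσ hs => ?_,
        fun k σ ha hb hσ hg => r₂ k σ (a₁ ▸ ha) (b₁ ▸ hb) hσ (r₁ k σ ha hb hσ hg)⟩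
      rcases Finset.mem_insert.1 hs with e | hs
      · obtain ⟨rfl, rfl⟩ := Prod.mk.inj e
        exact g₀
      · exact g₂ k σ (a₁ ▸ ha) (b₁ ▸ hb) hσ (g₁ k σ ha hb hσ hs)
    · refine ⟨V₁, F₁, h₁, a₁, b₁, fun k σ ha hb hσ hs => ?_, r₁⟩
      rcases Finset.mem_insert.1 hs with e | hs
      · obtain ⟨rfl, rfl⟩ := Prod.mk.inj e
        by_contra hn
        exact hp ⟨ha, hb, hσ, hn⟩
      · exact g₁ k σ ha hb hσ hs

theorem repair_all (hG : S_GEN M) {κ : Type} [Fintype κ] {V : VD M κ} {F : FL M κ}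
    (h : Flows V F) : ∃ (V' : VD M κ) (F' : FL M κ), Flows V' F' ∧ F'.AllGood ∧
      (F.rev.AllGood → F'.rev.AllGood) := by
  classical
  obtain ⟨V', F', h', a, b, g, r⟩ := repair hG h (Finset.univ ×ˢ {1, -1})
  refine ⟨V', F', h', fun k σ ha hb hσ => g k σ (a ▸ ha) (b ▸ hb) hσ (by simpa using hσ),
    fun hr k σ ha hb hσ => ?_⟩
  rw [FL.rev_a, a] at ha
  rw [FL.rev_b, b] at hb
  exact r k σ (by linarith) (by linarith) hσ (hr k σ ha hb hσ)

end RGEN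

theorem gen_of (M : Type*) [TopologicalSpace M] [T2Space M] [CompactSpace M] [ChartedSpace E3 M]
    [IsManifold (𝓡 3) ∞ M] (hM : OrientedAtlas M)
    (hT : S_TUBE M) (hS : S_SHEAR) (hV : S_GENV M) (hF : S_MKFL M) (hU : S_UNIQ M)
    (hD : S_DENSE M) : S_GEN M := by
  intro κ _ V F k σ hVF ha hb hσ hbad
  obtain ⟨δ, m, δ0, δ1, hlow, hhigh, hmiss, hmiss'⟩ := hT κ F k σ ha hb hσ hbad
  obtain ⟨ρ, hρ, hsupp, hsh⟩ := hS δ σ δ0 δ1 hσ
  obtain ⟨ε, ε0, hε⟩ := hV κ V k ρ hρ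
    ((isCompact_cyl δ (-1) 1).of_isClosed_subset (isClosed_tsupport ρ)
      fun q hq => ⟨(hsupp hq).1, (RGEN.tube_sub δ1 hσ (hsupp hq)).2⟩)
    fun q hq => (RGEN.tube_sub δ1 hσ (hsupp hq)).1
  obtain ⟨η, η0, hη⟩ := hsh ε ε0
  obtain ⟨u, hu2, hur, husrc⟩ := (hD κ F).2 k σ (min η δ) ha hb hσ (lt_min η0 δ0)
  obtain ⟨w, γ, T, hw, T0, γ0, γT, hγ⟩ := hη u hu2 (hur.trans_le (min_le_left _ _))
  obtain ⟨V', -, ha', hb', hc', hck, hξ, hξ'⟩ := hε w hw
  obtain ⟨F', hVF'⟩ := hF κ V'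
  have ea : F'.a = F.a := by rw [hVF'.a, ha', hVF.a]
  have eb : F'.b = F.b := by rw [hVF'.b, hb', hVF.b]
  have ec : ∀ k', k' ≠ k → F'.c k' = F.c k' := fun k' h => by rw [hVF'.c, hc' k' h, hVF.c]
  have ek : ∀ σ' : ℝ, F'.c k (ax (σ' / 2)) = F.c k (ax (σ' / 6)) := fun σ' => by
    rw [hVF'.c, hck, hVF.c, smul_ax]
    congr 2
    ring
  have key : ∀ (y : M) (t : ℝ), (∀ r ∈ uIcc 0 t, F.Φ r y ∉ F.c k '' tube δ σ) →
      F'.Φ t y = F.Φ t y := by
    intro y t h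
    have := hU V'.ξ F'.Φ V'.ξ_smooth F'.flow hVF'.vel (fun r => F.Φ r y) 0 t
      (F.flow.continuous_time y).continuousOn fun r hr => by
        rw [hξ' _ fun hm => h r (uIoo_subset_uIcc_self hr) (hVF.c ▸ image_mono hsupp hm)]
        exact hVF.vel y r
    rw [sub_zero, F.flow.zero] at this
    exact this.symm
  have src : ∀ y : M, (∀ t ≤ 0, F.Φ t y ∉ F.c k '' tube δ σ) → F.Src y → F'.Src y := by
    rintro y h ⟨v, h1, h2, h3⟩
    have hv : v ≠ k := by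
      rintro rfl
      linarith
    refine ⟨v, ea ▸ h1, eb ▸ h2, ?_⟩
    rw [ec v hv]
    refine h3.congr' ?_
    filter_upwards [eventually_le_atBot 0] with t ht
    exact (key y t fun r hr => h r ((uIcc_of_ge ht ▸ hr).2)).symm
  refine ⟨V', F', hVF', ea, eb, ?_, fun k' σ' h1 h2 h3 h4 => ?_, fun k' σ' h1 h2 h3 h4 => ?_⟩
  · have h1 : F'.Src (F.c k u) := by
      refine src _ (fun t ht => ?_) husrc
      rintro ⟨q, hq, e⟩
      have a1 := hlow q hq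
      have a2 := hhigh u hu2 (hur.trans_le (min_le_right _ _))
      have a3 := F.le_of_nonpos (F.c k u) ht
      rw [← e] at a3
      linarith
    have h2 := hU V'.ξ F'.Φ V'.ξ_smooth F'.flow hVF'.vel (fun r => V.c k (γ r)) 0 T
      (by
        rw [uIcc_of_le T0]
        exact fun r hr => ((V.continuousAt k (hγ r hr).1).comp
          (hγ r hr).2.continuousAt).continuousWithinAt)
      fun r hr => by
        have hr' := hγ r (uIcc_of_le T0 ▸ uIoo_subset_uIcc_self hr)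
        rw [hξ _ hr'.1, ← hVF.a, ← hVF.b, ha, hb]
        exact pc_hasVel (V.chart k) hr'.2 (V.source k ▸ hr'.1)
    rw [sub_zero, γ0, γT, ← hVF.c] at h2
    unfold FL.Good
    rw [ek, h2, FL.Src_flow]
    exact h1
  · unfold FL.Good at h4 ⊢
    by_cases hk : k' = k
    · subst hk
      have e := F.conj_sad h1 h2 (t := Real.log 3) (RGEN.ax_mem h3 one_lt_two)
        (RGEN.sad_log σ' ▸ RGEN.ax_mem h3 (by norm_num))
      rw [RGEN.sad_log] at e
      rw [ek, ← e]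
      refine src _ (fun t _ => ?_) ((F.Src_flow _ _).2 h4)
      rw [← F.flow.add]
      exact hmiss k' σ' _ h1 h2 h3 h4
    · rw [ec k' hk]
      exact src _ (fun t _ => hmiss k' σ' t h1 h2 h3 h4) h4
  · have hk : k' ≠ k := by
      rintro rfl
      linarith
    have h5 := fun t => hmiss' k' σ' t h1 h2 h3 h4
    unfold FL.Good at h4 ⊢
    rw [FL.rev_c, FL.rev_Src_iff] at h4 ⊢
    obtain ⟨v, a1, a2, a3⟩ := h4
    have hv : v ≠ k := by
      rintro rfl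
      linarith
    refine ⟨v, ea ▸ a1, eb ▸ a2, ?_⟩
    rw [ec v hv, ec k' hk]
    exact a3.congr fun t => (key _ t fun r _ => h5 r).symm

theorem all_of (M : Type*) [TopologicalSpace M] [T2Space M] [CompactSpace M] [ChartedSpace E3 M]
    [IsManifold (𝓡 3) ∞ M] (hM : OrientedAtlas M)
    (hG : S_GEN M) : S_ALL M := by
  intro κ _ V F h
  obtain ⟨V₁, F₁, h₁, g₁, -⟩ := RGEN.repair_all hG h
  obtain ⟨V₂, F₂, -, g₂, r₂⟩ := RGEN.repair_all hG h₁.rev
  refine ⟨F₂.rev, r₂ fun k σ ha hb hσ => ?_, fun k σ ha hb hσ => ?_⟩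
  · exact (F₁.rev_rev_Good k σ).2 (g₁ k σ (by simpa using ha) (by simpa using hb) hσ)
  · exact (F₂.rev_rev_Good k σ).2 (g₂ k σ (by simpa using ha) (by simpa using hb) hσ)

end

end Pool.Agent.P.MP_ac4909_gt.B.H
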