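import Pool.Agent.P.MP_ac4909_gt.B.H.API

/-! A small perturbation of a gradient-like field inside a chart, away from the zero. -/

namespace Pool.Agent.P.MP_ac4909_gt.B.H

open scoped Manifold ContDiff Topology RealInnerProductSpace
open Set Metric Filter

noncomputable section

namespace RGENV

variable {M : Type*} [TopologicalSpace M] [ChartedSpace E3 M] [IsManifold (𝓡 3) ∞ M] {κ : Type}

/-- The function still decreases along small perturbations. -/
theorem small (V : VD M κ) (k : κ) {ρ : E3 → ℝ} (hρ : Continuous ρ) {K : Set E3}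
    (hK : IsCompact K) (hs : K ⊆ ball 0 1 \ ball 0 (1 / 3)) : ∃ ε : ℝ, 0 < ε ∧ ∀ w : E3, ‖w‖ < ε →
      ∀ q ∈ K, df V.f (V.c k q) (jac (V.c k) q (lin (V.a k) (V.b k) q + ρ q • w)) < 0 := by
  have hd : ∀ q ∈ ball (0 : E3) 1, ∀ v,
      fderiv ℝ (V.f ∘ V.c k) q v = df V.f (V.c k q) (jac (V.c k) q v) := fun q hq v => by
    rw [pc_fderiv_real (V.chart k) (V.source k ▸ hq) (V.f_smooth.mdifferentiableAt (by simp))]
    rfl
  have hc : ContinuousOn (fderiv ℝ (V.f ∘ V.c k)) (ball 0 1) := by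
    have := (pc_contDiffOn (V.chart k) V.f_smooth).continuousOn_fderiv_of_isOpen
      (V.c k).open_source (by simp)
    rwa [V.source] at this
  have key := hK.eventually_forall_of_forall_eventually (x₀ := (0 : E3))
    (P := fun w q => fderiv ℝ (V.f ∘ V.c k) q (lin (V.a k) (V.b k) q + ρ q • w) < 0) fun q hq => by
      have h1 := (hs hq).1
      have h0 : q ≠ 0 := fun h => (hs hq).2 (h ▸ mem_ball_self (by norm_num))
      have c1 : ContinuousAt (fun z : E3 × E3 => fderiv ℝ (V.f ∘ V.c k) z.2) (0, q) :=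
        ContinuousAt.comp (f := Prod.snd) (hc.continuousAt (isOpen_ball.mem_nhds h1))
          continuousAt_snd
      have c2 : Continuous fun z : E3 × E3 => lin (V.a k) (V.b k) z.2 + ρ z.2 • z.1 :=
        ((contDiff_lin _ _).continuous.comp continuous_snd).add
          ((hρ.comp continuous_snd).smul continuous_fst)
      refine (c1.clm_apply c2.continuousAt).eventually_lt continuousAt_const ?_
      have := V.dec _ (V.toCD.ne_pt (k := k) h1 h0)
      rw [V.model k q h1] at this
      simpa only [smul_zero, add_zero, hd q h1] using this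
  obtain ⟨ε, hε, h⟩ := Metric.eventually_nhds_iff.mp key
  refine ⟨ε, hε, fun w hw q hq => ?_⟩
  rw [← hd q (hs hq).1]
  exact h (by rwa [dist_zero_right]) q hq

/-- The perturbed field. -/
theorem field [T2Space M] (V : VD M κ) (k : κ) {ρ : E3 → ℝ} (hρ : ContDiff ℝ ∞ ρ)
    (hK : IsCompact (tsupport ρ)) (hs : tsupport ρ ⊆ ball 0 1) (w : E3) :
    ∃ ξ : M → E3, SVF ξ ∧ (∀ q ∈ ball (0 : E3) 1,
      ξ (V.c k q) = jac (V.c k) q (lin (V.a k) (V.b k) q + ρ q • w)) ∧
      ∀ x, x ∉ V.c k '' tsupport ρ → ξ x = V.ξ x := by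
  classical
  set ζ : M → E3 := fun x => jac (V.c k) ((V.c k).symm x)
    (lin (V.a k) (V.b k) ((V.c k).symm x) + ρ ((V.c k).symm x) • w) with hζ
  have h1 : ∀ q ∈ ball (0 : E3) 1, (if V.c k q ∈ (V.c k).target then ζ (V.c k q) else
      V.ξ (V.c k q)) = jac (V.c k) q (lin (V.a k) (V.b k) q + ρ q • w) := fun q hq => by
    rw [if_pos (V.toCD.mem_target k hq), hζ]
    simp only [(V.c k).left_inv (V.source k ▸ hq)]
  have h2 : ∀ x, x ∉ V.c k '' tsupport ρ →
      (if x ∈ (V.c k).target then ζ x else V.ξ x) = V.ξ x := fun x hx => by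
    by_cases ht : x ∈ (V.c k).target
    · have ht' := ht
      rw [V.toCD.target_eq] at ht'
      obtain ⟨q, hq, rfl⟩ := ht'
      have h0 : ρ q = 0 := image_eq_zero_of_notMem_tsupport fun h => hx ⟨q, h, rfl⟩
      rw [h1 q hq, h0, zero_smul, add_zero, V.model k q hq]
    · exact if_neg ht
  refine ⟨fun x => if x ∈ (V.c k).target then ζ x else V.ξ x, SVF.of_local fun x => ?_, h1, h2⟩
  by_cases ht : x ∈ (V.c k).target
  · refine ⟨ζ, (V.c k).target, (V.c k).open_target, ht, ?_, fun y hy => if_pos hy⟩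
    rw [V.toCD.target_eq]
    exact pc_push (V.chart k) (Y := fun q => lin (V.a k) (V.b k) q + ρ q • w) isOpen_ball
      (V.source k).ge ((contDiff_lin _ _).add (hρ.smul contDiff_const)).contDiffOn
  · refine ⟨V.ξ, (V.c k '' tsupport ρ)ᶜ, (V.toCD.isCompact_image k hK hs).isClosed.isOpen_compl,
      ?_, V.ξ_smooth.on _, h2⟩
    rintro ⟨q, hq, rfl⟩
    exact ht (V.toCD.mem_target k (hs hq))

omit [IsManifold (𝓡 3) ∞ M] in
/-- One chart is shrunk. -/
theorem shrink (C : CD M κ) (k : κ) : ∃ C' : CD M κ, C'.a = C.a ∧ C'.b = C.b ∧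
    (∀ k', k' ≠ k → C'.c k' = C.c k') ∧ (∀ q, C'.c k q = C.c k ((1 / 3 : ℝ) • q)) ∧
    ∀ q ∈ ball (0 : E3) 1, ∀ v,
      jac (C'.c k) q v = jac (C.c k) ((1 / 3 : ℝ) • q) ((1 / 3 : ℝ) • v) := by
  classical
  obtain ⟨e, h1, h2, h3, h4, h5⟩ := pc_scale (C.chart k) (C.source k) (r := 1 / 3) (by norm_num)
    (by norm_num)
  have hsub : ∀ k', (Function.update C.c k e k').target ⊆ (C.c k').target := fun k' => by
    by_cases h : k' = k
    · subst h
      rw [Function.update_self, h4, C.target_eq]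
      exact image_mono (ball_subset_ball (by norm_num))
    · rw [Function.update_of_ne h]
  refine ⟨⟨Function.update C.c k e, C.a, C.b, fun k' => ?_, fun k' => ?_, C.a_sign, C.b_sign,
    fun k' k'' h => (C.disj h).mono (hsub k') (hsub k'')⟩, rfl, rfl,
    fun k' h => Function.update_of_ne h _ _, fun q => ?_, fun q hq v => ?_⟩
  · by_cases h : k' = k
    · subst h
      rwa [Function.update_self]
    · rw [Function.update_of_ne h]
      exact C.chart k'
  · by_cases h : k' = k
    · subst h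
      rwa [Function.update_self]
    · rw [Function.update_of_ne h]
      exact C.source k'
  · simp only [Function.update_self, h3]
  · simp only [Function.update_self, h5 q hq]

theorem third {q : E3} (hq : q ∈ ball (0 : E3) 1) : (1 / 3 : ℝ) • q ∈ ball (0 : E3) (1 / 3) := by
  rw [mem_ball_zero_iff] at hq ⊢
  rw [norm_smul, Real.norm_of_nonneg (by norm_num)]
  linarith

end RGENV

theorem genv_of (M : Type*) [TopologicalSpace M] [T2Space M] [CompactSpace M] [ChartedSpace E3 M]
    [IsManifold (𝓡 3) ∞ M] (hM : OrientedAtlas M) : S_GENV M := by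
  intro κ V k ρ hρ hK hs
  have hs1 : tsupport ρ ⊆ ball 0 1 := fun q hq => (hs hq).1
  obtain ⟨ε, hε, hsm⟩ := RGENV.small V k hρ.continuous hK hs
  refine ⟨ε, hε, fun w hw => ?_⟩
  obtain ⟨ξ, h1, h2, h3⟩ := RGENV.field V k hρ hK hs1 w
  obtain ⟨C, ha, hb, hc, hk, hj⟩ := RGENV.shrink V.toCD k
  refine ⟨⟨C, V.f, V.f_smooth, ξ, h1, fun k' q hq => ?_, fun x hx => ?_⟩, rfl, ha, hb, hc, hk,
    h2, h3⟩
  · by_cases h : k' = k
    · subst h
      have hq' := RGENV.third hq
      have h0 : ρ ((1 / 3 : ℝ) • q) = 0 :=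
        image_eq_zero_of_notMem_tsupport fun h => (hs h).2 hq'
      rw [hk, hj q hq, h2 _ (ball_subset_ball (by norm_num) hq'), h0, zero_smul, add_zero, ha, hb,
        lin_smul]
    · rw [hc k' h, ha, hb, h3, V.model k' q hq]
      rintro ⟨p, hp, e⟩
      exact h (V.toCD.inj (hs1 hp) hq e).1.symm
  · by_cases h : x ∈ V.c k '' tsupport ρ
    · obtain ⟨q, hq, rfl⟩ := h
      rw [h2 q (hs1 hq)]
      exact hsm w hw q hq
    · rw [h3 x h]
      refine V.dec x fun k' => ?_
      have := hx k'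
      by_cases h' : k' = k
      · subst h'
        rwa [hk, smul_zero] at this
      · rwa [hc k' h'] at this

end

end Pool.Agent.P.MP_ac4909_gt.B.H
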