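import Pool.Agent.P.MP_ac4909_gt.B.H.API

/-! GSC: by Half.far, ce e (ax z) = cv v d with ‖d‖ |z| ≤ C, so ce e (ax z) → cv v 0 as z → ±∞ (Half.continuous_cv); compact_orbit; H.gs is the finite union of these compact sets and the vertices (Half.mem_gs).
γ (inl e) = ce e ∘ ax (pc_at, ax_mem_Dom, contDiff_ax), γ (inr v) constant.
ATTR: r > 0 with cv v '' ball 0 r ⊆ U for all v. For an edge e choose R with C < r R for both ends (Half.far), so ce e p ∈ U for p ∈ Dom, |p 2| ≥ R; exists_cyl for Dom ∩ (ce e)⁻¹' U on [-R,R] gives δ.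
N = ⋃ v, cv v '' ball 0 r ∪ ⋃ e, ce e '' {p ∈ Dom | rad p < δ e} is open, H.gs ⊆ N ⊆ U, and Φ (-t) maps N to N for t ≥ 0 (cv_flow, ce_flow, rad_sad, sad_mem_Dom).
The open sets {x | Φ (-n) x ∈ N}, n : ℕ, increase and cover C; compactness. -/

namespace Pool.Agent.P.MP_ac4909_gt.B.H

open scoped Manifold ContDiff Topology RealInnerProductSpace
open Set Metric Filter

noncomputable section

namespace RGSCATT

variable {M : Type*} [TopologicalSpace M] [ChartedSpace E3 M] {ι Vx : Type}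

theorem far_nhds (H : Half M ι Vx) (e : ι) {σ : ℝ} (hσ : σ = 1 ∨ σ = -1) :
    ∃ v : Vx, ∀ O ∈ 𝓝 (H.cv v 0), ∃ R : ℝ, 0 < R ∧
      ∀ p ∈ Dom, R ≤ σ * p 2 → H.ce e p ∈ O := by
  obtain ⟨v, C, h⟩ := H.far e hσ
  refine ⟨v, fun O hO => ?_⟩
  have h1 : H.cv v ⁻¹' O ∈ 𝓝 (0 : E3) := (H.continuous_cv v).continuousAt hO
  obtain ⟨r, hr, hb⟩ := Metric.mem_nhds_iff.1 h1
  have hC : 0 < |C| + 1 := by positivity
  refine ⟨(|C| + 1) / r, div_pos hC hr, fun p hp hR => ?_⟩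
  have h0 : 0 < σ * p 2 := lt_of_lt_of_le (div_pos hC hr) hR
  obtain ⟨d, hd, he⟩ := h p hp h0
  rw [he]
  apply hb
  rw [mem_ball_zero_iff]
  have h2 : σ * p 2 ≤ |p 2| := by
    rcases hσ with rfl | rfl
    · rw [one_mul]; exact le_abs_self _
    · rw [neg_one_mul]; exact neg_le_abs _
  have h3 : |C| + 1 ≤ |p 2| * r := (div_le_iff₀ hr).1 (hR.trans h2)
  have h4 : 0 < |p 2| := lt_of_lt_of_le h0 h2
  have h5 : ‖d‖ * |p 2| < r * |p 2| := by
    have := le_abs_self C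
    linarith [mul_comm r |p 2|]
  exact lt_of_mul_lt_mul_right h5 h4.le

theorem smooth_edge (H : Half M ι Vx) (e : ι) :
    ContMDiff 𝓘(ℝ, ℝ) (𝓡 3) ∞ fun z => H.ce e (ax z) := by
  intro z
  have h1 : ContMDiffAt (𝓡 3) (𝓡 3) ∞ (H.ce e) (ax z) :=
    pc_at (H.ce_chart e) (by rw [H.ce_source]; exact ax_mem_Dom z)
  exact h1.comp z (contDiff_ax.contMDiff z)

theorem edge_compact (H : Half M ι Vx) (e : ι) :
    ∃ K : Set M, IsCompact K ∧ K ⊆ H.gs ∧ ∀ z, H.ce e (ax z) ∈ K := by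
  obtain ⟨v, hv⟩ := far_nhds H e (σ := 1) (Or.inl rfl)
  obtain ⟨w, hw⟩ := far_nhds H e (σ := -1) (Or.inr rfl)
  have h1 : Tendsto (fun z => H.ce e (ax z)) atTop (𝓝 (H.cv v 0)) := by
    intro O hO
    obtain ⟨R, -, hR⟩ := hv O hO
    rw [mem_map]
    filter_upwards [eventually_ge_atTop R] with z hz
    exact hR _ (ax_mem_Dom z) (by simpa using hz)
  have h2 : Tendsto (fun z => H.ce e (ax z)) atBot (𝓝 (H.cv w 0)) := by
    intro O hO
    obtain ⟨R, -, hR⟩ := hw O hO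
    rw [mem_map]
    filter_upwards [eventually_le_atBot (-R)] with z hz
    refine hR _ (ax_mem_Dom z) ?_
    rw [ax_apply_two]
    linarith
  refine ⟨_, compact_orbit (smooth_edge H e).continuous h2 h1, ?_, fun z => Or.inl ⟨z, rfl⟩⟩
  rintro _ (⟨z, rfl⟩ | rfl | rfl)
  · exact H.mem_gs.2 (Or.inl ⟨e, z, rfl⟩)
  · exact H.mem_gs.2 (Or.inr ⟨w, rfl⟩)
  · exact H.mem_gs.2 (Or.inr ⟨v, rfl⟩)

theorem edge_tube (H : Half M ι Vx) {U : Set M} (hU : IsOpen U) (hg : H.gs ⊆ U) (e : ι) :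
    ∃ δ : ℝ, 0 < δ ∧ ∀ p ∈ Dom, rad p < δ → H.ce e p ∈ U := by
  obtain ⟨v, hv⟩ := far_nhds H e (σ := 1) (Or.inl rfl)
  obtain ⟨w, hw⟩ := far_nhds H e (σ := -1) (Or.inr rfl)
  obtain ⟨R, -, hR⟩ := hv U (hU.mem_nhds (hg (H.mem_gs.2 (Or.inr ⟨v, rfl⟩))))
  obtain ⟨S, -, hS⟩ := hw U (hU.mem_nhds (hg (H.mem_gs.2 (Or.inr ⟨w, rfl⟩))))
  have hO : IsOpen ((H.ce e).source ∩ H.ce e ⁻¹' U) := (H.ce e).isOpen_inter_preimage hU
  obtain ⟨δ, hδ, h⟩ := exists_cyl hO (a := -S) (b := R) fun z _ =>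
    ⟨by rw [H.ce_source]; exact ax_mem_Dom z, hg (H.mem_gs.2 (Or.inl ⟨e, z, rfl⟩))⟩
  refine ⟨δ, hδ, fun p hp hr => ?_⟩
  rcases le_total R (p 2) with h1 | h1
  · exact hR p hp (by linarith)
  rcases le_total (p 2) (-S) with h2 | h2
  · exact hS p hp (by linarith)
  exact (h p hr.le ⟨h2, h1⟩).2

theorem vertex_ball (H : Half M ι Vx) {U : Set M} (hU : IsOpen U) (hg : H.gs ⊆ U) (v : Vx) :
    ∃ r : ℝ, 0 < r ∧ ∀ d ∈ ball (0 : E3) r, H.cv v d ∈ U := by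
  have h1 : H.cv v ⁻¹' U ∈ 𝓝 (0 : E3) :=
    (H.continuous_cv v).continuousAt (hU.mem_nhds (hg (H.mem_gs.2 (Or.inr ⟨v, rfl⟩))))
  obtain ⟨r, hr, hb⟩ := Metric.mem_nhds_iff.1 h1
  exact ⟨r, hr, fun d hd => hb hd⟩

theorem exists_trap (H : Half M ι Vx) {U : Set M} (hU : IsOpen U) (hg : H.gs ⊆ U) :
    ∃ N : Set M, IsOpen N ∧ H.gs ⊆ N ∧ N ⊆ U ∧ ∀ t : ℝ, 0 ≤ t → MapsTo (H.Φ (-t)) N N := by
  choose δ hδ hδU using edge_tube H hU hg
  choose r hr hrU using vertex_ball H hU hg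
  refine ⟨(⋃ v, H.cv v '' ball 0 (r v)) ∪ ⋃ e, H.ce e '' (Dom ∩ {p | rad p < δ e}),
    IsOpen.union (isOpen_iUnion fun v => ?_) (isOpen_iUnion fun e => ?_), ?_, ?_, ?_⟩
  · refine (H.cv v).isOpen_image_of_subset_source isOpen_ball ?_
    rw [H.cv_source]
    exact subset_univ _
  · refine (H.ce e).isOpen_image_of_subset_source
      (isOpen_Dom.inter (isOpen_lt continuous_rad continuous_const)) ?_
    rw [H.ce_source]
    exact inter_subset_left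
  · intro x hx
    rcases H.mem_gs.1 hx with ⟨e, z, rfl⟩ | ⟨v, rfl⟩
    · refine Or.inr (mem_iUnion.2 ⟨e, ax z, ⟨ax_mem_Dom z, ?_⟩, rfl⟩)
      show rad (ax z) < δ e
      rw [rad_ax]
      exact hδ e
    · exact Or.inl (mem_iUnion.2 ⟨v, 0, mem_ball_self (hr v), rfl⟩)
  · rintro x (hx | hx)
    · obtain ⟨v, d, hd, rfl⟩ := mem_iUnion.1 hx
      exact hrU v d hd
    · obtain ⟨e, p, hp, rfl⟩ := mem_iUnion.1 hx
      exact hδU e p hp.1 hp.2
  · intro t ht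
    have h1 : Real.exp (-t) ≤ 1 := Real.exp_le_one_iff.2 (by linarith)
    rintro x (hx | hx)
    · obtain ⟨v, d, hd, rfl⟩ := mem_iUnion.1 hx
      refine Or.inl (mem_iUnion.2 ⟨v, Real.exp (-t) • d, ?_, (H.cv_flow v (-t) d).symm⟩)
      rw [mem_ball_zero_iff] at hd ⊢
      rw [norm_smul, Real.norm_of_nonneg (Real.exp_pos _).le]
      exact lt_of_le_of_lt (mul_le_of_le_one_left (norm_nonneg _) h1) hd
    · obtain ⟨e, p, hp, rfl⟩ := mem_iUnion.1 hx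
      refine Or.inr (mem_iUnion.2 ⟨e, sad (-t) p, ⟨sad_mem_Dom _ hp.1, ?_⟩,
        (H.ce_flow e (-t) p hp.1).symm⟩)
      show rad (sad (-t) p) < δ e
      rw [rad_sad]
      exact lt_of_le_of_lt (mul_le_of_le_one_left (rad_nonneg _) h1) hp.2

end RGSCATT

theorem gsc_of (M : Type*) [TopologicalSpace M] [T2Space M] [CompactSpace M] [ChartedSpace E3 M]
    [IsManifold (𝓡 3) ∞ M] (hM : OrientedAtlas M) : S_GSC M := by
  intro ι Vx _ _ H
  constructor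
  · choose K hK hKg hKm using RGSCATT.edge_compact H
    have h1 : H.gs = (⋃ e, K e) ∪ range fun v => H.cv v 0 := by
      refine Subset.antisymm (fun x hx => ?_) ?_
      · rcases H.mem_gs.1 hx with ⟨e, z, rfl⟩ | ⟨v, rfl⟩
        · exact Or.inl (mem_iUnion.2 ⟨e, hKm e z⟩)
        · exact Or.inr ⟨v, rfl⟩
      · rintro x (hx | ⟨v, rfl⟩)
        · obtain ⟨e, he⟩ := mem_iUnion.1 hx
          exact hKg e he
        · exact H.mem_gs.2 (Or.inr ⟨v, rfl⟩)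
    rw [h1]
    exact (isCompact_iUnion hK).union (finite_range _).isCompact
  · refine ⟨Sum.elim (fun e z => H.ce e (ax z)) fun v _ => H.cv v 0, ?_, fun x hx => ?_⟩
    · rintro (e | v)
      · exact RGSCATT.smooth_edge H e
      · exact contMDiff_const
    · rcases H.mem_gs.1 hx with ⟨e, z, rfl⟩ | ⟨v, rfl⟩
      · exact mem_iUnion.2 ⟨Sum.inl e, z, rfl⟩
      · exact mem_iUnion.2 ⟨Sum.inr v, 0, rfl⟩

theorem attr_of (M : Type*) [TopologicalSpace M] [T2Space M] [CompactSpace M] [ChartedSpace E3 M]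
    [IsManifold (𝓡 3) ∞ M] (hM : OrientedAtlas M) : S_ATTR M := by
  intro ι Vx _ _ H U C hU hg hC hlim
  obtain ⟨N, hN, hgN, hNU, hinv⟩ := RGSCATT.exists_trap H hU hg
  have hmono : Monotone fun t : ℝ => H.Φ (-t) ⁻¹' N := by
    intro s t hst x hx
    have h1 : H.Φ (-t) x = H.Φ (-(t - s)) (H.Φ (-s) x) := by
      rw [← H.flow.add]
      congr 1
      ring
    show H.Φ (-t) x ∈ N
    rw [h1]
    exact hinv _ (sub_nonneg.2 hst) hx
  obtain ⟨T, hT⟩ := hC.elim_directed_cover (fun t : ℝ => H.Φ (-t) ⁻¹' N)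
    (fun t => hN.preimage (H.flow.continuous_space _))
    (fun x hx => by
      obtain ⟨p, hp, h⟩ := hlim x hx
      obtain ⟨t, ht⟩ := (h.eventually (hN.mem_nhds (hgN hp))).exists
      exact mem_iUnion.2 ⟨t, ht⟩)
    hmono.directed_le
  exact ⟨T, fun t ht x hx => hNU (hmono ht (hT hx))⟩

end

end Pool.Agent.P.MP_ac4909_gt.B.H
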