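import Pool.Agent.P.MP_ac4909_gt.B.H.API

/-! Half data. ι = {k // a k = 1 ∧ b k = -1}, Vx = {v // a v = 1 ∧ b v = 1}. cv from HV. cv_disj: Φ t (cv v p) = cv v (exp t • p) → cv v 0 = c v 0 at atBot; limits are unique, CD.pt_inj.
One l > 0 for all edges: l ≤ l₀ k, 2 l ≤ d k k' (BACK part 2, all ordered pairs k' ≠ k of edges), 2 l ≤ 1, 2 l^2 < δ k σ (BACK part 1) (finitely many conditions, each holds eventually in 𝓝[>] 0).
ce from HE. Every point of the target is Φ T (c k q), ‖q‖ < 2 l (exists_sad_small, sad_smul). ce_disj: if Φ T (c k q) = Φ T' (c k' q') and T ≤ T' then c k q = Φ (T' - T) (c k' q'), against BACK; symmetric.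
cv_zero: FL.eq_of_flow_eq_pt / FL.fixed and CD.inj. ends: for p ∈ Dom with p 2 = σ we have rad p < 1; T₀ = log (1/(2l)), q = sad (-T₀) (l • p) has height σ/2, rad q ≤ 2 l^2 < δ, so
ce p = Φ T₀ (Φ T (cv v d)) = cv v (exp (T₀ + T) • d), C = exp (T₀ + T). Graph: ce e 0 = c k 0 (T = 0), ce e (ax z) for c k (ax (l z)); Half.mem_gs, STAB, eq_ax, sad_ax. -/

namespace Pool.Agent.P.MP_ac4909_gt.B.H

open scoped Manifold ContDiff Topology RealInnerProductSpace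
open Set Metric Filter

noncomputable section

namespace RHALF

theorem ex_pos {α : Type*} [Finite α] (g : α → ℝ) (hg : ∀ a, 0 < g a) :
    ∃ l : ℝ, 0 < l ∧ ∀ a, l ≤ g a := by
  have h : ∀ᶠ l in 𝓝[>] (0 : ℝ), ∀ a, l ≤ g a :=
    eventually_all.2 fun a => mem_of_superset (Ioc_mem_nhdsGT (hg a)) fun _ h => h.2
  obtain ⟨l, h1, h2⟩ := (h.and self_mem_nhdsWithin).exists
  exact ⟨l, h2, h1⟩

variable {M : Type*} [TopologicalSpace M] [ChartedSpace E3 M] {κ : Type}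

/-- the orbits of a source chart come from its centre -/
theorem tendsto_src {Φ : ℝ → M → M} {e : OpenPartialHomeomorph E3 M} (hs : e.source = univ)
    (h : ∀ t p, Φ t (e p) = e (Real.exp t • p)) {x : M} (hx : x ∈ e.target) :
    Tendsto (fun t => Φ t x) atBot (𝓝 (e 0)) := by
  rw [← e.right_inv hx]
  simp only [h]
  have h1 : Tendsto (fun t => Real.exp t • e.symm x) atBot (𝓝 0) := by
    simpa using Real.tendsto_exp_atBot.smul_const (e.symm x)
  exact (e.continuousAt (by rw [hs]; trivial)).tendsto.comp h1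

/-- the points of an edge chart flow through a small ball -/
theorem small (F : FL M κ) (k : κ) {e : OpenPartialHomeomorph E3 M} {l : ℝ} (hl : 0 < l)
    (hl1 : l ≤ 1 / 2) (hs : e.source = Dom)
    (h : ∀ p ∈ Dom, ∀ T, sad (-T) (l • p) ∈ ball (0 : E3) 1 →
      e p = F.Φ T (F.c k (sad (-T) (l • p)))) {x : M} (hx : x ∈ e.target) :
    ∃ (T : ℝ) (q : E3), ‖q‖ < 2 * l ∧ x = F.Φ T (F.c k q) := by
  have hp : e.symm x ∈ Dom := hs ▸ e.map_target hx
  obtain ⟨T, hT⟩ := exists_sad_small hp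
  have h1 : ‖sad (-T) (l • e.symm x)‖ < 2 * l := by
    rw [sad_smul, norm_smul, Real.norm_of_nonneg hl.le]
    nlinarith
  refine ⟨T, _, h1, ?_⟩
  rw [← h _ hp T (mem_ball_zero_iff.2 (by linarith)), e.right_inv hx]

/-- the axis of the small chart lies on the axis of the edge chart -/
theorem on_axis (F : FL M κ) (k : κ) {e : OpenPartialHomeomorph E3 M} {l : ℝ} (hl : 0 < l)
    (h : ∀ p ∈ Dom, ∀ T, sad (-T) (l • p) ∈ ball (0 : E3) 1 →
      e p = F.Φ T (F.c k (sad (-T) (l • p)))) {q : E3} (hq : q ∈ ball (0 : E3) 1)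
    (h0 : q 0 = 0) (h1 : q 1 = 0) : e (ax (q 2 / l)) = F.c k q := by
  have e1 : sad (-0) (l • ax (q 2 / l)) = q := by
    rw [neg_zero, sad_zero, smul_ax, mul_div_cancel₀ _ hl.ne', ← eq_ax h0 h1]
  rw [h _ (ax_mem_Dom _) 0 (by rwa [e1]), e1, F.flow.zero]

/-- the point of an end at height one half -/
theorem end_pt {l σ : ℝ} (hl : 0 < l) (hl1 : l ≤ 1 / 2) (hσ : σ = 1 ∨ σ = -1) {p : E3}
    (hp : p ∈ Dom) (h2 : p 2 = σ) :
    sad (-(-Real.log (2 * l))) (l • p) ∈ ball (0 : E3) 1 ∧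
      ‖sad (-(-Real.log (2 * l))) (l • p) - ax (σ / 2)‖ < l := by
  have hσ' : |σ| = 1 := by rcases hσ with rfl | rfl <;> simp
  have h1 : rad p < 1 := by
    have : rad p * |p 2| < 1 := hp
    rwa [h2, hσ', mul_one] at this
  have e1 : Real.exp (Real.log (2 * l)) = 2 * l := Real.exp_log (by positivity)
  rw [neg_neg]
  have h3 : sad (Real.log (2 * l)) (l • p) 2 = σ / 2 := by
    have : sad (Real.log (2 * l)) (l • p) 2 = Real.exp (-Real.log (2 * l)) * (l * p 2) := by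
      simp [sad]
    rw [this, Real.exp_neg, e1, h2]
    field_simp
  have h4 : rad (sad (Real.log (2 * l)) (l • p)) < l := by
    rw [rad_sad, e1, rad_smul, abs_of_pos hl]
    have h5 : l * rad p < l := by nlinarith
    have h6 : 0 ≤ l * rad p := mul_nonneg hl.le (rad_nonneg p)
    nlinarith
  constructor
  · rw [mem_ball_zero_iff]
    have h5 := norm_le_rad_add (sad (Real.log (2 * l)) (l • p))
    rw [h3, abs_div, hσ', abs_two] at h5
    linarith
  · rw [← h3, norm_sub_ax]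
    exact h4

end RHALF

theorem half_of (M : Type*) [TopologicalSpace M] [T2Space M] [CompactSpace M] [ChartedSpace E3 M]
    [IsManifold (𝓡 3) ∞ M] (hM : OrientedAtlas M)
    (hV : S_HV M) (hE : S_HE M) (hB : S_BACK M) (hS : S_STAB M) : S_HALF M := by
  intro κ _ F hG
  classical
  have h01 : (0 : E3) ∈ ball (0 : E3) 1 := mem_ball_self one_pos
  choose cv cv1 cv2 cv3 cv4 using
    fun v : {k : κ // F.a k = 1 ∧ F.b k = 1} => hV κ F v.1 v.2.1 v.2.2
  choose l₀ l₀pos hl₀ using fun k : {k : κ // F.a k = 1 ∧ F.b k = -1} => hE κ F k.1 k.2.1 k.2.2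
  have B1 : ∀ k : {k : κ // F.a k = 1 ∧ F.b k = -1}, ∃ δ : ℝ, 0 < δ ∧ ∀ σ : ℝ, σ = 1 ∨ σ = -1 →
      ∃ (v : {k : κ // F.a k = 1 ∧ F.b k = 1}) (T : ℝ), ∀ q : E3, ‖q - ax (σ / 2)‖ < δ →
        ∃ d ∈ ball (0 : E3) 1, F.c k q = F.Φ T (F.c v d) := by
    intro k
    obtain ⟨v, δ, T, a1, a2, a3, a4⟩ := (hB κ F k.1 k.2.1 k.2.2).1 1 (Or.inl rfl)
      (hG k.1 1 k.2.1 k.2.2 (Or.inl rfl))
    obtain ⟨v', δ', T', b1, b2, b3, b4⟩ := (hB κ F k.1 k.2.1 k.2.2).1 (-1) (Or.inr rfl)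
      (hG k.1 (-1) k.2.1 k.2.2 (Or.inr rfl))
    refine ⟨min δ δ', lt_min a3 b3, ?_⟩
    rintro σ (rfl | rfl)
    · exact ⟨⟨v, a1, a2⟩, T, fun q hq => a4 q (hq.trans_le (min_le_left _ _))⟩
    · exact ⟨⟨v', b1, b2⟩, T', fun q hq => b4 q (hq.trans_le (min_le_right _ _))⟩
  have B2 : ∀ p : {k : κ // F.a k = 1 ∧ F.b k = -1} × {k : κ // F.a k = 1 ∧ F.b k = -1},
      ∃ d : ℝ, 0 < d ∧ (p.2 ≠ p.1 → ∀ q ∈ ball (0 : E3) d, ∀ q' ∈ ball (0 : E3) d, ∀ s : ℝ,
        0 ≤ s → F.c p.1 q ≠ F.Φ s (F.c p.2 q')) := by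
    rintro ⟨k, k'⟩
    by_cases hk : k' = k
    · exact ⟨1, one_pos, fun h => absurd hk h⟩
    · obtain ⟨d, hd, h⟩ := (hB κ F k.1 k.2.1 k.2.2).2 (hG k.1 1 k.2.1 k.2.2 (Or.inl rfl))
        (hG k.1 (-1) k.2.1 k.2.2 (Or.inr rfl)) k'.1 (fun e => hk (Subtype.ext e)) k'.2.2
      exact ⟨d, hd, fun _ => h⟩
  choose δ δpos hδ using B1
  choose d dpos hd using B2
  obtain ⟨l₁, l₁pos, hl₁⟩ := RHALF.ex_pos l₀ l₀pos
  obtain ⟨l₂, l₂pos, hl₂⟩ := RHALF.ex_pos δ δpos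
  obtain ⟨l₃, l₃pos, hl₃⟩ := RHALF.ex_pos d dpos
  obtain ⟨l, hl, k1, k2, k3, k4⟩ : ∃ l : ℝ, 0 < l ∧ l ≤ l₁ ∧ l ≤ l₂ ∧ l ≤ l₃ / 2 ∧ l ≤ 1 / 2 :=
    ⟨min (min l₁ l₂) (min (l₃ / 2) (1 / 2)), by positivity,
      (min_le_left _ _).trans (min_le_left _ _), (min_le_left _ _).trans (min_le_right _ _),
      (min_le_right _ _).trans (min_le_left _ _), (min_le_right _ _).trans (min_le_right _ _)⟩
  choose ce ce1 ce2 ce3 ce4 using fun k => hl₀ k l hl (k1.trans (hl₁ k))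
  have key : ∀ k k' : {k : κ // F.a k = 1 ∧ F.b k = -1}, k' ≠ k → ∀ (T T' : ℝ) (q q' : E3),
      ‖q‖ < 2 * l → ‖q'‖ < 2 * l → T ≤ T' → F.Φ T (F.c k q) ≠ F.Φ T' (F.c k' q') := by
    intro k k' hk T T' q q' hq hq' hT e
    have h1 := hl₃ (k, k')
    refine hd (k, k') hk q (mem_ball_zero_iff.2 (by linarith)) q'
      (mem_ball_zero_iff.2 (by linarith)) (T' - T) (sub_nonneg.2 hT) (F.flow.injective T ?_)
    rw [← F.flow.add, add_sub_cancel]
    exact e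
  let H : Half M {k : κ // F.a k = 1 ∧ F.b k = -1} {k : κ // F.a k = 1 ∧ F.b k = 1} :=
    { Φ := F.Φ
      flow := F.flow
      cv := cv
      cv_chart := cv1
      cv_source := cv2
      cv_flow := cv4
      cv_disj := fun v v' hv => disjoint_left.2 fun x hx hx' => by
        have h1 := tendsto_nhds_unique (RHALF.tendsto_src (cv2 v) (cv4 v) hx)
          (RHALF.tendsto_src (cv2 v') (cv4 v') hx')
        rw [cv3 v 0 h01, cv3 v' 0 h01] at h1
        exact hv (Subtype.ext (F.toCD.pt_inj h1))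
      ce := ce
      ce_chart := ce1
      ce_source := ce2
      ce_flow := ce4
      ce_disj := fun k k' hk => disjoint_left.2 fun x hx hx' => by
        obtain ⟨T, q, hq, e⟩ := RHALF.small F k hl k4 (ce2 k) (ce3 k) hx
        obtain ⟨T', q', hq', e'⟩ := RHALF.small F k' hl k4 (ce2 k') (ce3 k') hx'
        rcases le_total T T' with h | h
        · exact key k k' hk.symm T T' q q' hq hq' h (e.symm.trans e')
        · exact key k' k hk T' T q' q hq' hq h (e'.symm.trans e)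
      cv_zero := fun v k hx => by
        obtain ⟨T, q, hq, e⟩ := RHALF.small F k hl k4 (ce2 k) (ce3 k) hx
        rw [cv3 v 0 h01] at e
        have h1 := (F.toCD.inj (mem_ball_zero_iff.2 (by linarith)) h01
          (F.eq_of_flow_eq_pt e.symm)).1
        have h2 := k.2.2
        rw [h1, v.2.2] at h2
        norm_num at h2
      ends := fun k σ hσ => by
        obtain ⟨v, T, h⟩ := hδ k σ hσ
        refine ⟨v, Real.exp (-Real.log (2 * l) + T), fun p hp h2 => ?_⟩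
        obtain ⟨a1, a2⟩ := RHALF.end_pt hl k4 hσ hp h2
        obtain ⟨u, hu, e⟩ := h _ (a2.trans_le (k2.trans (hl₂ k)))
        refine ⟨Real.exp (-Real.log (2 * l) + T) • u, ?_, ?_⟩
        · rw [norm_smul, Real.norm_of_nonneg (Real.exp_pos _).le]
          exact mul_le_of_le_one_right (Real.exp_pos _).le (mem_ball_zero_iff.1 hu).le
        · rw [ce3 k p hp _ a1, e, ← F.flow.add, ← cv3 v u hu, cv4] }
  have hpt : ∀ k, F.a k = 1 → F.c k 0 ∈ H.gs := by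
    intro k hk
    rcases F.b_sign k with h | h
    · exact H.mem_gs.2 (Or.inr ⟨⟨k, hk, h⟩, cv3 ⟨k, hk, h⟩ 0 h01⟩)
    · exact H.mem_gs.2 (Or.inl ⟨⟨k, hk, h⟩, _,
        RHALF.on_axis F k hl (ce3 ⟨k, hk, h⟩) h01 rfl rfl⟩)
  refine ⟨_, _, inferInstance, inferInstance, H, rfl, hpt, fun x k hk hx => ?_⟩
  obtain ⟨T, q, hq, a1, a2, e⟩ := hS κ F x k hx
  obtain ⟨a0, a1⟩ := a1 hk
  rcases F.b_sign k with h | h
  · have hq0 : q = 0 := E3_ext a0 a1 (a2 h)
    rw [hq0] at e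
    rw [F.eq_of_flow_eq_pt e]
    exact hpt k hk
  · refine H.mem_gs.2 (Or.inl ⟨⟨k, hk, h⟩, Real.exp (-(-T)) * (q 2 / l), ?_⟩)
    change ce ⟨k, hk, h⟩ _ = x
    rw [← sad_ax, ← ce4 _ _ _ (ax_mem_Dom _), RHALF.on_axis F k hl (ce3 ⟨k, hk, h⟩) hq a0 a1, ← e,
      F.flow.neg_apply]

end

end Pool.Agent.P.MP_ac4909_gt.B.H
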