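import Pool.Agent.P.MP_ac4909_gt.B.H.API

/-! Immersion near the graph. g₀ x = (cv v).symm x if x ∈ (cv v).target (the targets are disjoint and open; define by choice), smooth with positive Jacobian on O = ⋃ targets (pc_symm_at, pc_det_symm_pos, jac_congr).
For an edge e let Ω = Dom ∩ (ce e)⁻¹' O; ax z ∈ Ω for z ≠ 0 (Half.far, Half.target_cv); g = g₀ ∘ ce e is smooth on Ω with positive determinant (pc_contDiffAt, pc_fderiv, det_comp). JET gives J e.
K = {rad ≤ 1/4, |p 2| ≤ 3} ⊆ Dom is compact (isCompact_cyl). j₁ x = J e ((ce e).symm x) if x ∈ ce e '' K for some e, else g₀ x. Near a vertex j₁ = g₀ (the compact sets ce e '' K miss it, cv_zero).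
Near ce e (ax z), on ce e '' {p ∈ Dom | rad p < 1/4, p ∈ Ω ∪ {|p 2| < 2}}, j₁ = J e ∘ (ce e).symm (if |p 2| > 3 then j₁ = g₀ and J e p = g p; ce_disj). ext_smooth on the compact set H.gs (GSC), jac_congr, det_jac_comp. -/

namespace Pool.Agent.P.MP_ac4909_gt.B.H

open scoped Manifold ContDiff Topology RealInnerProductSpace
open Set Metric Filter

noncomputable section

namespace RIMM

variable {M : Type*} [TopologicalSpace M] [ChartedSpace E3 M] {ι Vx : Type}

/-- smooth near `x` with positive Jacobian determinant at `x` -/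
def Imm (g : M → E3) (x : M) : Prop :=
  (∀ᶠ y in 𝓝 x, ContMDiffAt (𝓡 3) (𝓡 3) ∞ g y) ∧ 0 < (jac g x).det

theorem Imm.congr {g g' : M → E3} {x : M} (h : Imm g x) (e : g' =ᶠ[𝓝 x] g) : Imm g' x := by
  refine ⟨?_, by rw [jac_congr e]; exact h.2⟩
  filter_upwards [h.1, e.eventuallyEq_nhds] with y h1 h2
  exact h1.congr_of_eventuallyEq h2

theorem imm_symm {e : OpenPartialHomeomorph E3 M} (h : IsPChart e) {x : M} (hx : x ∈ e.target) :
    Imm e.symm x := by
  refine ⟨?_, pc_det_symm_pos h hx⟩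
  filter_upwards [e.open_target.mem_nhds hx] with y hy
  exact pc_symm_at h hy

/-- the inverse charts at the vertices, as one map -/
theorem exists_vertex (H : Half M ι Vx) :
    ∃ g₀ : M → E3, ∀ x ∈ ⋃ v, (H.cv v).target, Imm g₀ x := by
  classical
  refine ⟨fun x => if h : ∃ v, x ∈ (H.cv v).target then (H.cv h.choose).symm x else 0,
    fun x hx => ?_⟩
  obtain ⟨v, hv⟩ := mem_iUnion.1 hx
  refine (imm_symm (H.cv_chart v) hv).congr ?_
  filter_upwards [(H.cv v).open_target.mem_nhds hv] with y hy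
  have h : ∃ v, y ∈ (H.cv v).target := ⟨v, hy⟩
  have e : h.choose = v := by
    by_contra hne
    exact disjoint_left.1 (H.cv_disj hne) h.choose_spec hy
  rw [dif_pos h, e]

/-- the extension along one edge -/
theorem exists_edge (hJ : S_JET) (H : Half M ι Vx) {g₀ : M → E3}
    (hg : ∀ x ∈ ⋃ v, (H.cv v).target, Imm g₀ x) (e : ι) :
    ∃ (J : E3 → E3) (N : Set E3), IsOpen N ∧ (∀ z, ax z ∈ N) ∧ ContDiffOn ℝ ∞ J N ∧
      (∀ z, 0 < (fderiv ℝ J (ax z)).det) ∧ ∀ p, 3 ≤ |p 2| → J p = g₀ (H.ce e p) := by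
  have hO : IsOpen (⋃ v, (H.cv v).target) := isOpen_iUnion fun v => (H.cv v).open_target
  have hΩ := (H.ce e).isOpen_inter_preimage hO
  have hax : ∀ z, 1 ≤ |z| → ax z ∈ (H.ce e).source ∩ H.ce e ⁻¹' ⋃ v, (H.cv v).target := by
    intro z hz
    refine ⟨by rw [H.ce_source]; exact ax_mem_Dom z, ?_⟩
    have h1 : ∃ σ : ℝ, (σ = 1 ∨ σ = -1) ∧ 0 < σ * z := by
      rcases le_abs.1 hz with h | h
      · exact ⟨1, Or.inl rfl, by linarith⟩
      · exact ⟨-1, Or.inr rfl, by linarith⟩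
    obtain ⟨σ, hσ, h2⟩ := h1
    obtain ⟨v, C, h3⟩ := H.far e hσ
    obtain ⟨d, -, h4⟩ := h3 (ax z) (ax_mem_Dom z) h2
    refine mem_iUnion.2 ⟨v, ?_⟩
    rw [H.target_cv, h4]
    exact mem_range_self d
  obtain ⟨J, h1, h2, h3⟩ := hJ (g₀ ∘ H.ce e) _ hΩ hax
    (fun q hq => (pc_contDiffAt (H.ce_chart e) hq.1
      (hg _ hq.2).1.self_of_nhds).contDiffWithinAt)
    (fun z hz => by
      have h := hg _ (hax z hz).2
      rw [pc_fderiv (H.ce_chart e) (hax z hz).1
        (h.1.self_of_nhds.mdifferentiableAt (by simp)), det_comp]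
      exact mul_pos h.2 ((H.ce_chart e).pos _ (hax z hz).1))
  refine ⟨J, _, hΩ.union (isOpen_lt (continuous_coord 2).abs continuous_const), fun z => ?_,
    h1, h2, h3⟩
  rcases le_or_gt 1 |z| with h | h
  · exact Or.inl (hax z h)
  · refine Or.inr ?_
    change |z| < 2
    linarith

/-- the compact cores of the edges -/
def core : Set E3 := {p | rad p ≤ 1 / 4 ∧ p 2 ∈ Icc (-3) 3}

theorem core_subset : core ⊆ Dom := fun p hp => by
  have h1 : |p 2| ≤ 3 := abs_le.2 hp.2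
  have h2 : rad p * |p 2| ≤ 1 / 4 * 3 := mul_le_mul hp.1 h1 (abs_nonneg _) (by norm_num)
  change rad p * |p 2| < 1
  linarith

theorem mem_target (H : Half M ι Vx) (e : ι) {p : E3} (hp : p ∈ Dom) :
    H.ce e p ∈ (H.ce e).target := by
  rw [H.target_ce]
  exact mem_image_of_mem _ hp

theorem left_inv (H : Half M ι Vx) (e : ι) {p : E3} (hp : p ∈ Dom) :
    (H.ce e).symm (H.ce e p) = p :=
  (H.ce e).left_inv (by rw [H.ce_source]; exact hp)

theorem ce_inj (H : Half M ι Vx) {e e' : ι} {p p' : E3} (hp : p ∈ Dom) (hp' : p' ∈ Dom)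
    (h : H.ce e p = H.ce e' p') : e = e' ∧ p = p' := by
  have h1 : e = e' := by
    by_contra hne
    exact disjoint_left.1 (H.ce_disj hne) (mem_target H e hp) (h ▸ mem_target H e' hp')
  subst h1
  exact ⟨rfl, by rw [← left_inv H e hp, h, left_inv H e hp']⟩

/-- gluing the maps on the cores -/
theorem exists_glue (H : Half M ι Vx) (g₀ : M → E3) (J : ι → E3 → E3) :
    ∃ j₁ : M → E3, (∀ e, ∀ p ∈ core, j₁ (H.ce e p) = J e p) ∧
      ∀ x, (∀ e, x ∉ H.ce e '' core) → j₁ x = g₀ x := by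
  classical
  refine ⟨fun x => if h : ∃ a : ι × E3, a.2 ∈ core ∧ H.ce a.1 a.2 = x then
    J h.choose.1 h.choose.2 else g₀ x, fun e p hp => ?_, fun x hx => ?_⟩
  · have h : ∃ a : ι × E3, a.2 ∈ core ∧ H.ce a.1 a.2 = H.ce e p := ⟨(e, p), hp, rfl⟩
    obtain ⟨h1, h2⟩ := ce_inj H (core_subset h.choose_spec.1) (core_subset hp) h.choose_spec.2
    simp only [dif_pos h, h1, h2]
  · exact dif_neg fun ⟨a, h1, h2⟩ => hx a.1 ⟨a.2, h1, h2⟩

/-- a map given in an edge chart -/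
theorem imm_edge (H : Half M ι Vx) (e : ι) {J : E3 → E3} {N : Set E3} (hN : IsOpen N)
    (hD : N ⊆ Dom) (hJ : ContDiffOn ℝ ∞ J N) {q : E3} (hq : q ∈ N) (hd : 0 < (fderiv ℝ J q).det)
    {j : M → E3} (hj : ∀ p ∈ N, j (H.ce e p) = J p) : Imm j (H.ce e q) := by
  have hn : H.ce e '' N ∈ 𝓝 (H.ce e q) :=
    ((H.ce e).isOpen_image_of_subset_source hN (by rw [H.ce_source]; exact hD)).mem_nhds
      (mem_image_of_mem _ hq)
  have h1 : ∀ p ∈ N, ContMDiffAt (𝓡 3) (𝓡 3) ∞ J ((H.ce e).symm (H.ce e p)) := fun p hp => by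
    rw [left_inv H e (hD hp)]
    exact (hJ.contDiffAt (hN.mem_nhds hp)).contMDiffAt
  have h2 : Imm (fun y => J ((H.ce e).symm y)) (H.ce e q) := by
    constructor
    · filter_upwards [hn] with y hy
      obtain ⟨p, hp, rfl⟩ := hy
      exact (h1 p hp).comp _ (pc_symm_at (H.ce_chart e) (mem_target H e (hD hp)))
    · rw [det_jac_comp ((h1 q hq).mdifferentiableAt (by simp))
        (pc_symm_md (H.ce_chart e) (mem_target H e (hD hq))), left_inv H e (hD hq), jac_eq_fderiv]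
      exact mul_pos hd (pc_det_symm_pos (H.ce_chart e) (mem_target H e (hD hq)))
  refine h2.congr ?_
  filter_upwards [hn] with y hy
  obtain ⟨p, hp, rfl⟩ := hy
  rw [hj p hp, left_inv H e (hD hp)]

theorem exists_imm [T2Space M] [Fintype ι] (hJ : S_JET) (H : Half M ι Vx) :
    ∃ j₁ : M → E3, ∀ x ∈ H.gs, Imm j₁ x := by
  obtain ⟨g₀, hg⟩ := exists_vertex H
  choose J N h1 h2 h3 h4 h5 using exists_edge hJ H hg
  obtain ⟨j₁, k1, k2⟩ := exists_glue H g₀ J
  refine ⟨j₁, fun x hx => ?_⟩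
  rcases H.mem_gs.1 hx with ⟨e, z, rfl⟩ | ⟨v, rfl⟩
  · refine imm_edge H e (N := Dom ∩ {p | rad p < 1 / 4} ∩ N e)
      ((isOpen_Dom.inter (isOpen_lt continuous_rad continuous_const)).inter (h1 e))
      (fun p hp => hp.1.1) ((h3 e).mono inter_subset_right)
      ⟨⟨ax_mem_Dom z, show rad (ax z) < 1 / 4 by rw [rad_ax]; norm_num⟩, h2 e z⟩ (h4 e z)
      fun p hp => ?_
    by_cases hc : p ∈ core
    · exact k1 e p hc
    · have h6 : 3 ≤ |p 2| := by
        by_contra h7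
        exact hc ⟨le_of_lt hp.1.2, abs_le.1 (not_le.1 h7).le⟩
      rw [h5 e p h6]
      refine k2 _ fun e' h7 => ?_
      obtain ⟨p', hp', h8⟩ := h7
      exact hc ((ce_inj H (core_subset hp') hp.1.1 h8).2 ▸ hp')
  · have hK : IsCompact (⋃ e, H.ce e '' core) := isCompact_iUnion fun e =>
      (isCompact_cyl (1 / 4) (-3) 3).image_of_continuousOn
        ((H.ce e).continuousOn.mono (by rw [H.ce_source]; exact core_subset))
    have hx' : H.cv v 0 ∈ (⋃ e, H.ce e '' core)ᶜ := fun h => by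
      obtain ⟨e, p, hp, h8⟩ := mem_iUnion.1 h
      exact H.cv_zero v e (h8 ▸ mem_target H e (core_subset hp))
    have h0 : H.cv v 0 ∈ ⋃ v, (H.cv v).target :=
      mem_iUnion.2 ⟨v, by rw [H.target_cv]; exact mem_range_self _⟩
    refine (hg _ h0).congr ?_
    filter_upwards [hK.isClosed.isOpen_compl.mem_nhds hx'] with y hy
    exact k2 y fun e h => hy (mem_iUnion.2 ⟨e, h⟩)

end RIMM

theorem imm_of (M : Type*) [TopologicalSpace M] [T2Space M] [CompactSpace M] [ChartedSpace E3 M]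
    [IsManifold (𝓡 3) ∞ M] (hM : OrientedAtlas M)
    (hJ : S_JET) (hG : S_GSC M) : S_IMM M := by
  intro ι Vx _ _ H
  obtain ⟨j₁, h⟩ := RIMM.exists_imm hJ H
  obtain ⟨G, h1, h2⟩ := ext_smooth (hG ι Vx H).1 fun x hx => (h x hx).1
  exact ⟨G, h1, fun x hx => ((h x hx).congr (h2 x hx)).2⟩

end

end Pool.Agent.P.MP_ac4909_gt.B.H
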