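import Pool.Agent.P.MP_ac4909_gt.B.H.API

/-! INJ1: JACLOC with P = E3, g a y = j y + ρ y • a, s = 1 at (0, x), x ∈ Γ; IsCompact.eventually_forall_of_forall_eventually gives: for a near 0 the determinant is positive on Γ.
Bad vectors: a = (ρ x - ρ y)⁻¹ • (j y - j x) with x = γ i s, y = γ i' t, ρ x ≠ ρ y; dense_compl_surfaces with index ι × ι gives a good a near 0.
INJ: exists_embedding_euclidean_of_compact gives a smooth injective e : M → EuclideanSpace ℝ (Fin n). Induction over a list (or Finset) of coordinates i: there is a smooth j with positive determinant on Γ such that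
j x = j y (x, y ∈ Γ) implies e x i = e y i for all i in the list (apply INJ1 with ρ = e · i; j x + ρ x • a = j y + ρ y • a gives ρ x = ρ y and then j x = j y).
Then InjOn j Γ; exists_injOn and Set.InjOn.exists_isOpen_superset; intersect with the open set {det > 0} (JACLOC with P = ℝ and g constant in the parameter). -/

namespace Pool.Agent.P.MP_ac4909_gt.B.H

open scoped Manifold ContDiff Topology RealInnerProductSpace
open Set Metric Filter

noncomputable section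

namespace RINJ

variable {M : Type*} [TopologicalSpace M] [ChartedSpace E3 M]

theorem isOpen_pos (hJ : S_JACLOC M E3) {j : M → E3} (hj : ContMDiff (𝓡 3) (𝓡 3) ∞ j) :
    IsOpen {x | 0 < (jac j x).det} := by
  refine isOpen_iff_mem_nhds.2 fun x hx => ?_
  have h1 := hJ ℝ (fun _ => j) 0 x 1 (hj.comp contMDiff_snd _) (by rwa [one_mul])
  filter_upwards [(continuous_const.prodMk continuous_id).continuousAt.eventually h1] with y hy
  rwa [one_mul] at hy

theorem step (h1 : S_INJ1 M) {ι : Type} [Fintype ι] {Γ : Set M} {γ : ι → ℝ → M} {j₀ : M → E3}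
    (hΓ : IsCompact Γ) (hγ : ∀ i, ContMDiff 𝓘(ℝ, ℝ) (𝓡 3) ∞ (γ i)) (hc : Γ ⊆ ⋃ i, range (γ i))
    (hj₀ : ContMDiff (𝓡 3) (𝓡 3) ∞ j₀) (hp : ∀ x ∈ Γ, 0 < (jac j₀ x).det) {κ : Type}
    {ρ : κ → M → ℝ} (hρ : ∀ k, ContMDiff (𝓡 3) 𝓘(ℝ, ℝ) ∞ (ρ k)) (l : List κ) :
    ∃ j : M → E3, ContMDiff (𝓡 3) (𝓡 3) ∞ j ∧ (∀ x ∈ Γ, 0 < (jac j x).det) ∧
      ∀ x ∈ Γ, ∀ y ∈ Γ, j x = j y → ∀ k ∈ l, ρ k x = ρ k y := by
  induction l with
  | nil => exact ⟨j₀, hj₀, hp, fun _ _ _ _ _ _ hk => absurd hk List.not_mem_nil⟩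
  | cons k l ih =>
    obtain ⟨j, a1, a2, a3⟩ := ih
    obtain ⟨a, b1, b2⟩ := h1 ι Γ γ j (ρ k) hΓ hγ hc a1 (hρ k) a2
    refine ⟨fun y => j y + ρ k y • a, a1.add ((hρ k).smul contMDiff_const), b1,
      fun x hx y hy h k' hk' => ?_⟩
    have h2 := b2 x hx y hy h
    rcases List.mem_cons.1 hk' with rfl | h3
    · exact h2
    · simp only [h2, add_left_inj] at h
      exact a3 x hx y hy h k' h3

end RINJ

theorem inj1_of (M : Type*) [TopologicalSpace M] [T2Space M] [CompactSpace M] [ChartedSpace E3 M]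
    [IsManifold (𝓡 3) ∞ M] (hM : OrientedAtlas M)
    (hJ : S_JACLOC M E3) : S_INJ1 M := by
  intro ι _ Γ γ j ρ hΓ hγ hc hj hρ hp
  have h1 : ContMDiff (𝓘(ℝ, E3).prod (𝓡 3)) (𝓡 3) ∞ fun z : E3 × M => j z.2 + ρ z.2 • z.1 :=
    (hj.comp contMDiff_snd).add ((hρ.comp contMDiff_snd).smul contMDiff_fst)
  have h2 : ∀ᶠ a in 𝓝 (0 : E3), ∀ x ∈ Γ, 0 < (jac (fun y => j y + ρ y • a) x).det := by
    refine hΓ.eventually_forall_of_forall_eventually fun x hx => ?_
    have h3 := hJ E3 (fun a y => j y + ρ y • a) 0 x 1 (h1 _) (by simpa using hp x hx)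
    simpa only [one_mul] using h3
  have c1 : ∀ i, ContDiff ℝ ∞ fun s => j (γ i s) := fun i => (hj.comp (hγ i)).contDiff
  have c2 : ∀ i, ContDiff ℝ ∞ fun s => ρ (γ i s) := fun i => (hρ.comp (hγ i)).contDiff
  have h4 := dense_compl_surfaces (ι := ι × ι)
    (fun i p => (ρ (γ i.1 p.1) - ρ (γ i.2 p.2))⁻¹ • (j (γ i.2 p.2) - j (γ i.1 p.1)))
    (fun i => {p | ρ (γ i.1 p.1) - ρ (γ i.2 p.2) ≠ 0}) fun i p hp =>
      ContDiffAt.of_le (n := ∞) (((((c2 i.1).comp contDiff_fst).sub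
        ((c2 i.2).comp contDiff_snd)).contDiffAt.inv hp).smul
        (((c1 i.2).comp contDiff_snd).sub ((c1 i.1).comp contDiff_fst)).contDiffAt) (by simp)
  obtain ⟨a, ha, ha'⟩ := h4.inter_nhds_nonempty h2
  refine ⟨a, ha', fun x hx y hy h => ?_⟩
  by_contra hne
  obtain ⟨i, s, rfl⟩ := mem_iUnion.1 (hc hx)
  obtain ⟨i', t, rfl⟩ := mem_iUnion.1 (hc hy)
  refine ha (mem_iUnion.2 ⟨(i, i'), (s, t), sub_ne_zero.2 hne, ?_⟩)
  rw [inv_smul_eq_iff₀ (sub_ne_zero.2 hne), sub_smul, sub_eq_sub_iff_add_eq_add]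
  exact h.symm.trans (add_comm _ _)

theorem inj_of (M : Type*) [TopologicalSpace M] [T2Space M] [CompactSpace M] [ChartedSpace E3 M]
    [IsManifold (𝓡 3) ∞ M] (hM : OrientedAtlas M)
    (hJ : S_JACLOC M E3) (h1 : S_INJ1 M) : S_INJ M := by
  intro ι _ Γ γ j₀ hΓ hγ hc hj₀ hp
  obtain ⟨n, e, e1, e2, -⟩ := exists_embedding_euclidean_of_compact (I := 𝓡 3) (M := M)
  obtain ⟨j, a1, a2, a3⟩ := RINJ.step h1 hΓ hγ hc hj₀ hp (ρ := fun k x => e x k)
    (fun k => (EuclideanSpace.proj (𝕜 := ℝ) k).contDiff.contMDiff.comp e1) (List.finRange n)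
  have h2 : InjOn j Γ := fun x hx y hy h =>
    e2.injective (PiLp.ext fun k => a3 x hx y hy h k (List.mem_finRange k))
  obtain ⟨U, u1, u2, u3⟩ := h2.exists_isOpen_superset hΓ (fun x _ => a1.continuous.continuousAt)
    fun x hx => exists_injOn hM a1 (a2 x hx).ne'
  exact ⟨j, U ∩ {x | 0 < (jac j x).det}, a1, u1.inter (RINJ.isOpen_pos hJ a1),
    subset_inter u2 a2, u3.mono inter_subset_left, fun x hx => hx.2⟩

end

end Pool.Agent.P.MP_ac4909_gt.B.H
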