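import Pool.Agent.P.MP_ac4909_gt.B.H.API

/-! Local constancy of the sign. Take positive charts c at x₀ and c' at g p₀ x₀ (exists_pc). G (p, q) = c'.symm (g p (c q)) is ContDiffAt ℝ 1 at (p₀, q₀), so near that point G is
differentiable and z ↦ (fderiv G z).comp inr is continuous at (p₀,q₀) (ContDiffAt.continuousAt_fderiv or ContDiffAt.fderiv_right, ContinuousLinearMap.continuous_det).
Near (p₀,x₀) the map g is ContMDiffAt of order 1 (of_le, then contMDiffAt_iff_contMDiffAt_nhds / ContMDiffAt.eventually), so with q = c.symm x,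
det (fderiv (G (p, ·)) q) = det (jac c'.symm _) * det (jac (g p) x) * det (jac c q) (det_jac_comp, jac_eq_fderiv), outer factors positive (pc_det_symm_pos). -/

namespace Pool.Agent.P.MP_ac4909_gt.B.H

open scoped Manifold ContDiff Topology RealInnerProductSpace
open Set Metric Filter

noncomputable section

namespace RJACLOC

theorem sign_iff {s a b d : ℝ} (ha : 0 < a) (hb : 0 < b) : 0 < s * (a * (d * b)) ↔ 0 < s * d := by
  rw [show s * (a * (d * b)) = (a * b) * (s * d) by ring]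
  exact mul_pos_iff_of_pos_left (mul_pos ha hb)

variable {M N : Type*} [TopologicalSpace M] [ChartedSpace E3 M] [TopologicalSpace N]
  [ChartedSpace E3 N]

theorem chart_iff {c : OpenPartialHomeomorph E3 M} {c' : OpenPartialHomeomorph E3 N}
    (hc : IsPChart c) (hc' : IsPChart c') {f : M → N} {x : M} (hx : x ∈ c.target)
    (hy : f x ∈ c'.target) (hf : MDifferentiableAt (𝓡 3) (𝓡 3) f x) (s : ℝ) :
    0 < s * (fderiv ℝ (fun q => c'.symm (f (c q))) (c.symm x)).det ↔ 0 < s * (jac f x).det := by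
  have hq : c.symm x ∈ c.source := c.map_target hx
  have e : c (c.symm x) = x := c.right_inv hx
  have h1 : MDifferentiableAt (𝓡 3) (𝓡 3) f (c (c.symm x)) := by rw [e]; exact hf
  have h2 : MDifferentiableAt (𝓡 3) (𝓡 3) (fun q => f (c q)) (c.symm x) :=
    h1.comp _ (pc_md hc hq)
  have h3 : f (c (c.symm x)) ∈ c'.target := by rw [e]; exact hy
  rw [← jac_eq_fderiv, det_jac_comp (g := c'.symm) (f := fun q => f (c q)) (pc_symm_md hc' h3) h2,
    det_jac_comp h1 (pc_md hc hq), sign_iff (pc_det_symm_pos hc' h3) (hc.pos _ hq), e]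

end RJACLOC

theorem jacloc_of (M N : Type*) [TopologicalSpace M] [ChartedSpace E3 M] [IsManifold (𝓡 3) ∞ M]
    [TopologicalSpace N] [ChartedSpace E3 N] [IsManifold (𝓡 3) ∞ N] (hM : OrientedAtlas M)
    (hN : OrientedAtlas N) : S_JACLOC M N := by
  intro P _ _ g p₀ x₀ s hg hs
  obtain ⟨c, q₀, hc, hq₀, rfl⟩ := exists_pc hM x₀
  obtain ⟨c', q₁, hc', hq₁, e1⟩ := exists_pc hN (g p₀ (c q₀))
  have ht : c q₀ ∈ c.target := c.map_source hq₀
  have ht' : g p₀ (c q₀) ∈ c'.target := e1 ▸ c'.map_source hq₁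
  have a1 : ContMDiffAt 𝓘(ℝ, (P × E3) × E3) (𝓘(ℝ, P).prod (𝓡 3)) ∞
      (fun z : (P × E3) × E3 => (z.1.1, c z.2)) ((p₀, q₀), q₀) :=
    (contDiff_fst.fst.contMDiff.contMDiffAt).prodMk
      ((pc_at hc hq₀).comp (((p₀, q₀), q₀) : (P × E3) × E3) contDiff_snd.contMDiff.contMDiffAt)
  have a2 : ContMDiffAt 𝓘(ℝ, (P × E3) × E3) (𝓡 3) ∞
      (fun z : (P × E3) × E3 => g z.1.1 (c z.2)) ((p₀, q₀), q₀) :=
    hg.comp (((p₀, q₀), q₀) : (P × E3) × E3) a1
  have a3 : ContDiffAt ℝ ∞ (fun z : (P × E3) × E3 => c'.symm (g z.1.1 (c z.2))) ((p₀, q₀), q₀) :=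
    contMDiffAt_iff_contDiffAt.1
      ((pc_symm_at hc' ht').comp (((p₀, q₀), q₀) : (P × E3) × E3) a2)
  have a4 : ContinuousAt
      (fun z : P × E3 => fderiv ℝ (fun q => c'.symm (g z.1 (c q))) z.2) (p₀, q₀) :=
    (ContDiffAt.fderiv (m := 0) (f := fun (z : P × E3) (q : E3) => c'.symm (g z.1 (c q)))
      (g := fun z : P × E3 => z.2) a3 contDiffAt_snd (by simp)).continuousAt
  have a5 : ContinuousAt (fun z : P × M => (z.1, c.symm z.2)) (p₀, c q₀) :=
    continuousAt_fst.prodMk ((c.continuousAt_symm ht).comp_of_eq continuousAt_snd rfl)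
  have a6 : ContinuousAt
      (fun z : P × M => s * (fderiv ℝ (fun q => c'.symm (g z.1 (c q))) (c.symm z.2)).det)
      (p₀, c q₀) :=
    continuousAt_const.mul (ContinuousLinearMap.continuous_det.continuousAt.comp
      (a4.comp_of_eq a5 (by simp only [c.left_inv hq₀])))
  have b1 : ∀ᶠ z in 𝓝 (p₀, c q₀), ContMDiffAt (𝓘(ℝ, P).prod (𝓡 3)) (𝓡 3) 1
      (fun z : P × M => g z.1 z.2) z :=
    (contMDiffAt_iff_contMDiffAt_nhds (by simp)).1 (hg.of_le (by simp))
  have b2 : ∀ᶠ z in 𝓝 (p₀, c q₀), MDifferentiableAt (𝓡 3) (𝓡 3) (g z.1) z.2 :=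
    b1.mono fun z hz =>
      (hz.comp z.2 (contMDiffAt_const.prodMk contMDiffAt_id)).mdifferentiableAt one_ne_zero
  have b3 : ∀ᶠ z : P × M in 𝓝 (p₀, c q₀), z.2 ∈ c.target :=
    continuousAt_snd.eventually (c.open_target.mem_nhds ht)
  have b4 : ∀ᶠ z : P × M in 𝓝 (p₀, c q₀), g z.1 z.2 ∈ c'.target :=
    hg.continuousAt.eventually (c'.open_target.mem_nhds ht')
  have b5 := continuousAt_const.eventually_lt a6
    ((RJACLOC.chart_iff hc hc' ht ht' b2.self_of_nhds s).2 hs)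
  filter_upwards [b2, b3, b4, b5] with z h2 h3 h4 h5
  exact (RJACLOC.chart_iff hc hc' h3 h4 h2 s).1 h5

end

end Pool.Agent.P.MP_ac4909_gt.B.H
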