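import Pool.Agent.P.MP_ac4909_gt.B.H.API

/-! Extension along the axis. A z = fderiv g (ax z) is ContDiffAt for |z| ≥ 1. θ smooth, θ z = 3/2 for z ≤ 1, θ z = z for z ≥ 2, θ ≥ 1 everywhere
(θ z = 3/2 + smoothTransition (z-1) (z - 3/2); check θ ≥ 1 on [1,2]). A₊ z = A (θ z), A₋ z = A (-θ (-z)) are smooth on ℝ. With Q from PATH for A (-3/2), A (3/2) and
D = g (ax 2) - g (ax (-2)) - ∫ in -2..-1, A₋ ez - ∫ in 1..2, A₊ ez, put P z = Q z + (A₊ z - A (3/2)) + (A₋ z - A (-3/2)); P = A₊ on [1,∞), Q on [-1,1], A₋ on (-∞,-1].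
c z = g (ax (-2)) + ∫ in -2..z, P ez is smooth (contDiff_infty_iff_deriv), c 2 = g (ax 2) and c z = g (ax z) for |z| ≥ 2 (same derivative, hasDerivAt_ax).
Lin p = c (p 2) + P (p 2) (p - ax (p 2)) is smooth with fderiv P z at ax z. J p = Lin p + χ (p 2) • (g p - Lin p), χ = 0 on |z| ≤ 2, 1 on |z| ≥ 3.
At ax z with |z| ≥ 2 both g - Lin and its derivative vanish, so fderiv J (ax z) = P z always (for |z| < 2, J = Lin near ax z). -/

namespace Pool.Agent.P.MP_ac4909_gt.B.H

open scoped Manifold ContDiff Topology RealInnerProductSpace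
open Set Metric Filter

noncomputable section

namespace RJET

/-- the retraction of the line to the right end -/
def th (z : ℝ) : ℝ := 3 / 2 + Real.smoothTransition (z - 1) * (z - 3 / 2)

theorem th_smooth : ContDiff ℝ ∞ th :=
  contDiff_const.add ((Real.smoothTransition.contDiff.comp (contDiff_id.sub contDiff_const)).mul
    (contDiff_id.sub contDiff_const))

theorem th_of_le {z : ℝ} (h : z ≤ 1) : th z = 3 / 2 := by
  rw [th, Real.smoothTransition.zero_of_nonpos (by linarith)]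
  ring

theorem th_of_ge {z : ℝ} (h : 2 ≤ z) : th z = z := by
  rw [th, Real.smoothTransition.one_of_one_le (by linarith)]
  ring

theorem one_le_th (z : ℝ) : 1 ≤ th z := by
  rcases le_total z 1 with h | h
  · rw [th_of_le h]
    norm_num
  · have h0 := Real.smoothTransition.nonneg (z - 1)
    have h1 := Real.smoothTransition.le_one (z - 1)
    rw [th]
    nlinarith [mul_nonneg h0 (sub_nonneg.2 h)]

theorem path (hP : S_PATH) {A : ℝ → E3 →L[ℝ] E3} (hA : ∀ z, 1 ≤ |z| → ContDiffAt ℝ ∞ A z)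
    (hd : ∀ z, 1 ≤ |z| → 0 < (A z).det) (D : E3) :
    ∃ P : ℝ → E3 →L[ℝ] E3, ContDiff ℝ ∞ P ∧ (∀ z, 0 < (P z).det) ∧ (∀ z, 2 ≤ |z| → P z = A z) ∧
      ∫ t in (-2 : ℝ)..2, P t ez = D := by
  have h1 : ∀ z, 1 ≤ |th z| := fun z => (one_le_th z).trans (le_abs_self _)
  have h2 : ∀ z, 1 ≤ |-th (-z)| := fun z => by rw [abs_neg]; exact h1 _
  have hp : ContDiff ℝ ∞ fun z => A (th z) :=
    contDiff_iff_contDiffAt.2 fun z => (hA _ (h1 z)).comp z th_smooth.contDiffAt
  have hm : ContDiff ℝ ∞ fun z => A (-th (-z)) :=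
    contDiff_iff_contDiffAt.2 fun z => (hA _ (h2 z)).comp (f := fun z => -th (-z)) z
      (th_smooth.comp contDiff_neg).neg.contDiffAt
  obtain ⟨Q, hQ, hQd, hQ1, hQ2, hQi⟩ := hP (A (-(3 / 2))) (A (3 / 2))
    (D - (∫ t in (-2 : ℝ)..(-1), A (-th (-t)) ez) - ∫ t in (1 : ℝ)..2, A (th t) ez)
    (hd _ (by norm_num [le_abs])) (hd _ (by norm_num [le_abs]))
  obtain ⟨P, hPe⟩ : ∃ P : ℝ → E3 →L[ℝ] E3,
      P = fun z => Q z + (A (th z) - A (3 / 2)) + (A (-th (-z)) - A (-(3 / 2))) := ⟨_, rfl⟩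
  have hs : ContDiff ℝ ∞ P := by
    rw [hPe]
    exact (hQ.add (hp.sub contDiff_const)).add (hm.sub contDiff_const)
  have e1 : ∀ z, 1 ≤ z → P z = A (th z) := fun z hz => by
    simp only [hPe]
    rw [hQ2 z hz, th_of_le (z := -z) (by linarith)]
    abel
  have e2 : ∀ z, z ≤ -1 → P z = A (-th (-z)) := fun z hz => by
    simp only [hPe]
    rw [hQ1 z hz, th_of_le (z := z) (by linarith)]
    abel
  have e3 : ∀ z, -1 ≤ z → z ≤ 1 → P z = Q z := fun z hz hz' => by
    simp only [hPe]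
    rw [th_of_le hz', th_of_le (z := -z) (by linarith)]
    abel
  refine ⟨P, hs, fun z => ?_, fun z hz => ?_, ?_⟩
  · rcases le_total 1 z with h | h
    · rw [e1 z h]
      exact hd _ (h1 z)
    · rcases le_total z (-1) with h' | h'
      · rw [e2 z h']
        exact hd _ (h2 z)
      · rw [e3 z h' h]
        exact hQd z
  · rcases le_abs'.1 hz with h | h
    · rw [e2 z (by linarith), th_of_ge (by linarith), neg_neg]
    · rw [e1 z (by linarith), th_of_ge h]
  · have hc : ∀ a b, IntervalIntegrable (fun t => P t ez) MeasureTheory.volume a b := fun a b =>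
      (hs.continuous.clm_apply continuous_const).intervalIntegrable a b
    rw [← intervalIntegral.integral_add_adjacent_intervals (hc (-2) (-1)) (hc (-1) 2),
      ← intervalIntegral.integral_add_adjacent_intervals (hc (-1) 1) (hc 1 2)]
    have i1 : ∫ t in (-2 : ℝ)..(-1), P t ez = ∫ t in (-2 : ℝ)..(-1), A (-th (-t)) ez :=
      intervalIntegral.integral_congr fun t ht => by
        rw [uIcc_of_le (by norm_num)] at ht
        simp only [e2 t ht.2]
    have i2 : ∫ t in (-1 : ℝ)..1, P t ez = ∫ t in (-1 : ℝ)..1, Q t ez :=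
      intervalIntegral.integral_congr fun t ht => by
        rw [uIcc_of_le (by norm_num)] at ht
        simp only [e3 t ht.1 ht.2]
    have i3 : ∫ t in (1 : ℝ)..2, P t ez = ∫ t in (1 : ℝ)..2, A (th t) ez :=
      intervalIntegral.integral_congr fun t ht => by
        rw [uIcc_of_le (by norm_num)] at ht
        simp only [e1 t ht.1]
    rw [i1, i2, i3, hQi]
    abel

theorem curve {γ v : ℝ → E3} (hv : ContDiff ℝ ∞ v) (hγ : ∀ z, 2 ≤ |z| → HasDerivAt γ (v z) z)
    (hi : ∫ t in (-2 : ℝ)..2, v t = γ 2 - γ (-2)) :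
    ∃ c : ℝ → E3, ContDiff ℝ ∞ c ∧ (∀ z, HasDerivAt c (v z) z) ∧ ∀ z, 2 ≤ |z| → c z = γ z := by
  have hc : ∀ z, HasDerivAt (fun z => γ (-2) + ∫ t in (-2 : ℝ)..z, v t) (v z) z := fun z =>
    (hv.continuous.integral_hasStrictDerivAt (-2) z).hasDerivAt.const_add _
  have hI : ∀ a b, IntervalIntegrable v MeasureTheory.volume a b := fun a b =>
    hv.continuous.intervalIntegrable a b
  refine ⟨_, ?_, hc, fun z hz => ?_⟩
  · refine contDiff_infty_iff_deriv.2 ⟨fun z => (hc z).differentiableAt, ?_⟩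
    rw [funext fun z => (hc z).deriv]
    exact hv
  · rcases le_abs'.1 hz with h | h
    · rw [intervalIntegral.integral_eq_sub_of_hasDerivAt (f := γ) (fun t ht => ?_) (hI _ _),
        add_sub_cancel]
      rw [uIcc_of_ge h] at ht
      exact hγ t (le_abs'.2 (Or.inl ht.2))
    · rw [← intervalIntegral.integral_add_adjacent_intervals (hI (-2) 2) (hI 2 z), hi,
        intervalIntegral.integral_eq_sub_of_hasDerivAt (f := γ) (fun t ht => ?_) (hI _ _)]
      · abel
      · rw [uIcc_of_le h] at ht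
        exact hγ t (le_abs'.2 (Or.inr ht.1))

theorem ax_two (z : ℝ) : ax z 2 = z := rfl

theorem lin_fd {P : ℝ → E3 →L[ℝ] E3} {c : ℝ → E3} (hP : ContDiff ℝ ∞ P)
    (hc : ∀ z, HasDerivAt c (P z ez) z) (z : ℝ) :
    HasFDerivAt (fun p : E3 => c (p 2) + P (p 2) (p - ax (p 2))) (P z) (ax z) := by
  have hπ : HasFDerivAt (fun p : E3 => p 2) (EuclideanSpace.proj (2 : Fin 3) : E3 →L[ℝ] ℝ)
      (ax z) := (EuclideanSpace.proj (2 : Fin 3) : E3 →L[ℝ] ℝ).hasFDerivAt
  have h1 := (hc z).hasFDerivAt.comp (f := fun p : E3 => p 2) (ax z) hπ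
  have h2 := (hP.differentiable (by simp) z).hasFDerivAt.comp (f := fun p : E3 => p 2) (ax z) hπ
  have h3 := (hasFDerivAt_id (ax z)).sub
    ((hasDerivAt_ax z).hasFDerivAt.comp (f := fun p : E3 => p 2) (ax z) hπ)
  refine (h1.add (h2.clm_apply h3)).congr_fderiv ?_
  ext1 v
  simp

end RJET

theorem jet_of (hP : S_PATH) : S_JET := by
  intro g Ω hΩ hax hg hd
  have hga : ∀ p ∈ Ω, ContDiffAt ℝ ∞ g p := fun p hp => hg.contDiffAt (hΩ.mem_nhds hp)
  have hgd : ∀ z, 2 ≤ |z| → HasFDerivAt g (fderiv ℝ g (ax z)) (ax z) := fun z hz =>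
    ((hga _ (hax z (by linarith))).differentiableAt (by simp)).hasFDerivAt
  obtain ⟨P, hPs, hPd, hPA, hPi⟩ := RJET.path hP (A := fun z => fderiv ℝ g (ax z))
    (fun z hz => ((hga _ (hax z hz)).fderiv_right (m := ∞) le_rfl).comp z contDiff_ax.contDiffAt)
    hd (g (ax 2) - g (ax (-2)))
  obtain ⟨c, hcs, hcd, hce⟩ := RJET.curve (γ := fun z => g (ax z)) (v := fun z => P z ez)
    (hPs.clm_apply contDiff_const)
    (fun z hz => by
      rw [hPA z hz]
      exact (hgd z hz).comp_hasDerivAt z (hasDerivAt_ax z)) hPi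
  obtain ⟨L, hL⟩ : ∃ L : E3 → E3, L = fun p : E3 => c (p 2) + P (p 2) (p - ax (p 2)) := ⟨_, rfl⟩
  have hLs : ContDiff ℝ ∞ L := by
    rw [hL]
    exact (hcs.comp (contDiff_coord 2)).add ((hPs.comp (contDiff_coord 2)).clm_apply
      (contDiff_id.sub (contDiff_ax.comp (contDiff_coord 2))))
  have hLd : ∀ z, HasFDerivAt L (P z) (ax z) := fun z => by
    rw [hL]
    exact RJET.lin_fd hPs hcd z
  have hχ : ContDiff ℝ ∞ fun p : E3 => Real.smoothTransition ((p 2 ^ 2 - 4) / 5) :=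
    Real.smoothTransition.contDiff.comp ((((contDiff_coord 2).pow 2).sub contDiff_const).div_const 5)
  have hev : ∀ p : E3, |p 2| < 2 →
      (fun p : E3 => L p + Real.smoothTransition ((p 2 ^ 2 - 4) / 5) • (g p - L p)) =ᶠ[𝓝 p] L := by
    intro p hp
    filter_upwards [(isOpen_lt (continuous_coord 2).abs continuous_const).mem_nhds hp] with q hq
    have h1 : q 2 ^ 2 < 2 ^ 2 := sq_lt_sq' (abs_lt.1 hq).1 (abs_lt.1 hq).2
    rw [Real.smoothTransition.zero_of_nonpos (by linarith), zero_smul, add_zero]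
  refine ⟨fun p => L p + Real.smoothTransition ((p 2 ^ 2 - 4) / 5) • (g p - L p), ?_, fun z => ?_,
    fun p hp => ?_⟩
  · rintro p (hp | hp)
    · exact (hLs.contDiffAt.add (hχ.contDiffAt.smul
        ((hga p hp).sub hLs.contDiffAt))).contDiffWithinAt
    · exact (hLs.contDiffAt.congr_of_eventuallyEq (hev p hp)).contDiffWithinAt
  · rcases lt_or_ge |z| 2 with h | h
    · rw [(hev (ax z) h).fderiv_eq, (hLd z).fderiv]
      exact hPd z
    · have h0 : g (ax z) - L (ax z) = 0 := by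
        simp only [hL, RJET.ax_two, sub_self, map_zero, add_zero, hce z h]
      have h1 := (hLd z).add ((hχ.differentiable (by simp) (ax z)).hasFDerivAt.smul
        ((hgd z h).sub (hLd z)))
      have h2 : HasFDerivAt
          (fun p : E3 => L p + Real.smoothTransition ((p 2 ^ 2 - 4) / 5) • (g p - L p))
          (P z) (ax z) := by
        refine h1.congr_fderiv ?_
        ext1 v
        simp [h0, hPA z h]
      rw [h2.fderiv]
      exact hPd z
  · have h1 : 3 ^ 2 ≤ |p 2| ^ 2 := pow_le_pow_left₀ (by norm_num) hp 2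
    rw [sq_abs] at h1
    simp only
    rw [Real.smoothTransition.one_of_one_le (by linarith), one_smul, add_sub_cancel]

end

end Pool.Agent.P.MP_ac4909_gt.B.H
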