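import Pool.Agent.P.MP_ac4909_gt.B.H.API

/-! Smooth local flow in E3 (trick of Robbin). B = C(Icc (-1) 1, E3), I : B →L B, (I γ) s = ∫ u in 0..s, IccExtend γ u, ‖I‖ ≤ 1.
X is K-Lipschitz with ‖fderiv X‖ ≤ K (compact support). G (τ, x, γ) = (τ, x, γ - const x - τ • I (X ∘ γ)) is ContDiff ∞ on ℝ × E3 × B (NEM).
At p₀ = (0, q₀, const q₀) the derivative is invertible (triangular); invertible operators are open and fderiv G is continuous, so on an open
neighbourhood of p₀ the derivative is invertible: take e = ContDiffAt.toOpenPartialHomeomorph restricted to it and use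
OpenPartialHomeomorph.contDiffAt_symm at EVERY point of the target (ContDiffAt ∞ at one point does not spread). Γ (τ, x) = (e.symm (τ, x, 0)).2.2 is smooth
for (τ, x) near (0, q₀) and s ↦ Γ (τ,x) s solves γ' = τ X γ, γ 0 = x on [-1,1]. Put φ (τ, x) = Γ (τ, x) 1. For the derivative in time fix τ₀ > 0 small:
by uniqueness (ODE_solution_unique with the Lipschitz field τ X) Γ (τ,x) s = Γ (τ₀,x) (s τ/τ₀) for |τ| ≤ τ₀, so φ (τ,x) = Γ (τ₀,x) (τ/τ₀) has derivative X (φ (τ,x)).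
A complex version of the scheme is in outputs/live/Pool/Agent/P/MP_2ff09b_gt/F2.lean (copy, do not import). -/

namespace Pool.Agent.P.MP_ac4909_gt.B.H

open scoped Manifold ContDiff Topology RealInnerProductSpace
open Set Metric Filter

noncomputable section

namespace RLFLOW

/-- smooth right inverse on an open neighbourhood -/
theorem inv_on {E : Type*} [NormedAddCommGroup E] [NormedSpace ℝ E] [CompleteSpace E]
    {G : E → E} (hG : ContDiff ℝ ∞ G) {a : E} (L : E ≃L[ℝ] E)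
    (hL : HasFDerivAt G (L : E →L[ℝ] E) a) :
    ∃ (U : Set E) (g : E → E), IsOpen U ∧ G a ∈ U ∧ ContDiffOn ℝ ∞ g U ∧ ∀ y ∈ U, G (g y) = y := by
  let e := hG.contDiffAt.toOpenPartialHomeomorph G hL (by simp)
  have he : (e : E → E) = G := rfl
  have ha : a ∈ e.source := hG.contDiffAt.mem_toOpenPartialHomeomorph_source hL (by simp)
  have hW : IsOpen (fderiv ℝ G ⁻¹' range ((↑) : (E ≃L[ℝ] E) → E →L[ℝ] E)) :=
    ContinuousLinearEquiv.isOpen.preimage (hG.continuous_fderiv (by simp))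
  refine ⟨e.target ∩ e.symm ⁻¹' _, e.symm, e.symm.isOpen_inter_preimage hW,
    ⟨e.map_source ha, ?_⟩, fun y hy => ?_, fun y hy => e.right_inv hy.1⟩
  · rw [mem_preimage, ← he, e.left_inv ha]
    exact ⟨L, hL.fderiv.symm⟩
  · obtain ⟨L', hL'⟩ := hy.2
    refine (e.contDiffAt_symm (f₀' := L') hy.1 ?_ hG.contDiffAt).contDiffWithinAt
    rw [hL']
    exact (hG.differentiable (by simp) _).hasFDerivAt

theorem hle : (-1 : ℝ) ≤ 1 := by norm_num

theorem cont (v : C(Icc (-1 : ℝ) 1, E3)) : Continuous (IccExtend hle v) :=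
  v.continuous.Icc_extend'

theorem der (v : C(Icc (-1 : ℝ) 1, E3)) (t : ℝ) :
    HasDerivAt (fun t => ∫ s in (0 : ℝ)..t, IccExtend hle v s) (IccExtend hle v t) t :=
  ((cont v).integral_hasStrictDerivAt 0 t).hasDerivAt

/-- The primitive as a linear map. -/
def int₀ : C(Icc (-1 : ℝ) 1, E3) →ₗ[ℝ] C(Icc (-1 : ℝ) 1, E3) where
  toFun v := ⟨fun t => ∫ s in (0 : ℝ)..t, IccExtend hle v s,
    (continuous_iff_continuousAt.2 fun t => (der v t).continuousAt).comp
      continuous_subtype_val⟩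
  map_add' v w := ContinuousMap.ext fun _ =>
    intervalIntegral.integral_add ((cont v).intervalIntegrable _ _)
      ((cont w).intervalIntegrable _ _)
  map_smul' a v := ContinuousMap.ext fun _ =>
    intervalIntegral.integral_smul a (IccExtend hle v)

theorem int_le (v : C(Icc (-1 : ℝ) 1, E3)) : ‖int₀ v‖ ≤ 1 * ‖v‖ := by
  refine (ContinuousMap.norm_le _ (by positivity)).2 fun t => ?_
  refine (intervalIntegral.norm_integral_le_of_norm_le_const (C := ‖v‖)
    fun s _ => v.norm_coe_le_norm _).trans ?_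
  rw [sub_zero, one_mul]
  exact mul_le_of_le_one_right (norm_nonneg _) (abs_le.2 t.2)

/-- The primitive as a bounded operator. -/
def int : C(Icc (-1 : ℝ) 1, E3) →L[ℝ] C(Icc (-1 : ℝ) 1, E3) := int₀.mkContinuous 1 int_le

/-- a smooth family of solutions of the rescaled equation -/
theorem fam (hN : S_NEM) {X : E3 → E3} (q₀ : E3) (hX : ContDiff ℝ ∞ X) :
    ∃ (U : Set (ℝ × E3)) (c : ℝ × E3 → ℝ → E3), IsOpen U ∧ (0, q₀) ∈ U ∧
      ContDiffOn ℝ ∞ (fun p => c p 1) U ∧ ∀ p ∈ U, c p 0 = p.2 ∧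
        ∀ s ∈ Icc (-1 : ℝ) 1, HasDerivAt (c p) (p.1 • X (c p s)) s := by
  obtain ⟨N, hN1, hN2⟩ : ∃ N : C(Icc (-1 : ℝ) 1, E3) → C(Icc (-1 : ℝ) 1, E3),
      ContDiff ℝ ∞ N ∧ ∀ γ s, N γ s = X (γ s) := ⟨_, hN X hX, fun _ _ => rfl⟩
  obtain ⟨ι, hι⟩ : ∃ ι : E3 →L[ℝ] C(Icc (-1 : ℝ) 1, E3), ∀ z s, ι z s = z :=
    ⟨ContinuousLinearMap.const ℝ _, fun _ _ => rfl⟩
  let G : (ℝ × E3) × C(Icc (-1 : ℝ) 1, E3) → (ℝ × E3) × C(Icc (-1 : ℝ) 1, E3) :=
    fun z => (z.1, z.2 - ι z.1.2 - z.1.1 • int (N z.2))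
  have hI : ContDiff ℝ ∞ fun z : (ℝ × E3) × C(Icc (-1 : ℝ) 1, E3) => int (N z.2) :=
    int.contDiff.comp (hN1.comp contDiff_snd)
  have hG : ContDiff ℝ ∞ G := contDiff_fst.prodMk ((contDiff_snd.sub
    (ι.contDiff.comp contDiff_fst.snd)).sub (contDiff_fst.fst.smul hI))
  obtain ⟨U, g, hU, h0, hg, hr⟩ := inv_on hG (a := ((0, q₀), ι q₀))
    ((ContinuousLinearEquiv.refl ℝ _).skewProd (ContinuousLinearEquiv.refl ℝ _)
      (-(ι.comp (ContinuousLinearMap.snd ℝ ℝ E3)) -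
        (ContinuousLinearMap.fst ℝ ℝ E3).smulRight (int (N (ι q₀))))) (by
    have h1 := (hasFDerivAt_fst (𝕜 := ℝ) (p := (((0 : ℝ), q₀), ι q₀)))
    have h2 := h1.prodMk ((hasFDerivAt_snd.sub (ι.hasFDerivAt.comp _ h1.snd)).sub
      (h1.fst.smul (hI.differentiable (by simp) _).hasFDerivAt))
    refine h2.congr_fderiv (ContinuousLinearMap.ext fun v => Prod.ext rfl ?_)
    simp [sub_eq_add_neg, add_assoc])
  have hj : ContDiff ℝ ∞ fun p : ℝ × E3 => (p, (0 : C(Icc (-1 : ℝ) 1, E3))) :=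
    contDiff_id.prodMk contDiff_const
  have key : ∀ p : ℝ × E3, (p, 0) ∈ U → ∀ s : Icc (-1 : ℝ) 1,
      p.2 + p.1 • ∫ u in (0 : ℝ)..s, IccExtend hle (N (g (p, 0)).2) u = (g (p, 0)).2 s := by
    intro p hp s
    have h1 : (g (p, 0)).1 = p := congrArg Prod.fst (hr _ hp)
    have h2 : (g (p, 0)).2 s - ι (g (p, 0)).1.2 s -
        (g (p, 0)).1.1 • ∫ u in (0 : ℝ)..s, IccExtend hle (N (g (p, 0)).2) u = 0 :=
      DFunLike.congr_fun (congrArg Prod.snd (hr _ hp)) s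
    rw [h1, hι, sub_sub, sub_eq_zero] at h2
    exact h2.symm
  refine ⟨(fun p => (p, 0)) ⁻¹' U,
    fun p s => p.2 + p.1 • ∫ u in (0 : ℝ)..s, IccExtend hle (N (g (p, 0)).2) u,
    hU.preimage hj.continuous, ?_, ?_, fun p hp => ⟨by simp, fun s hs => ?_⟩⟩
  · have h1 : G ((0, q₀), ι q₀) = ((0, q₀), 0) :=
      Prod.ext rfl (ContinuousMap.ext fun s => by simp [G])
    rwa [h1] at h0
  · refine ContDiffOn.congr ?_ fun p hp => key p hp ⟨1, hle, le_rfl⟩
    exact (ContinuousMap.evalCLM ℝ (⟨1, hle, le_rfl⟩ : Icc (-1 : ℝ) 1)).contDiff.comp_contDiffOn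
      (hg.comp hj.contDiffOn fun p hp => hp).snd
  · have h1 := ((der (N (g (p, 0)).2) s).const_smul p.1).const_add p.2
    rw [IccExtend_of_mem _ _ hs, hN2, ← key p hp ⟨s, hs⟩] at h1
    exact h1

end RLFLOW

theorem lflow_of (hN : S_NEM) : S_LFLOW := by
  intro X q₀ hX hc
  obtain ⟨K, hK⟩ := hX.lipschitzWith_of_hasCompactSupport hc (by simp)
  obtain ⟨U, c, hU, h0, hs, hd⟩ := RLFLOW.fam hN q₀ hX
  obtain ⟨ε, hε, hb⟩ := Metric.nhds_basis_closedBall.mem_iff.1 (hU.mem_nhds h0)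
  have hm : ∀ t, |t| ≤ ε → ∀ q ∈ ball q₀ ε, (t, q) ∈ U := fun t ht q hq => hb (by
    rw [← closedBall_prod_same]
    exact ⟨by simpa using ht, ball_subset_closedBall hq⟩)
  have hA : ∀ t ∈ Ioo (-ε) ε, |t| ≤ ε := fun t ht => (abs_lt.2 ht).le
  have hβ : ∀ q ∈ ball q₀ ε, ∀ t, |t| ≤ ε →
      HasDerivAt (fun s => c (ε, q) (s / ε)) (X (c (ε, q) (t / ε))) t := fun q hq t ht => by
    have h1 := ((hd _ (hm ε (abs_of_pos hε).le q hq)).2 (t / ε) (abs_le.1 (by
      rwa [abs_div, abs_of_pos hε, div_le_one hε]))).scomp t ((hasDerivAt_id' t).div_const ε)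
    rwa [smul_smul, one_div_mul_cancel hε.ne', one_smul] at h1
  have hu : ∀ q ∈ ball q₀ ε, ∀ t, |t| ≤ ε → c (t, q) 1 = c (ε, q) (t / ε) := fun q hq t ht => by
    have h1 : ∀ s ∈ Icc (0 : ℝ) 1, HasDerivAt (c (t, q)) (t • X (c (t, q) s)) s := fun s h =>
      (hd _ (hm t ht q hq)).2 s ⟨by linarith [h.1], h.2⟩
    have h2 : ∀ s ∈ Icc (0 : ℝ) 1,
        HasDerivAt (fun s => c (ε, q) (t * s / ε)) (t • X (c (ε, q) (t * s / ε))) s :=
      fun s h => by
        have h3 := (hβ q hq (t * s) (by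
          rw [abs_mul, abs_of_nonneg h.1]
          exact (mul_le_of_le_one_right (abs_nonneg t) h.2).trans ht)).scomp s
          ((hasDerivAt_id' s).const_mul t)
        rwa [mul_one] at h3
    have h4 := ODE_solution_unique (v := fun _ y => t • X y)
      (fun _ => (lipschitzWith_smul t).comp hK)
      (fun s h => (h1 s h).continuousAt.continuousWithinAt)
      (fun s h => (h1 s (Ico_subset_Icc_self h)).hasDerivWithinAt)
      (fun s h => (h2 s h).continuousAt.continuousWithinAt)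
      (fun s h => (h2 s (Ico_subset_Icc_self h)).hasDerivWithinAt)
      (by rw [mul_zero, zero_div, (hd _ (hm t ht q hq)).1,
        (hd _ (hm ε (abs_of_pos hε).le q hq)).1]) (right_mem_Icc.2 zero_le_one)
    simpa using h4
  refine ⟨ε, fun p => c p 1, hε, hs.mono fun p hp => hm _ (hA _ hp.1) _ hp.2, fun q hq =>
    ⟨?_, fun t ht => ?_⟩⟩
  · exact (hu q hq 0 (by simpa using hε.le)).trans
      (by rw [zero_div, (hd _ (hm ε (abs_of_pos hε).le q hq)).1])
  · have h1 := hβ q hq t (hA t ht)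
    rw [← hu q hq t (hA t ht)] at h1
    refine h1.congr_of_eventuallyEq ?_
    filter_upwards [Ioo_mem_nhds ht.1 ht.2] with s h using hu q hq s (hA s h)

end

end Pool.Agent.P.MP_ac4909_gt.B.H
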