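import Pool.Agent.P.MP_ac4909_gt.B.H.API

/-! LIMIT: t ↦ f (Φ t x) is antitone (FL.antitone) and bounded, so it has a limit ℓ. A cluster point y of the orbit at atTop has f (Φ s y) = ℓ for all s (Φ s y is again a cluster point), so y = c k 0
for some k by F.anti. Hence the orbit is eventually in the open set ⋃ k, (c k).target (compactness: IsCompact.exists_mapClusterPt on the complement); the tail is preconnected and the targets are
disjoint and open, so it lies in one target k, and c k 0 is the only cluster point (IsCompact.tendsto_nhds_of_unique_mapClusterPt).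
STAB: eventually (t ≥ T) Φ t x ∈ c k '' ball 0 (1/2) (CD.image_ball_mem_nhds); Φ T x = c k q. If a k = 1 and rad q ≠ 0, or b k = 1 and q 2 ≠ 0, then ‖lf s q‖ is unbounded (rad_lf, rad_le_norm), so
‖lf s q‖ = 3/4 for some s ≥ 0 (intermediate_value_Icc); F.conj gives Φ (s+T) x = c k (lf s q), against CD.inj. -/

namespace Pool.Agent.P.MP_ac4909_gt.B.H

open scoped Manifold ContDiff Topology RealInnerProductSpace
open Set Metric Filter

noncomputable section

namespace RLIMSTAB

variable {M : Type*} [TopologicalSpace M] [ChartedSpace E3 M] {κ : Type}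

theorem cluster (F : FL M κ) {x y : M} (h : MapClusterPt y atTop fun t => F.Φ t x) :
    ∃ k, y = F.c k 0 := by
  by_contra hn
  push Not at hn
  have h1 : F.f (F.Φ 1 y) < F.f y := by
    simpa only [F.flow.zero] using F.anti y hn (show (0 : ℝ) < 1 by norm_num)
  obtain ⟨m, m1, m2⟩ := exists_between h1
  obtain ⟨t₀, ht₀⟩ := (h.frequently (p := fun z => F.f (F.Φ 1 z) < m)
    ((isOpen_lt (F.f_cont.comp (F.flow.continuous_space 1)) continuous_const).mem_nhds m1)).exists
  obtain ⟨t, ht, ht'⟩ := ((h.frequently (p := fun z => m < F.f z)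
    ((isOpen_lt continuous_const F.f_cont).mem_nhds m2)).and_eventually
    (eventually_ge_atTop (1 + t₀))).exists
  rw [← F.flow.add] at ht₀
  exact lt_asymm ht ((F.antitone x ht').trans_lt ht₀)

theorem one_le {r : ℝ} (hr : 0 < r) : 1 ≤ Real.exp (1 * r⁻¹) * r := by
  have h1 := mul_le_mul_of_nonneg_right (Real.add_one_le_exp r⁻¹) hr.le
  rw [add_mul, inv_mul_cancel₀ hr.ne'] at h1
  rw [one_mul]
  linarith

end RLIMSTAB

theorem limit_of (M : Type*) [TopologicalSpace M] [T2Space M] [CompactSpace M] [ChartedSpace E3 M]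
    [IsManifold (𝓡 3) ∞ M] (hM : OrientedAtlas M) : S_LIMIT M := by
  intro κ _ F x
  have h0 : (0 : E3) ∈ ball (0 : E3) 1 := mem_ball_self one_pos
  have h1 : ∀ᶠ t in atTop, F.Φ t x ∈ ⋃ k, (F.c k).target := by
    by_contra hn
    obtain ⟨y, hy, hc⟩ := (isOpen_iUnion fun k => (F.c k).open_target).isClosed_compl.isCompact
      |>.exists_mapClusterPt_of_frequently (not_eventually.1 hn)
    obtain ⟨k, rfl⟩ := RLIMSTAB.cluster F hc
    exact hy (mem_iUnion.2 ⟨k, F.mem_target k h0⟩)
  obtain ⟨T, hT⟩ := eventually_atTop.1 h1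
  obtain ⟨k, hk⟩ := mem_iUnion.1 (hT T le_rfl)
  have h2 : (fun t => F.Φ t x) '' Ici T ⊆ (F.c k).target := by
    refine (isPreconnected_Ici.image _ (F.flow.continuous_time x).continuousOn)
      |>.subset_left_of_subset_union (F.c k).open_target
      (isOpen_biUnion (s := {k' | k ≠ k'}) fun k' _ => (F.c k').open_target)
      (disjoint_iUnion₂_right.2 fun k' hk' => F.disj hk') ?_ ⟨_, ⟨T, mem_Ici.2 le_rfl, rfl⟩, hk⟩
    rintro _ ⟨t, ht, rfl⟩
    obtain ⟨k', hk'⟩ := mem_iUnion.1 (hT t ht)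
    by_cases e : k = k'
    · exact Or.inl (e ▸ hk')
    · exact Or.inr (mem_biUnion e hk')
  refine ⟨k, isCompact_univ.tendsto_nhds_of_unique_mapClusterPt
    (Eventually.of_forall fun _ => mem_univ _) fun y _ hy => ?_⟩
  obtain ⟨k', rfl⟩ := RLIMSTAB.cluster F hy
  obtain ⟨t, ht, ht'⟩ := ((hy.frequently (p := fun z => z ∈ (F.c k').target)
    ((F.c k').open_target.mem_nhds (F.mem_target k' h0))).and_eventually
    (eventually_ge_atTop T)).exists
  by_cases e : k' = k
  · rw [e]
  · exact absurd (h2 ⟨t, ht', rfl⟩) (disjoint_left.1 (F.disj e) ht)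

theorem stab_of (M : Type*) [TopologicalSpace M] [T2Space M] [CompactSpace M] [ChartedSpace E3 M]
    [IsManifold (𝓡 3) ∞ M] (hM : OrientedAtlas M) : S_STAB M := by
  intro κ F x k h
  obtain ⟨T, hT⟩ := eventually_atTop.1 (h (F.image_ball_mem_nhds k one_half_pos))
  have hsub : ball (0 : E3) (1 / 2) ⊆ ball 0 1 := ball_subset_ball (by norm_num)
  obtain ⟨q, hq, e⟩ := hT T le_rfl
  have key : ∀ s, 0 ≤ s → ¬ 1 ≤ ‖lf (F.a k) (F.b k) s q‖ := fun s hs h1 => by
    have hc : Continuous fun s => ‖lf (F.a k) (F.b k) s q‖ :=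
      ((continuous_lf _ _).comp (continuous_id.prodMk continuous_const)).norm
    obtain ⟨u, hu, hu'⟩ := intermediate_value_Icc hs hc.continuousOn
      (show (3 / 4 : ℝ) ∈ Icc ‖lf (F.a k) (F.b k) 0 q‖ ‖lf (F.a k) (F.b k) s q‖ from ⟨by
      rw [lf_zero]
      linarith [mem_ball_zero_iff.1 hq], by linarith⟩)
    have h2 : lf (F.a k) (F.b k) u q ∈ ball (0 : E3) 1 :=
      mem_ball_zero_iff.2 (by linarith [show ‖lf (F.a k) (F.b k) u q‖ = 3 / 4 from hu'])
    obtain ⟨q', hq', e'⟩ := hT (u + T) (by linarith [hu.1])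
    beta_reduce at e e'
    rw [F.flow.add, ← e, F.conj k q u (hsub hq) h2] at e'
    rw [(F.inj (hsub hq') h2 e').2, mem_ball_zero_iff] at hq'
    linarith [show ‖lf (F.a k) (F.b k) u q‖ = 3 / 4 from hu']
  refine ⟨T, q, hsub hq, fun ha => rad_eq_zero_iff.1 ?_, fun hb => ?_, e.symm⟩
  · by_contra h1
    have h2 := (rad_nonneg q).lt_of_ne' h1
    refine key _ (inv_pos.2 h2).le (le_trans ?_ (rad_le_norm _))
    rw [rad_lf, ha]
    exact RLIMSTAB.one_le h2
  · by_contra h1
    have h2 := abs_pos.2 h1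
    refine key _ (inv_pos.2 h2).le (le_trans ?_ (abs_two_le_norm _))
    rw [hb, show ∀ t, lf (F.a k) 1 t q 2 = Real.exp (1 * t) * q 2 from fun _ => rfl, abs_mul,
      Real.abs_exp]
    exact RLIMSTAB.one_le h2

end

end Pool.Agent.P.MP_ac4909_gt.B.H
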