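import Pool.Agent.P.MP_ac4909_gt.B.H.API

/-! POS: det (jac (Φ t) x) ≠ 0 since Φ (-t) ∘ Φ t = id (det_jac_comp, jac_id, det_id). For fixed x the sets {t | 0 < det} and {t | 0 < -1 * det} are open (JACLOC with P = ℝ, s = 1 and s = -1, restricted to t ↦ (t,x)), disjoint, cover ℝ;
0 is in the first (IsPreconnected.subset_left_of_subset_union, or isClopen_iff).
MKFL: Φ from FLOW and POS. conj: the curve u ↦ c k (lf u q) stays in the chart for u ∈ uIcc 0 t (lf_mem_ball), has velocity ξ (pc_hasVel, hasDerivAt_lf, V.model); UNIQ.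
anti: zeros are fixed (conj with q = 0), so Φ t x is not a zero; HasVel.hasDerivAt_comp, V.dec, strictAnti_of_deriv_neg. -/

namespace Pool.Agent.P.MP_ac4909_gt.B.H

open scoped Manifold ContDiff Topology RealInnerProductSpace
open Set Metric Filter

noncomputable section

namespace RMKFL

end RMKFL

theorem pos_of (M : Type*) [TopologicalSpace M] [T2Space M] [CompactSpace M] [ChartedSpace E3 M]
    [IsManifold (𝓡 3) ∞ M] (hM : OrientedAtlas M)
    (hJ : S_JACLOC M M) : S_POS M := by
  intro Φ hs h0 ha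
  have hm : ∀ t x, MDifferentiableAt (𝓡 3) (𝓡 3) (Φ t) x := fun t x =>
    ((hs.comp (contMDiff_const.prodMk contMDiff_id)) x).mdifferentiableAt (by simp)
  refine ⟨hs, h0, ha, fun t x => ?_⟩
  have hne : ∀ t, (jac (Φ t) x).det ≠ 0 := fun t h => by
    have e := det_jac_comp (hm (-t) (Φ t x)) (hm t x)
    simp only [← ha, neg_add_cancel, h0, jac_id, det_id, h, mul_zero] at e
    exact one_ne_zero e
  have hop : ∀ s : ℝ, IsOpen {t | 0 < s * (jac (Φ t) x).det} := fun s =>
    isOpen_iff_mem_nhds.2 fun t ht =>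
      (Continuous.prodMk_left x).continuousAt.eventually (hJ ℝ Φ t x s (hs (t, x)) ht)
  have h := isPreconnected_univ.subset_left_of_subset_union (hop 1) (hop (-1))
    (disjoint_left.2 fun t h1 h2 => by
      simp only [mem_setOf_eq] at h1 h2
      linarith)
    (fun t _ => by
      rcases lt_or_gt_of_ne (hne t) with h | h
      · exact Or.inr (by simpa using h)
      · exact Or.inl (by simpa using h))
    ⟨0, mem_univ _, by
      rw [mem_setOf_eq, show Φ 0 = fun y => y from funext h0, jac_id, det_id]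
      norm_num⟩
  simpa using h (mem_univ t)

theorem mkfl_of (M : Type*) [TopologicalSpace M] [T2Space M] [CompactSpace M] [ChartedSpace E3 M]
    [IsManifold (𝓡 3) ∞ M] (hM : OrientedAtlas M)
    (hF : S_FLOW M) (hP : S_POS M) (hU : S_UNIQ M) : S_MKFL M := by
  intro κ V
  obtain ⟨Φ, hs, h0, ha, hv⟩ := hF V.ξ V.ξ_smooth
  have hΦ := hP Φ hs h0 ha
  have conj : ∀ k q t, q ∈ ball (0 : E3) 1 → lf (V.a k) (V.b k) t q ∈ ball (0 : E3) 1 →
      Φ t (V.c k q) = V.c k (lf (V.a k) (V.b k) t q) := fun k q t hq ht => by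
    have key : ∀ u ∈ uIcc 0 t, HasVel (fun s => V.c k (lf (V.a k) (V.b k) s q))
        (V.ξ (V.c k (lf (V.a k) (V.b k) u q))) u := fun u hu => by
      have hb := lf_mem_ball hq ht hu
      rw [V.model k _ hb]
      exact pc_hasVel (V.chart k) (hasDerivAt_lf _ _ u q) (V.source k ▸ hb)
    have h := hU V.ξ Φ V.ξ_smooth hΦ hv (fun s => V.c k (lf (V.a k) (V.b k) s q)) 0 t
      (fun u hu => (key u hu).continuousAt.continuousWithinAt) fun u hu => key u (uIoo_subset_uIcc_self hu)
    simpa only [sub_zero, lf_zero] using h.symm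
  refine ⟨{
    toCD := V.toCD, f := V.f, f_cont := V.f_smooth.continuous, Φ := Φ, flow := hΦ, conj := conj,
    anti := fun x hx => strictAnti_of_hasDerivAt_neg (fun t => (hv x t).hasDerivAt_comp
      ((V.f_smooth _).mdifferentiableAt (by simp))) fun t => V.dec _ fun k hk => hx k ?_ },
    rfl, rfl, hv⟩
  have h := conj k 0 t (mem_ball_self one_pos) (by rw [lf_origin]; exact mem_ball_self one_pos)
  rw [lf_origin] at h
  exact hΦ.injective t (hk.trans h.symm)

end

end Pool.Agent.P.MP_ac4909_gt.B.H
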