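import Pool.Agent.P.MP_ac4909_gt.B.H.API

/-! Gradient-like field. C, f from MKCD. exists_svf_of_local with c x = {v | (∀ k, ∀ q ∈ ball 0 (1/2), x = C.c k q → v = jac (C.c k) q (lin q)) ∧ ((∀ k, x ≠ C.c k 0) → df f x v < 0)} (convex).
If x is in the target of C.c k use pc_push of lin on the whole target (CD.target_eq, CD.inj). Otherwise x is not in the compact set B = ⋃ k, C.c k '' closedBall 0 (1/2) and df f x ≠ 0: take a chart e at x = e q₀ (exists_pc),
w with fderiv (f ∘ e) q₀ w < 0 (pc_df_eq_zero_iff), W an open neighbourhood of q₀ where fderiv (f ∘ e) q w < 0 and e q ∉ B, and pc_push of the constant field w (pc_fderiv_real).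
Finally rescale all charts by 1/2 (pc_scale, lin_smul); the targets shrink. -/

namespace Pool.Agent.P.MP_ac4909_gt.B.H

open scoped Manifold ContDiff Topology RealInnerProductSpace
open Set Metric Filter

noncomputable section

namespace RMKVD

end RMKVD

theorem mkvd_of (M : Type*) [TopologicalSpace M] [T2Space M] [CompactSpace M] [ChartedSpace E3 M]
    [IsManifold (𝓡 3) ∞ M] (hM : OrientedAtlas M)
    (hC : S_MKCD M) : S_MKVD M := by
  obtain ⟨κ, hκ, C, f, hf, h1, h2⟩ := hC
  have hh : ball (0 : E3) (1 / 2) ⊆ ball 0 1 := ball_subset_ball (by norm_num)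
  obtain ⟨ξ, hξ, h3⟩ := exists_svf_of_local (fun x : M => {v | (∀ k, ∀ q ∈ ball (0 : E3) (1 / 2),
      x = C.c k q → v = jac (C.c k) q (lin (C.a k) (C.b k) q)) ∧
      ((∀ k, x ≠ C.c k 0) → df f x v < 0)})
    (fun x v hv w hw a b ha hb hab => ⟨fun k q hq hx => by
      rw [hv.1 k q hq hx, hw.1 k q hq hx, Convex.combo_self hab], fun hx => by
      rw [map_add, map_smul, map_smul]
      exact convex_Iio (0 : ℝ) (hv.2 hx) (hw.2 hx) ha hb hab⟩) fun x => by
    by_cases hx : ∃ k, x ∈ (C.c k).target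
    · obtain ⟨k, hk⟩ := hx
      refine ⟨C.c k '' ball 0 1, C.target_eq k ▸ (C.c k).open_target.mem_nhds hk, _,
        pc_push (C.chart k) isOpen_ball (C.source k).ge
          (contDiff_lin (C.a k) (C.b k)).contDiffOn, ?_⟩
      rintro _ ⟨q, hq, rfl⟩
      rw [(C.c k).left_inv (C.source k ▸ hq)]
      refine ⟨fun k' q' hq' h => ?_, fun h => h2 k q hq fun h0 => h k (by rw [h0])⟩
      obtain ⟨rfl, rfl⟩ := C.inj hq (hh hq') h
      rfl
    · have hB : IsClosed (⋃ k, C.c k '' closedBall 0 (1 / 2)) :=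
        isClosed_iUnion_of_finite fun k => (C.isCompact_image k (isCompact_closedBall _ _)
          (closedBall_subset_ball (by norm_num))).isClosed
      obtain ⟨e, q₀, he, hq, rfl⟩ := exists_pc hM x
      have hd : ∀ y, MDifferentiableAt (𝓡 3) 𝓘(ℝ, ℝ) f y := hf.mdifferentiable (by simp)
      have h4 := (pc_df_eq_zero_iff he hq (hd _)).not.1
        (h1 _ fun k h => hx ⟨k, h ▸ C.mem_target k (mem_ball_self one_pos)⟩)
      obtain ⟨w, hw⟩ : ∃ w, fderiv ℝ (f ∘ e) q₀ w < 0 := by
        by_contra h5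
        refine h4 (ContinuousLinearMap.ext fun w => ?_)
        have a1 := not_lt.1 (not_exists.1 h5 w)
        have a2 := not_lt.1 (not_exists.1 h5 (-w))
        rw [map_neg] at a2
        exact le_antisymm (by simpa using a2) a1
      have hW := (((pc_contDiffOn he hf).continuousOn_fderiv_of_isOpen e.open_source
        (by simp)).clm_apply (continuousOn_const (c := w))).isOpen_inter_preimage e.open_source
        (isOpen_Iio (a := (0 : ℝ))) |>.inter (e.isOpen_inter_preimage hB.isOpen_compl)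
      refine ⟨_, e.image_mem_nhds hq (hW.mem_nhds ⟨⟨hq, hw⟩, hq, fun h => ?_⟩), _,
        pc_push he hW (fun q h => h.1.1) (contDiffOn_const (c := w)), ?_⟩
      · obtain ⟨k, q, h5, h6⟩ := mem_iUnion.1 h
        exact hx ⟨k, h6 ▸ C.mem_target k (closedBall_subset_ball (by norm_num) h5)⟩
      · rintro _ ⟨q, ⟨⟨a1, a2⟩, -, a3⟩, rfl⟩
        refine ⟨fun k q' h5 h6 => (a3 (mem_iUnion.2
          ⟨k, q', ball_subset_closedBall h5, h6.symm⟩)).elim, fun _ => ?_⟩
        rw [e.left_inv a1]
        rw [mem_preimage, pc_fderiv_real he a1 (hd _)] at a2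
        exact a2
  choose c a1 a2 a3 a4 a5 using fun k =>
    pc_scale (C.chart k) (C.source k) (r := 1 / 2) (by norm_num) (by norm_num)
  refine ⟨κ, hκ, ⟨⟨⟨c, C.a, C.b, a1, a2, C.a_sign, C.b_sign, fun k k' h => (C.disj h).mono ?_ ?_⟩,
    f, hf, ξ, hξ, fun k q hq => ?_, fun x hx => (h3 x).2 fun k h => hx k ?_⟩⟩⟩
  · rw [a4, C.target_eq]
    exact image_mono hh
  · rw [a4, C.target_eq]
    exact image_mono hh
  · refine ((h3 _).1 k ((1 / 2 : ℝ) • q) ?_ (a3 k q)).trans ?_
    · rw [mem_ball_zero_iff] at hq ⊢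
      rw [norm_smul, Real.norm_of_nonneg (by norm_num)]
      linarith
    · rw [lin_smul]
      exact (a5 k q hq _).symm
  · exact h.trans (by rw [a3, smul_zero])

end

end Pool.Agent.P.MP_ac4909_gt.B.H
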