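import Pool.Agent.P.MP_ac4909_gt.B.H.API

/-! Morse function. exists_cover gives charts c i and compact K i. ext_smooth for (c i).symm on c i '' K i gives h i : M → E3 smooth with h i ∘ c i = id on an open V i, K i ⊆ V i ⊆ source.
For a : Fin n → E3 let f a x = ∑ i, ⟪a i, h i x⟫. A i = {a | ∀ q ∈ K i, fderiv (f a ∘ c i) q = 0 → Injective (fderiv (fderiv (f a ∘ c i)) q)}.
Open: with u j = h j ∘ c i smooth on the source, fderiv (f a ∘ c i) q = ∑ j, (innerSL (a j)).comp (fderiv (u j) q) and its derivative in q are continuous in (a,q) (for instance: (a,q) ↦ f a (c i q) is ContDiffAt, ContDiffAt.fderiv twice);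
injectivity is open (ContinuousLinearMap.isOpen_injective); IsCompact.eventually_forall_of_forall_eventually. Dense: f (a + Pi.single i b) ∘ c i = f a ∘ c i + ⟪b, ·⟫ on V i, SARD gives small good b.
A finite intersection of open dense sets is dense (dense_iInter_of_isOpen, or Finset induction with Dense.inter_of_isOpen_left). -/

namespace Pool.Agent.P.MP_ac4909_gt.B.H

open scoped Manifold ContDiff Topology RealInnerProductSpace
open Set Metric Filter

noncomputable section

namespace RMORSE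

/-- the derivative in the second variable of a smooth map is smooth in both variables -/
theorem pd {P F : Type*} [NormedAddCommGroup P] [NormedSpace ℝ P] [NormedAddCommGroup F]
    [NormedSpace ℝ F] {G : P × E3 → F} {z : P × E3} (h : ContDiffAt ℝ ∞ G z) :
    ContDiffAt ℝ ∞ (fun w : P × E3 => fderiv ℝ (fun x => G (w.1, x)) w.2) z := by
  refine ContDiffAt.fderiv (f := fun (w : P × E3) (x : E3) => G (w.1, x)) (g := Prod.snd)
    (n := ∞) ?_ contDiffAt_snd (le_of_eq rfl)
  have h1 : ContDiffAt ℝ ∞ (fun w : (P × E3) × E3 => (w.1.1, w.2)) (z, z.2) :=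
    (contDiffAt_fst.fst).prodMk contDiffAt_snd
  exact ContDiffAt.comp (g := G) (f := fun w : (P × E3) × E3 => (w.1.1, w.2)) (z, z.2) h h1

/-- nondegeneracy on a compact set is an open condition on the parameter -/
theorem isOpen_good {P : Type*} [NormedAddCommGroup P] [NormedSpace ℝ P] {G : P × E3 → ℝ}
    {K : Set E3} (hK : IsCompact K) (h : ∀ a, ∀ q ∈ K, ContDiffAt ℝ ∞ G (a, q)) :
    IsOpen {a : P | ∀ q ∈ K, fderiv ℝ (fun x => G (a, x)) q = 0 →
      Function.Injective (fderiv ℝ (fderiv ℝ fun x => G (a, x)) q)} := by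
  refine isOpen_iff_eventually.2 fun a ha => ?_
  refine hK.eventually_forall_of_forall_eventually
    (P := fun a q => fderiv ℝ (fun x => G (a, x)) q = 0 →
      Function.Injective (fderiv ℝ (fderiv ℝ fun x => G (a, x)) q)) fun q hq => ?_
  have h1 := pd (h a q hq)
  have h2 := pd h1
  by_cases h0 : fderiv ℝ (fun x => G (a, x)) q = 0
  · have h3 := h2.continuousAt.eventually
      (ContinuousLinearMap.isOpen_injective.mem_nhds (ha q hq h0))
    exact h3.mono fun w hw _ => hw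
  · have h3 := h1.continuousAt.eventually_ne h0
    exact h3.mono fun w hw hw' => absurd hw' hw

/-- adding a linear form -/
theorem add_lin {g g' : E3 → ℝ} {V : Set E3} (hV : IsOpen V) (hg : ContDiffOn ℝ ∞ g V) (b : E3)
    (e : ∀ y ∈ V, g' y = g y + ⟪b, y⟫) {q : E3} (hq : q ∈ V) :
    fderiv ℝ g' q = fderiv ℝ g q + innerSL ℝ b ∧
      fderiv ℝ (fderiv ℝ g') q = fderiv ℝ (fderiv ℝ g) q := by
  have h1 : ∀ y ∈ V, fderiv ℝ g' y = fderiv ℝ g y + innerSL ℝ b := by
    intro y hy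
    have e1 : g' =ᶠ[𝓝 y] fun y => g y + innerSL ℝ b y :=
      (hV.eventually_mem hy).mono fun w hw => e w hw
    have d1 : DifferentiableAt ℝ g y :=
      (hg.contDiffAt (hV.mem_nhds hy)).differentiableAt (by simp)
    rw [e1.fderiv_eq]
    exact (d1.hasFDerivAt.add (innerSL ℝ b).hasFDerivAt).fderiv
  refine ⟨h1 q hq, ?_⟩
  have e2 : fderiv ℝ g' =ᶠ[𝓝 q] fun y => fderiv ℝ g y + innerSL ℝ b :=
    (hV.eventually_mem hq).mono fun w hw => h1 w hw
  rw [e2.fderiv_eq, fderiv_add_const]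

variable {M : Type*} [TopologicalSpace M] [ChartedSpace E3 M]

/-- the family of functions -/
def fam {n : ℕ} (h : Fin n → M → E3) (a : Fin n → E3) (x : M) : ℝ := ∑ j, ⟪a j, h j x⟫

theorem fam_smooth {n : ℕ} {h : Fin n → M → E3} (hh : ∀ j, ContMDiff (𝓡 3) (𝓡 3) ∞ (h j))
    (a : Fin n → E3) : ContMDiff (𝓡 3) 𝓘(ℝ, ℝ) ∞ (fam h a) :=
  contMDiff_finsetSum fun j _ => (innerSL ℝ (a j)).contDiff.comp_contMDiff (hh j)

theorem fam_joint {n : ℕ} {h : Fin n → M → E3} (hh : ∀ j, ContMDiff (𝓡 3) (𝓡 3) ∞ (h j))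
    {c : OpenPartialHomeomorph E3 M} (hc : IsPChart c) (a : Fin n → E3) {q : E3}
    (hq : q ∈ c.source) :
    ContDiffAt ℝ ∞ (fun w : (Fin n → E3) × E3 => fam h w.1 (c w.2)) (a, q) := by
  refine ContDiffAt.sum fun j _ => ContDiffAt.inner ℝ ?_ ?_
  · exact ((contDiff_apply ℝ E3 j).comp contDiff_fst).contDiffAt
  · exact ContDiffAt.comp (g := h j ∘ c) (f := Prod.snd) (a, q)
      (pc_contDiffAt hc hq (hh j _)) contDiffAt_snd

omit [TopologicalSpace M] [ChartedSpace E3 M] in
theorem fam_add {n : ℕ} (h : Fin n → M → E3) (a : Fin n → E3) (i : Fin n) (b : E3) (x : M) :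
    fam h (a + Pi.single i b) x = fam h a x + ⟪b, h i x⟫ := by
  simp only [fam, Pi.add_apply, inner_add_left, Finset.sum_add_distrib]
  congr 1
  rw [Finset.sum_eq_single i]
  · rw [Pi.single_eq_same]
  · intro j _ hj
    rw [Pi.single_eq_of_ne hj, inner_zero_left]
  · intro hi
    exact absurd (Finset.mem_univ i) hi

theorem dense_good (hS : S_SARD) {n : ℕ} {h : Fin n → M → E3}
    (hh : ∀ j, ContMDiff (𝓡 3) (𝓡 3) ∞ (h j)) {c : OpenPartialHomeomorph E3 M} (hc : IsPChart c)
    {K : Set E3} (hK : K ⊆ c.source) {i : Fin n} (hi : ∀ q ∈ K, h i =ᶠ[𝓝 (c q)] c.symm) :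
    Dense {a : Fin n → E3 | ∀ q ∈ K, fderiv ℝ (fam h a ∘ c) q = 0 →
      Function.Injective (fderiv ℝ (fderiv ℝ (fam h a ∘ c)) q)} := by
  set V : Set E3 := interior {q | h i (c q) = q} ∩ c.source with hVdef
  have hV : IsOpen V := isOpen_interior.inter c.open_source
  have hKV : K ⊆ V := by
    intro q hq
    refine ⟨mem_interior_iff_mem_nhds.2 ?_, hK hq⟩
    have h1 := (c.continuousAt (hK hq)).eventually (hi q hq)
    filter_upwards [h1, c.open_source.mem_nhds (hK hq)] with y hy hy'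
    rw [hy, c.left_inv hy']
  refine Metric.dense_iff.2 fun a r hr => ?_
  have hg : ContDiffOn ℝ ∞ (fam h a ∘ c) V :=
    (pc_contDiffOn hc (fam_smooth hh a)).mono inter_subset_right
  obtain ⟨b, hb, hb'⟩ := Metric.dense_iff.1 (hS _ V hV hg) 0 r hr
  refine ⟨a + Pi.single i b, ?_, fun q hq h0 => ?_⟩
  · rw [mem_ball, dist_self_add_left, Pi.norm_single]
    exact mem_ball_zero_iff.1 hb
  · have e : ∀ y ∈ V, (fam h (a + Pi.single i b) ∘ c) y = (fam h a ∘ c) y + ⟪b, y⟫ := by
      intro y hy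
      have hy' : h i (c y) = y := interior_subset (s := {q | h i (c q) = q}) hy.1
      rw [Function.comp_apply, fam_add, hy']
      rfl
    obtain ⟨e1, e2⟩ := add_lin hV hg b e (hKV hq)
    rw [e2]
    exact hb' q (hKV hq) (e1 ▸ h0)

end RMORSE

theorem morse_of (M : Type*) [TopologicalSpace M] [T2Space M] [CompactSpace M] [ChartedSpace E3 M]
    [IsManifold (𝓡 3) ∞ M] (hM : OrientedAtlas M)
    (hS : S_SARD) : S_MORSE M := by
  obtain ⟨n, c, K, hc, hK, hKs, hcov⟩ := exists_cover hM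
  have h1 : ∀ i, ∃ G : M → E3, ContMDiff (𝓡 3) (𝓡 3) ∞ G ∧
      ∀ x ∈ c i '' K i, G =ᶠ[𝓝 x] (c i).symm := by
    intro i
    refine ext_smooth ((hK i).image_of_continuousOn ((c i).continuousOn.mono (hKs i))) ?_
    rintro _ ⟨q, hq, rfl⟩
    filter_upwards [(c i).open_target.mem_nhds ((c i).map_source (hKs i hq))] with y hy
    exact pc_symm_at (hc i) hy
  choose h hh hh' using h1
  have hd : Dense (⋂ i, {a : Fin n → E3 | ∀ q ∈ K i, fderiv ℝ (RMORSE.fam h a ∘ c i) q = 0 →
      Function.Injective (fderiv ℝ (fderiv ℝ (RMORSE.fam h a ∘ c i)) q)}) :=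
    dense_iInter_of_isOpen
      (fun i => RMORSE.isOpen_good (G := fun w => RMORSE.fam h w.1 (c i w.2)) (hK i)
        fun a q hq => RMORSE.fam_joint hh (hc i) a (hKs i hq))
      fun i => RMORSE.dense_good hS hh (hc i) (hKs i) fun q hq => hh' i _ (mem_image_of_mem _ hq)
  obtain ⟨a, ha⟩ := hd.nonempty
  refine ⟨RMORSE.fam h a, RMORSE.fam_smooth hh a, fun x => ?_⟩
  obtain ⟨i, q, hq, rfl⟩ := hcov x
  exact ⟨c i, q, hc i, hKs i hq, rfl, mem_iInter.1 ha i q hq⟩

end

end Pool.Agent.P.MP_ac4909_gt.B.H
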