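import Pool.Agent.P.MP_ac4909_gt.B.H.API

/-! NORET: on the circle {rad = 1/2, q 2 = 0} we have f (c k p) < f (c k 0) (FL.tendsto_atBot, FL.lt_of_tendsto_atBot); by compactness f (c k p) < m < f (c k 0) there; exists_ring gives the same for |p 2| ≤ d,
and m < f (c k q') on ball 0 d, d ≤ 1/4. If sad s q is in the unit ball use FL.conj_sad and CD.inj. Otherwise rad (sad s q) > 1/2 (norm_le_rad_add), so rad (sad s₁ q) = 1/2 for some s₁ ∈ [0,s], and
f (c k q') = f (Φ s (c k q)) ≤ f (Φ s₁ (c k q)) < m (FL.antitone).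
BACK: prove part 1 with d ∈ ball 0 (1/2): Φ (-T) (c k (ax (σ/2))) ∈ c v '' ball 0 (1/2) for some T, an open condition in q. Part 2: K = ⋃ σ, Φ T_σ '' (c v_σ '' closedBall 0 (1/2)) is compact and misses c k' 0
(FL.eq_of_flow_eq_pt, CD.inj, b v = 1), so it misses c k' '' ball 0 d. Suppose Φ (-s) (c k q) = c k' q'. If exp s |q 2| ≤ 1/2 then sad (-s) q is in the unit ball, against CD.inj (k ≠ k').
Otherwise exists_sad_height gives r ∈ [0,s] with p = sad (-r) q of height σ/2, ‖p - ax (σ/2)‖ = rad p ≤ d < δ (norm_sub_ax), and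
Φ (-s) (c k q) = Φ (r - s) (Φ T (c v d₀)) = Φ T (c v (exp (r - s) • d₀)) ∈ K (FL.conj_source). -/

namespace Pool.Agent.P.MP_ac4909_gt.B.H

open scoped Manifold ContDiff Topology RealInnerProductSpace
open Set Metric Filter

noncomputable section

namespace RNORBACK

variable {M : Type*} [TopologicalSpace M] [ChartedSpace E3 M] {κ : Type} (F : FL M κ)

/-- A neighbourhood of the image of a point of the unit ball contains the image of a ball. -/
theorem exists_ball (k : κ) {O : Set M} (hO : IsOpen O) {q : E3} (hq : q ∈ ball (0 : E3) 1)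
    (h : F.c k q ∈ O) : ∃ δ : ℝ, 0 < δ ∧ ∀ p ∈ ball q δ, F.c k p ∈ O := by
  obtain ⟨δ, hδ, h'⟩ := Metric.isOpen_iff.1 (F.isOpen_preimage k hO) q ⟨hq, h⟩
  exact ⟨δ, hδ, fun p hp => (h' hp).2⟩

/-- A level that separates the saddle from a ring about the unstable circle. -/
theorem exists_level {k : κ} (ha : F.a k = 1) : ∃ m δ : ℝ, m < F.f (F.c k 0) ∧ 0 < δ ∧
    ∀ p : E3, rad p = 1 / 2 → |p 2| ≤ δ → p ∈ ball (0 : E3) 1 ∧ F.f (F.c k p) < m := by
  have hK : IsCompact {p : E3 | rad p = 1 / 2 ∧ p 2 = 0} :=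
    (isCompact_cyl (1 / 2) 0 0).of_isClosed_subset
      ((isClosed_eq continuous_rad continuous_const).inter
        (isClosed_eq (continuous_coord 2) continuous_const))
      fun p hp => ⟨hp.1.le, hp.2.ge, hp.2.le⟩
  have hb : ∀ p : E3, rad p = 1 / 2 → p 2 = 0 → p ∈ ball (0 : E3) 1 := fun p h1 h2 => by
    have h := norm_le_rad_add p
    rw [h1, h2, abs_zero] at h
    exact mem_ball_zero_iff.2 (by linarith)
  obtain ⟨a, h1, h2⟩ := hK.exists_forall_le' (f := fun p => -F.f (F.c k p))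
    (a := -F.f (F.c k 0))
    (F.f_cont.comp_continuousOn ((F.continuousOn k).mono fun p hp => hb p hp.1 hp.2)).neg
    fun p hp => neg_lt_neg (F.lt_of_tendsto_atBot
      (F.ne_pt (hb p hp.1 hp.2) (fun h => by
        have h3 := hp.1
        rw [h, ← ax_zero, rad_ax] at h3
        norm_num at h3))
      (F.tendsto_atBot (hb p hp.1 hp.2) (fun h => by
        rw [ha] at h
        norm_num at h) fun _ => hp.2))
  obtain ⟨δ, hδ, h3⟩ := exists_ring (r := 1 / 2)
    (F.isOpen_preimage k (isOpen_Iio.preimage F.f_cont (t := Iio ((F.f (F.c k 0) - a) / 2))))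
    fun p hp hp' => ⟨hb p hp hp', by
      have := h2 p ⟨hp, hp'⟩
      change F.f (F.c k p) < _
      linarith⟩
  exact ⟨(F.f (F.c k 0) - a) / 2, δ, by linarith, hδ, h3⟩

/-- Points near a good end come from a small ball about a source. -/
theorem from_source {k : κ} {σ : ℝ} (hσ : σ = 1 ∨ σ = -1) (h : F.Good k σ) :
    ∃ (v : κ) (δ T : ℝ), F.a v = 1 ∧ F.b v = 1 ∧ 0 < δ ∧ ∀ q : E3, ‖q - ax (σ / 2)‖ < δ →
      ∃ d ∈ ball (0 : E3) (1 / 2), F.c k q = F.Φ T (F.c v d) := by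
  obtain ⟨v, ha, hb, ht⟩ := h
  obtain ⟨t, h1⟩ := (ht.eventually (F.image_ball_mem_nhds v (r := 1 / 2) (by norm_num))).exists
  obtain ⟨δ, hδ, h2⟩ := exists_ball F k
    ((F.isOpen_image v isOpen_ball (ball_subset_ball (ε₁ := 1 / 2) (by norm_num))).preimage
      (F.flow.continuous_space t)) (q := ax (σ / 2)) (by
        rw [mem_ball_zero_iff, norm_ax]
        rcases hσ with rfl | rfl <;> norm_num [abs_lt]) h1
  refine ⟨v, δ, -t, ha, hb, hδ, fun q hq => ?_⟩
  obtain ⟨d, hd, he⟩ := h2 q (mem_ball_iff_norm.2 hq)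
  exact ⟨d, hd, by rw [he, F.flow.neg_apply]⟩

/-- Backward orbits from a good end stay away from the points that are not sources. -/
theorem away [T2Space M] {k k' : κ} {σ : ℝ} (hσ : σ = 1 ∨ σ = -1) (h : F.Good k σ)
    (hb' : F.b k' = -1) : ∃ e : ℝ, 0 < e ∧ ∀ p : E3, ‖p - ax (σ / 2)‖ < e → ∀ u ≤ 0,
      ∀ q' ∈ ball (0 : E3) e, F.Φ u (F.c k p) ≠ F.c k' q' := by
  obtain ⟨v, δ, T, ha, hb, hδ, h1⟩ := from_source F hσ h
  have hs : closedBall (0 : E3) (1 / 2) ⊆ ball 0 1 := closedBall_subset_ball (by norm_num)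
  have hK : IsCompact (F.Φ T '' (F.c v '' closedBall 0 (1 / 2))) :=
    (F.isCompact_image v (isCompact_closedBall _ _) hs).image (F.flow.continuous_space T)
  obtain ⟨ε, hε, h2⟩ := exists_ball F k' hK.isClosed.isOpen_compl (mem_ball_self one_pos) (by
    rintro ⟨_, ⟨d, hd, rfl⟩, he⟩
    have h3 := (F.inj (hs hd) (mem_ball_self one_pos) (F.eq_of_flow_eq_pt he)).1
    rw [h3, hb'] at hb
    norm_num at hb)
  refine ⟨min δ ε, lt_min hδ hε, fun p hp u hu q' hq' he =>
    h2 q' (ball_subset_ball (min_le_right _ _) hq') ?_⟩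
  obtain ⟨d, hd, h3⟩ := h1 p (hp.trans_le (min_le_left _ _))
  have h4 : Real.exp u • d ∈ closedBall (0 : E3) (1 / 2) := by
    rw [mem_closedBall_zero_iff, norm_smul, Real.norm_of_nonneg (Real.exp_pos u).le]
    exact (mul_le_of_le_one_left (norm_nonneg d) (Real.exp_le_one_iff.2 hu)).trans
      (mem_ball_zero_iff.1 hd).le
  refine ⟨_, ⟨_, h4, rfl⟩, ?_⟩
  rw [← F.conj_source ha hb (hs (ball_subset_closedBall hd)) (hs h4), ← he, h3, ← F.flow.add,
    ← F.flow.add, add_comm]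

theorem exp_mul_le {u x : ℝ} (hu : u ≤ 0) (hx : 0 ≤ x) : Real.exp u * x ≤ x :=
  mul_le_of_le_one_left hx (Real.exp_le_one_iff.2 hu)

theorem abs_sad (t : ℝ) (q : E3) : |sad t q 2| = Real.exp (-t) * |q 2| := by
  rw [sad_apply_two, abs_mul, abs_of_pos (Real.exp_pos _)]

end RNORBACK

open RNORBACK in
theorem noret_of (M : Type*) [TopologicalSpace M] [T2Space M] [CompactSpace M] [ChartedSpace E3 M]
    [IsManifold (𝓡 3) ∞ M] (hM : OrientedAtlas M) : S_NORET M := by
  intro κ F k ha hb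
  obtain ⟨m, δ, hm, hδ, h1⟩ := exists_level F ha
  obtain ⟨ε, hε, h2⟩ := exists_ball F k (isOpen_Ioi.preimage F.f_cont (t := Ioi m))
    (mem_ball_self one_pos) hm
  refine ⟨min (min δ ε) (1 / 4), by positivity, fun q hq q' hq' s hs he => ?_⟩
  simp only [mem_ball_zero_iff, lt_min_iff] at hq hq'
  have b1 : q ∈ ball (0 : E3) 1 := mem_ball_zero_iff.2 (by linarith [hq.2])
  have b2 : q' ∈ ball (0 : E3) 1 := mem_ball_zero_iff.2 (by linarith [hq'.2])
  by_cases hc : sad s q ∈ ball (0 : E3) 1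
  · rw [F.conj_sad ha hb b1 hc] at he
    exact (F.inj hc b2 he).2.symm
  · exfalso
    have a1 := norm_le_rad_add (sad s q)
    have a2 := abs_two_le_norm q
    have a3 := rad_le_norm q
    have a4 : ∀ u, 0 ≤ u → |sad u q 2| ≤ ‖q‖ := fun u hu => by
      rw [abs_sad]
      exact (exp_mul_le (by linarith) (abs_nonneg _)).trans a2
    have a5 := not_lt.1 (mem_ball_zero_iff.not.1 hc)
    obtain ⟨u, hu, h3⟩ := intermediate_value_Icc hs (f := fun u => rad (sad u q))
      (continuous_rad.comp (continuous_sad.comp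
        (continuous_id.prodMk continuous_const))).continuousOn
      (show (1 / 2 : ℝ) ∈ _ from ⟨by rw [sad_zero]; linarith [hq.2], by linarith [hq.2, a4 s hs]⟩)
    obtain ⟨b3, h4⟩ := h1 _ h3 ((a4 u hu.1).trans hq.1.1.le)
    have h5 := F.antitone (F.c k q) hu.2
    have h6 : m < F.f (F.c k q') := h2 q' (mem_ball_zero_iff.2 hq'.1.2)
    dsimp only at h5
    rw [he, F.conj_sad ha hb b1 b3] at h5
    linarith

open RNORBACK in
theorem back_of (M : Type*) [TopologicalSpace M] [T2Space M] [CompactSpace M] [ChartedSpace E3 M]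
    [IsManifold (𝓡 3) ∞ M] (hM : OrientedAtlas M) : S_BACK M := by
  intro κ F k ha hb
  refine ⟨fun σ hσ h => ?_, fun g1 g2 k' hk hb' => ?_⟩
  · obtain ⟨v, δ, T, a1, a2, a3, a4⟩ := from_source F hσ h
    refine ⟨v, δ, T, a1, a2, a3, fun q hq => ?_⟩
    obtain ⟨d, hd, he⟩ := a4 q hq
    exact ⟨d, ball_subset_ball (by norm_num) hd, he⟩
  · obtain ⟨e₁, p1, h1⟩ := away F (Or.inl rfl) g1 hb'
    obtain ⟨e₂, p2, h2⟩ := away F (Or.inr rfl) g2 hb'
    refine ⟨min (min e₁ e₂) (1 / 4), by positivity, fun q hq q' hq' s hs he => ?_⟩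
    simp only [mem_ball_zero_iff, lt_min_iff] at hq hq'
    have b1 : q ∈ ball (0 : E3) 1 := mem_ball_zero_iff.2 (by linarith [hq.2])
    have b2 : q' ∈ ball (0 : E3) 1 := mem_ball_zero_iff.2 (by linarith [hq'.2])
    have he' : F.Φ (-s) (F.c k q) = F.c k' q' := by rw [he, F.flow.neg_apply]
    have a2 := abs_two_le_norm q
    have a3 : ∀ u, 0 ≤ u → rad (sad (-u) q) ≤ ‖q‖ := fun u hu => by
      rw [rad_sad]
      exact (exp_mul_le (by linarith) (rad_nonneg _)).trans (rad_le_norm q)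
    have a4 : ∀ u, 0 ≤ u → Real.exp u * |q 2| ≤ 1 / 2 → sad (-u) q ∈ ball (0 : E3) 1 :=
      fun u hu h => by
        have h3 := norm_le_rad_add (sad (-u) q)
        rw [abs_sad, neg_neg] at h3
        exact mem_ball_zero_iff.2 (by linarith [a3 u hu, hq.2])
    by_cases hc : Real.exp s * |q 2| ≤ 1 / 2
    · rw [F.conj_sad ha hb b1 (a4 s hs hc)] at he'
      exact hk (F.inj (a4 s hs hc) b2 he').1.symm
    · have h0 : q 2 ≠ 0 := fun h => hc (by rw [h, abs_zero, mul_zero]; norm_num)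
      obtain ⟨σ, r, hσ, h3, h4⟩ := exists_sad_height h0 (c := 1 / 2) (by norm_num)
      have r0 : 0 ≤ r := by
        by_contra h
        linarith [exp_mul_le (not_le.1 h).le (abs_nonneg (q 2)), hq.2]
      have r1 : r ≤ s := by
        by_contra h
        exact hc (h3 ▸ mul_le_mul_of_nonneg_right (Real.exp_le_exp.2 (not_le.1 h).le)
          (abs_nonneg _))
      have h5 : ‖sad (-r) q - ax (σ / 2)‖ ≤ ‖q‖ := by
        rw [show σ / 2 = sad (-r) q 2 by rw [h4]; ring, norm_sub_ax]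
        exact a3 r r0
      have h6 : F.Φ (r - s) (F.c k (sad (-r) q)) = F.c k' q' := by
        rw [← F.conj_sad ha hb b1 (a4 r r0 h3.le), ← F.flow.add, ← he']
        congr 1
        ring
      rcases hσ with rfl | rfl
      · exact h1 _ (h5.trans_lt hq.1.1) _ (by linarith) q' (mem_ball_zero_iff.2 hq'.1.1) h6
      · exact h2 _ (h5.trans_lt hq.1.2) _ (by linarith) q' (mem_ball_zero_iff.2 hq'.1.2) h6

end

end Pool.Agent.P.MP_ac4909_gt.B.H
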