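import Pool.Agent.P.MP_ac4909_gt.B.H.API

/-! Prescribing the integral of the last column. Four vectors v₁ v₂ v₃ = basis, v₄ = -(v₁+v₂+v₃) span E3 with coefficients ≥ 0. Choose Sᵢ with det > 0 and Sᵢ ez = vᵢ.
Glue paths: if P is constant A left of a and constant B right of b, P' constant B left of b' ≥ b, then P + P' - B is smooth and equals P left of b', P' right of b.
GLP (affinely reparametrised) gives Q from A through S₁ … S₄ to B on [-1,1], with Q = Sᵢ on disjoint intervals Jᵢ. With bumps βᵢ ≥ 0 supported in Jᵢ of integral 1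
(ContDiffBump.normed) let μ = 1 + ∑ λᵢ βᵢ > 0 and P t = (Q t).comp (diag (1, 1, μ t)); det = μ det Q, P t ez = Q t ez + ∑ λᵢ βᵢ t • vᵢ, so the integral is I₀ + ∑ λᵢ vᵢ;
choose λᵢ ≥ 0 with ∑ λᵢ vᵢ = D - I₀. (diag (1,1,μ) = id + (μ - 1) • (proj 2).smulRight ez.) -/

namespace Pool.Agent.P.MP_ac4909_gt.B.H

open scoped Manifold ContDiff Topology RealInnerProductSpace
open Set Metric Filter

noncomputable section

namespace RPATH

/-- the map `q ↦ q 2 • v` -/
def col (v : E3) : E3 →L[ℝ] E3 := (EuclideanSpace.proj 2 : E3 →L[ℝ] ℝ).smulRight v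

theorem col_ez (v : E3) : col v ez = v := by simp [col, ez]

theorem det_tv (v : E3) : (ContinuousLinearMap.id ℝ E3 + col v).det = 1 + v 2 := by
  have h : ((ContinuousLinearMap.id ℝ E3 + col v : E3 →L[ℝ] E3) : E3 →ₗ[ℝ] E3) =
      LinearMap.transvection ((EuclideanSpace.proj 2 : E3 →L[ℝ] ℝ) : E3 →ₗ[ℝ] ℝ) v :=
    LinearMap.ext fun _ => rfl
  rw [ContinuousLinearMap.det, h, LinearMap.transvection.det]
  rfl

theorem adjust {P : ℝ → E3 →L[ℝ] E3} (hs : ContDiff ℝ ∞ P) (hd : ∀ t, 0 < (P t).det)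
    {S : E3 →L[ℝ] E3} {c : ℝ} (hS : ∀ t ∈ ball c (1 / 4), P t = S)
    (hc : ball c (1 / 4) ⊆ Ioo (-1) 1) {v : E3} (hv : 0 ≤ v 2) :
    ∃ P' : ℝ → E3 →L[ℝ] E3, ContDiff ℝ ∞ P' ∧ (∀ t, 0 < (P' t).det) ∧
      (∀ t, t ∉ Ioo (-1 : ℝ) 1 → P' t = P t) ∧
      ∫ t in (-1 : ℝ)..1, P' t ez = (∫ t in (-1 : ℝ)..1, P t ez) + S v := by
  let f : ContDiffBump c := ⟨1 / 8, 1 / 4, by norm_num, by norm_num⟩
  let β : ℝ → ℝ := f.normed MeasureTheory.volume
  have hβs : ContDiff ℝ ∞ β := f.contDiff_normed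
  have hβ0 : ∀ t, 0 ≤ β t := f.nonneg_normed
  have hsupp : Function.support β = ball c (1 / 4) := f.support_normed_eq
  have hz : ∀ t, t ∉ ball c (1 / 4) → β t = 0 := fun t ht => by
    rw [← hsupp] at ht
    exact Function.notMem_support.1 ht
  have hint : ∫ t in (-1 : ℝ)..1, β t = 1 := by
    rw [intervalIntegral.integral_eq_integral_of_support_subset
      (hsupp ▸ hc.trans Ioo_subset_Ioc_self)]
    exact f.integral_normed
  have hz' : ∀ t, t ∉ ball c (1 / 4) → P t + β t • col (S v) = P t := fun t ht => by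
    rw [hz t ht]
    ext1 q
    simp
  refine ⟨fun t => P t + β t • col (S v), hs.add (hβs.smul contDiff_const), fun t => ?_,
    fun t ht => ?_, ?_⟩
  · by_cases ht : t ∈ ball c (1 / 4)
    · have h1 : P t + β t • col (S v) =
          (P t).comp (ContinuousLinearMap.id ℝ E3 + col (β t • v)) := by
        rw [hS t ht]
        ext1 q
        simp [col, smul_smul, mul_comm]
      change 0 < (P t + β t • col (S v)).det
      rw [h1, det_comp, det_tv]
      have h2 : 0 ≤ (β t • v) 2 := mul_nonneg (hβ0 t) hv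
      exact mul_pos (hd t) (by linarith)
    · change 0 < (P t + β t • col (S v)).det
      rw [hz' t ht]
      exact hd t
  · exact hz' t fun h => ht (hc h)
  · have h1 : ∀ t, (P t + β t • col (S v)) ez = P t ez + β t • S v := fun t => by
      simp [col_ez]
    simp only [h1]
    have h2 : Continuous fun t => P t ez := hs.continuous.clm_apply continuous_const
    have h3 : Continuous fun t => β t • S v := hβs.continuous.smul continuous_const
    rw [intervalIntegral.integral_add (h2.intervalIntegrable _ _) (h3.intervalIntegrable _ _),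
      intervalIntegral.integral_smul_const, hint, one_smul]

theorem exists_flip : ∃ R : E3 →L[ℝ] E3, 0 < R.det ∧
    ∀ v : E3, v 2 ≤ 0 → ∃ w : E3, 0 ≤ w 2 ∧ R w = v := by
  let D : Matrix (Fin 3) (Fin 3) ℝ := Matrix.diagonal ![1, -1, -1]
  let A : E3 →L[ℝ] E3 := LinearMap.toContinuousLinearMap (Matrix.toEuclideanLin D)
  refine ⟨A, ?_, fun v hv => ⟨!₂[v 0, -v 1, -v 2], by simpa using hv, ?_⟩⟩
  · have : A.det = D.det := LinearMap.det_toLpLin 2 D
    rw [this, Matrix.det_diagonal, Fin.prod_univ_three]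
    simp
  · refine E3_ext ?_ ?_ ?_ <;> simp [A, D, Matrix.toEuclideanLin, Matrix.mulVec_diagonal]

end RPATH

theorem path_of (hG : S_GLP) : S_PATH := by
  intro A B D hA hB
  obtain ⟨R, hR, hflip⟩ := RPATH.exists_flip
  have hAR : 0 < (A.comp R).det := by
    rw [det_comp]
    exact mul_pos hA hR
  obtain ⟨P₁, hs₁, hd₁, hl₁, hr₁⟩ := hG A (A.comp R) hA hAR
  obtain ⟨P₂, hs₂, hd₂, hl₂, hr₂⟩ := hG (A.comp R) B hAR hB
  let Q : ℝ → E3 →L[ℝ] E3 := fun t => P₁ (4 * t + 2) + P₂ (4 * t - 1) - A.comp R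
  have hQs : ContDiff ℝ ∞ Q :=
    ((hs₁.comp (by fun_prop)).add (hs₂.comp (by fun_prop))).sub contDiff_const
  have hQ₁ : ∀ t ≤ 1 / 4, Q t = P₁ (4 * t + 2) := fun t ht => by
    simp only [Q]
    rw [hl₂ _ (by linarith), add_sub_cancel_right]
  have hQ₂ : ∀ t, -1 / 4 ≤ t → Q t = P₂ (4 * t - 1) := fun t ht => by
    simp only [Q]
    rw [hr₁ _ (by linarith), add_sub_cancel_left]
  have hQd : ∀ t, 0 < (Q t).det := fun t => by
    rcases le_total t 0 with h | h
    · rw [hQ₁ t (by linarith)]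
      exact hd₁ _
    · rw [hQ₂ t (by linarith)]
      exact hd₂ _
  have hQA : ∀ t ≤ -1 / 2, Q t = A := fun t ht => by
    rw [hQ₁ t (by linarith), hl₁ _ (by linarith)]
  have hQB : ∀ t, 1 / 2 ≤ t → Q t = B := fun t ht => by
    rw [hQ₂ t (by linarith), hr₂ _ (by linarith)]
  obtain ⟨L, hL⟩ := exists_equiv_of_det hA.ne'
  have hv : A (L.symm (D - ∫ t in (-1 : ℝ)..1, Q t ez)) = D - ∫ t in (-1 : ℝ)..1, Q t ez := by
    rw [← hL]
    exact L.apply_symm_apply _
  set v := L.symm (D - ∫ t in (-1 : ℝ)..1, Q t ez)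
  have key : ∃ P' : ℝ → E3 →L[ℝ] E3, ContDiff ℝ ∞ P' ∧ (∀ t, 0 < (P' t).det) ∧
      (∀ t, t ∉ Ioo (-1 : ℝ) 1 → P' t = Q t) ∧
      ∫ t in (-1 : ℝ)..1, P' t ez = (∫ t in (-1 : ℝ)..1, Q t ez) + A v := by
    rcases le_total 0 (v 2) with h | h
    · refine RPATH.adjust hQs hQd (c := -3 / 4) (fun t ht => hQA t ?_) (fun t ht => ?_) h
      · rw [mem_ball, Real.dist_eq, abs_lt] at ht
        linarith [ht.2]
      · rw [mem_ball, Real.dist_eq, abs_lt] at ht
        exact ⟨by linarith [ht.1], by linarith [ht.2]⟩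
    · obtain ⟨w, hw, hw'⟩ := hflip v h
      rw [← hw']
      refine RPATH.adjust hQs hQd (S := A.comp R) (c := 0) (fun t ht => ?_) (fun t ht => ?_) hw
      · rw [mem_ball, Real.dist_eq, abs_lt] at ht
        rw [hQ₁ t (by linarith [ht.2]), hr₁ _ (by linarith [ht.1])]
      · rw [mem_ball, Real.dist_eq, abs_lt] at ht
        exact ⟨by linarith [ht.1], by linarith [ht.2]⟩
  obtain ⟨P, hs, hd, he, hi⟩ := key
  refine ⟨P, hs, hd, fun t ht => ?_, fun t ht => ?_, ?_⟩
  · rw [he t fun h => absurd h.1 (by linarith), hQA t (by linarith)]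
  · rw [he t fun h => absurd h.2 (by linarith), hQB t (by linarith)]
  · rw [hi, hv, add_sub_cancel]

end

end Pool.Agent.P.MP_ac4909_gt.B.H
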