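import Pool.Agent.P.MP_ac4909_gt.B.H.API

/-! Diagonalise the Hessian. H = fderiv (fderiv g) q₀ is symmetric (ContDiffAt.isSymmSndFDerivAt) and injective. Choose a basis v₀ v₁ v₂ with H vᵢ vⱼ = 0 for i ≠ j and
H vᵢ vᵢ = εᵢ = ±1 (LinearMap.IsSymmetric.eigenvectorBasis for the operator toDual.symm ∘ H, eigenvalues ≠ 0, rescale; or
QuadraticForm.equivalent_one_neg_one_weighted_sum_squared). Two of the three signs agree: permute so that ε₀ = ε₁; replace v₀ by -v₀ if the determinant is negative.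
L₀ q = ∑ qᵢ vᵢ, a = -ε₀, b = -ε₂, so H (L₀ q) (L₀ (lin a b q)) = -‖q‖^2 and ‖lin a b q‖ = ‖q‖. Since fderiv g (q₀ + y) = H y + o(‖y‖)
(HasFDerivAt of fderiv g at q₀), for small r the map L = r • L₀ works (lin_smul; det of r • L₀ is r^3 det L₀). -/

namespace Pool.Agent.P.MP_ac4909_gt.B.H

open scoped Manifold ContDiff Topology RealInnerProductSpace
open Set Metric Filter

noncomputable section

namespace RQUAD

theorem exists_basis {H : E3 →L[ℝ] E3 →L[ℝ] ℝ} (hs : ∀ x y, H x y = H y x)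
    (hi : Function.Injective H) : ∃ v : Module.Basis (Fin 3) ℝ E3,
      (∀ i j, i ≠ j → H (v i) (v j) = 0) ∧ ∀ i, H (v i) (v i) ≠ 0 := by
  obtain ⟨v, hv⟩ := LinearMap.BilinForm.exists_orthogonal_basis (B := H.toBilinForm) ⟨hs⟩
  have e : Module.finrank ℝ E3 = 3 := by simp
  have h1 : ∀ i j, i ≠ j → H (v i) (v j) = 0 := fun i j h => hv h
  have h2 : ∀ i, H (v i) (v i) ≠ 0 := fun i h => by
    refine v.ne_zero i (hi ?_)
    rw [map_zero]
    refine ContinuousLinearMap.coe_injective (v.ext fun j => ?_)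
    by_cases hij : i = j
    · subst hij
      exact h
    · exact h1 i j hij
  refine ⟨v.reindex (finCongr e), fun i j h => ?_, fun i => ?_⟩
  · rw [v.reindex_apply, v.reindex_apply]
    exact h1 _ _ ((finCongr e).symm.injective.ne h)
  · rw [v.reindex_apply]
    exact h2 _

theorem exists_basis' {H : E3 →L[ℝ] E3 →L[ℝ] ℝ} (hs : ∀ x y, H x y = H y x)
    (hi : Function.Injective H) : ∃ v : Module.Basis (Fin 3) ℝ E3,
      (∀ i j, i ≠ j → H (v i) (v j) = 0) ∧ 0 < H (v 0) (v 0) * H (v 1) (v 1) ∧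
        H (v 2) (v 2) ≠ 0 := by
  obtain ⟨v, h1, h2⟩ := exists_basis hs hi
  have key : ∀ σ : Equiv.Perm (Fin 3), 0 < H (v (σ 0)) (v (σ 0)) * H (v (σ 1)) (v (σ 1)) →
      ∃ v : Module.Basis (Fin 3) ℝ E3, (∀ i j, i ≠ j → H (v i) (v j) = 0) ∧
        0 < H (v 0) (v 0) * H (v 1) (v 1) ∧ H (v 2) (v 2) ≠ 0 := fun σ h => by
    refine ⟨v.reindex σ.symm, fun i j hij => ?_, ?_, ?_⟩ <;>
      simp only [v.reindex_apply, Equiv.symm_symm]
    exacts [h1 _ _ (σ.injective.ne hij), h, h2 _]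
  rcases (mul_ne_zero (h2 0) (h2 1)).lt_or_gt with a | a
  · rcases (mul_ne_zero (h2 0) (h2 2)).lt_or_gt with b | b
    · refine key (Equiv.swap 0 2) ?_
      change 0 < H (v 2) (v 2) * H (v 1) (v 1)
      refine pos_of_mul_pos_left (b := H (v 0) (v 0) ^ 2) ?_ (sq_nonneg _)
      nlinarith [mul_pos_of_neg_of_neg a b]
    · exact key (Equiv.swap 1 2) b
  · exact key 1 a

theorem sgn {d : ℝ} (h : d ≠ 0) : ∃ a : ℝ, (a = 1 ∨ a = -1) ∧ a * d < 0 := by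
  rcases h.lt_or_gt with h | h
  · exact ⟨1, Or.inl rfl, by linarith⟩
  · exact ⟨-1, Or.inr rfl, by linarith⟩

theorem norm_lin {a b : ℝ} (ha : a = 1 ∨ a = -1) (hb : b = 1 ∨ b = -1) (q : E3) :
    ‖lin a b q‖ = ‖q‖ := by
  rw [EuclideanSpace.norm_eq, EuclideanSpace.norm_eq]
  congr 1
  rcases ha with rfl | rfl <;> rcases hb with rfl | rfl <;> simp [lin, Fin.sum_univ_three]

theorem exists_lin {H : E3 →L[ℝ] E3 →L[ℝ] ℝ} (hs : ∀ x y, H x y = H y x)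
    (hi : Function.Injective H) : ∃ (L : E3 ≃L[ℝ] E3) (a b c : ℝ), (a = 1 ∨ a = -1) ∧
      (b = 1 ∨ b = -1) ∧ 0 < c ∧ ∀ q, H (L q) (L (lin a b q)) ≤ -(c * ‖q‖ ^ 2) := by
  obtain ⟨v, h1, h2, h3⟩ := exists_basis' hs hi
  obtain ⟨a, ha, a0⟩ := sgn (left_ne_zero_of_mul h2.ne')
  obtain ⟨b, hb, b2⟩ := sgn h3
  have a1 : a * H (v 1) (v 1) < 0 := by
    by_contra hn
    have : a * a = 1 := by rcases ha with rfl | rfl <;> norm_num
    have h4 := mul_nonpos_of_nonpos_of_nonneg a0.le (not_lt.1 hn)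
    rw [mul_mul_mul_comm, this, one_mul] at h4
    linarith
  obtain ⟨c, c0, c1, c2, c3⟩ : ∃ c : ℝ, 0 < c ∧ a * H (v 0) (v 0) ≤ -c ∧ a * H (v 1) (v 1) ≤ -c ∧
      b * H (v 2) (v 2) ≤ -c :=
    ⟨-max (a * H (v 0) (v 0)) (max (a * H (v 1) (v 1)) (b * H (v 2) (v 2))),
      neg_pos.2 (max_lt a0 (max_lt a1 b2)), by simp, by simp, by simp⟩
  let L : E3 ≃L[ℝ] E3 :=
    ((EuclideanSpace.equiv (Fin 3) ℝ).toLinearEquiv.trans v.equivFun.symm).toContinuousLinearEquiv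
  have hL : ∀ q : E3, L q = q 0 • v 0 + q 1 • v 1 + q 2 • v 2 := fun q => by
    rw [← Fin.sum_univ_three fun i => q i • v i]
    exact v.equivFun_symm_apply _
  refine ⟨L, a, b, c, ha, hb, c0, fun q => ?_⟩
  have e : H (L q) (L (lin a b q)) = a * H (v 0) (v 0) * q 0 ^ 2 + a * H (v 1) (v 1) * q 1 ^ 2 +
      b * H (v 2) (v 2) * q 2 ^ 2 := by
    rw [hL, hL]
    simp [lin, h1]
    ring
  rw [e, EuclideanSpace.real_norm_sq_eq, Fin.sum_univ_three]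
  nlinarith [mul_le_mul_of_nonneg_right c1 (sq_nonneg (q 0)),
    mul_le_mul_of_nonneg_right c2 (sq_nonneg (q 1)), mul_le_mul_of_nonneg_right c3 (sq_nonneg (q 2))]

theorem exists_scale (L : E3 ≃L[ℝ] E3) {ρ : ℝ} (h : 0 < ρ) : ∃ (L' : E3 ≃L[ℝ] E3) (r : ℝ),
    |r| = ρ ∧ 0 < (L' : E3 →L[ℝ] E3).det ∧ ∀ q, L' q = r • L q := by
  have key : ∀ r : ℝ, |r| = ρ → 0 < r * (L : E3 →L[ℝ] E3).det → ∃ (L' : E3 ≃L[ℝ] E3) (r : ℝ),
      |r| = ρ ∧ 0 < (L' : E3 →L[ℝ] E3).det ∧ ∀ q, L' q = r • L q := fun r h1 h2 => by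
    have r0 : r ≠ 0 := left_ne_zero_of_mul h2.ne'
    refine ⟨L.trans (LinearEquiv.smulOfNeZero ℝ E3 r r0).toContinuousLinearEquiv, r, h1, ?_,
      fun q => rfl⟩
    change 0 < LinearMap.det (r • ((L : E3 →L[ℝ] E3) : E3 →ₗ[ℝ] E3))
    rw [LinearMap.det_smul, finrank_euclideanSpace_fin, pow_succ, mul_assoc]
    exact mul_pos (by positivity) h2
  rcases (L.toLinearEquiv.isUnit_det'.ne_zero : (L : E3 →L[ℝ] E3).det ≠ 0).lt_or_gt with h1 | h1
  · exact key (-ρ) (by rw [abs_neg, abs_of_pos h]) (mul_pos_of_neg_of_neg (neg_neg_of_pos h) h1)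
  · exact key ρ (abs_of_pos h) (mul_pos h h1)

end RQUAD

theorem quad_of : S_QUAD := by
  intro g V q₀ hV hq hg h0 hi
  have hg' : ContDiffAt ℝ ∞ g q₀ := hg.contDiffAt (hV.mem_nhds hq)
  have hs := hg'.isSymmSndFDerivAt
    (by rw [minSmoothness_of_isRCLikeNormedField]; exact ENat.LEInfty.out)
  have hd : HasFDerivAt (fderiv ℝ g) (fderiv ℝ (fderiv ℝ g) q₀) q₀ :=
    ((hg'.fderiv_right (m := 1) (by norm_cast)).differentiableAt one_ne_zero).hasFDerivAt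
  set H := fderiv ℝ (fderiv ℝ g) q₀
  obtain ⟨L, a, b, c, ha, hb, c0, hL⟩ := RQUAD.exists_lin hs hi
  obtain ⟨K, K0, hK⟩ : ∃ K : ℝ, 0 < K ∧ ∀ q, ‖L q‖ ≤ K * ‖q‖ := (L : E3 →L[ℝ] E3).bound
  have e1 := (hasFDerivAt_iff_isLittleO_nhds_zero.1 hd).def
    (show 0 < c / (2 * K ^ 2) by positivity)
  have e2 : ∀ᶠ y in 𝓝 (0 : E3), q₀ + y ∈ V :=
    (continuous_const.add continuous_id).continuousAt.eventually_mem
      (by simpa using hV.mem_nhds hq)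
  obtain ⟨δ, δ0, hδ⟩ := Metric.eventually_nhds_iff.1 (e1.and e2)
  obtain ⟨L', r, hr, hdet, hL'⟩ := RQUAD.exists_scale L (div_pos δ0 K0)
  have n1 : ∀ q, ‖L' q‖ ≤ δ * ‖q‖ := fun q => by
    rw [hL', norm_smul, Real.norm_eq_abs, hr]
    refine (mul_le_mul_of_nonneg_left (hK q) (div_pos δ0 K0).le).trans (le_of_eq ?_)
    field_simp
  have n2 : ∀ q ∈ ball (0 : E3) 1, dist (L' q) 0 < δ := fun q hq => by
    rw [dist_zero_right]
    exact (n1 q).trans_lt (mul_lt_of_lt_one_right δ0 (mem_ball_zero_iff.1 hq))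
  refine ⟨L', a, b, ha, hb, hdet, fun q hq => (hδ (n2 q hq)).2, fun q hq q0 => ?_⟩
  have b1 := (hδ (n2 q hq)).1
  rw [h0, sub_zero] at b1
  have b2 := n1 (lin a b q)
  rw [RQUAD.norm_lin ha hb] at b2
  have b3 : (fderiv ℝ g (q₀ + L' q) - H (L' q)) (L' (lin a b q)) ≤
      c / (2 * K ^ 2) * (δ * ‖q‖) * (δ * ‖q‖) :=
    (le_abs_self _).trans ((ContinuousLinearMap.le_opNorm _ _).trans (mul_le_mul
      (b1.trans (mul_le_mul_of_nonneg_left (n1 q) (by positivity))) b2 (norm_nonneg _)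
      (by positivity)))
  have b4 : H (L' q) (L' (lin a b q)) ≤ -((δ / K) ^ 2 * (c * ‖q‖ ^ 2)) := by
    rw [hL', hL', map_smul, map_smul, smul_apply, smul_eq_mul, smul_eq_mul,
      ← mul_assoc, ← sq, ← hr, sq_abs, ← mul_neg]
    exact mul_le_mul_of_nonneg_left (hL q) (sq_nonneg r)
  have b5 : c / (2 * K ^ 2) * (δ * ‖q‖) * (δ * ‖q‖) = (δ / K) ^ 2 * (c * ‖q‖ ^ 2) / 2 := by
    field_simp
  have b6 : 0 < (δ / K) ^ 2 * (c * ‖q‖ ^ 2) := by positivity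
  rw [sub_apply, b5] at b3
  linarith

end

end Pool.Agent.P.MP_ac4909_gt.B.H
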