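import Pool.Agent.P.MP_ac4909_gt.B.H.API

/-! Generic linear forms. Let ∇ q = (InnerProductSpace.toDual ℝ E3).symm (fderiv g q) and h q = -∇ q : E3 → E3, differentiable on V, with
fderiv h q = -(toDual.symm) ∘ fderiv (fderiv g) q. If b is bad then b = h q with q in s = {q ∈ V | det (fderiv h q) = 0} (det_ne_zero_iff).
MeasureTheory.addHaar_image_eq_zero_of_det_fderivWithin_eq_zero gives volume (h '' s) = 0; the complement of a null set is dense
(Measure.dense_of_ae, or IsOpen.measure_pos). -/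

namespace Pool.Agent.P.MP_ac4909_gt.B.H

open scoped Manifold ContDiff Topology RealInnerProductSpace
open Set Metric Filter

noncomputable section

namespace RSARD

end RSARD

theorem sard_of : S_SARD := by
  intro g V hV hg
  let T : (E3 →L[ℝ] ℝ) ≃L[ℝ] E3 := (InnerProductSpace.toDual ℝ E3).symm.toContinuousLinearEquiv
  let D : E3 → E3 →L[ℝ] E3 := fun q => -(T : (E3 →L[ℝ] ℝ) →L[ℝ] E3).comp (fderiv ℝ (fderiv ℝ g) q)
  have h0 : MeasureTheory.volume ((fun q => -T (fderiv ℝ g q)) '' {q ∈ V | (D q).det = 0}) = 0 := by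
    refine MeasureTheory.addHaar_image_eq_zero_of_det_fderivWithin_eq_zero _ (f' := D)
      (fun q hq => HasFDerivAt.hasFDerivWithinAt ?_) fun q hq => hq.2
    have h1 : ContDiffAt ℝ 1 (fderiv ℝ g) q :=
      (hg.contDiffAt (hV.mem_nhds hq.1)).fderiv_right (by norm_cast)
    exact ((T : (E3 →L[ℝ] ℝ) →L[ℝ] E3).hasFDerivAt.comp q
      (h1.differentiableAt one_ne_zero).hasFDerivAt).neg
  refine (MeasureTheory.Measure.dense_of_ae (μ := MeasureTheory.volume)
    (MeasureTheory.measure_eq_zero_iff_ae_notMem.1 h0)).mono fun b hb q hq h => ?_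
  have h2 : (D q).det ≠ 0 := fun hd => hb ⟨q, ⟨hq, hd⟩, by
    simp only [eq_neg_of_add_eq_zero_left h, map_neg, neg_neg]
    exact (InnerProductSpace.toDual ℝ E3).symm_apply_apply b⟩
  intro x y hxy
  exact det_ne_zero_iff.1 h2 (by simp [D, hxy])

end

end Pool.Agent.P.MP_ac4909_gt.B.H
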