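import Pool.Agent.P.MP_ac4909_gt.B.H.API

/-! SAT: choose T p for p ∈ W and put g p = Φ (T p) (c k (lf (-(T p)) (l • p))); by FL.sat_wd any admissible T gives the same value. Near p₀ the time T p₀ stays admissible, so g agrees near p₀ with the chart
pc_flow (pc_affine (c k) 0 L) (exists_lfEquiv, W' = W ∩ L ⁻¹' ball 0 1). exists_pc_of_local. Flow: if T is admissible for p then T + t is admissible for lf t p (lf_add, lf_smul).
HV: W = univ, l = 1, lf_source; injectivity: both sides equal Φ T'' (c v (exp (-T'') • ·)) for T'' = max T T' (FL.sat_wd), SFlow.injective, CD.inj. T = 0 gives e d = c v d.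
HE: d from NORET, l₀ = min d 1 / 2, W = Dom, lf_sad, sad_mem_Dom, exists_sad_small gives times S, S' with sad (-S) (l • p), sad (-S') (l • p') ∈ ball 0 (min d 1); replace T, T' by S, S' (sat_wd);
if S' ≤ S then Φ (S - S') (c k q) = c k q', NORET gives q' = sad (S - S') q, so sad (-S') (l • p') = sad (-S') (l • p); symmetric otherwise. -/

namespace Pool.Agent.P.MP_ac4909_gt.B.H

open scoped Manifold ContDiff Topology RealInnerProductSpace
open Set Metric Filter

noncomputable section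

namespace RSAT

theorem exp_mono {p : E3} {T S : ℝ} (h : T ≤ S) (hT : Real.exp (-T) • p ∈ ball (0 : E3) 1) :
    Real.exp (-S) • p ∈ ball (0 : E3) 1 := by
  rw [mem_ball_zero_iff, norm_smul, Real.norm_of_nonneg (Real.exp_pos _).le] at hT ⊢
  exact (mul_le_mul_of_nonneg_right (Real.exp_le_exp.2 (neg_le_neg h)) (norm_nonneg p)).trans_lt hT

theorem exp_small (p : E3) : Real.exp (-‖p‖) • p ∈ ball (0 : E3) 1 := by
  rw [mem_ball_zero_iff, norm_smul, Real.norm_of_nonneg (Real.exp_pos _).le, Real.exp_neg,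
    inv_mul_lt_iff₀ (Real.exp_pos _), mul_one]
  linarith [Real.add_one_le_exp ‖p‖]

theorem sad_small {p : E3} (hp : p ∈ Dom) {l d : ℝ} (hl : 0 < l) (hd : l ≤ d / 2) :
    ∃ T, sad (-T) (l • p) ∈ ball (0 : E3) d := by
  obtain ⟨T, hT⟩ := exists_sad_small hp
  refine ⟨T, ?_⟩
  rw [mem_ball_zero_iff, sad_smul, norm_smul, Real.norm_of_nonneg hl.le]
  linarith [mul_lt_mul_of_pos_left hT hl]

theorem sad_inj {M : Type*} [TopologicalSpace M] [ChartedSpace E3 M] {Φ : ℝ → M → M}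
    (hΦ : SFlow Φ) {c : E3 → M} {d : ℝ}
    (hd : ∀ q ∈ ball (0 : E3) d, ∀ q' ∈ ball (0 : E3) d, ∀ s : ℝ, 0 ≤ s →
      Φ s (c q) = c q' → q' = sad s q) {p p' : E3} {S S' : ℝ} (hS : S' ≤ S)
    (h1 : sad (-S) p ∈ ball (0 : E3) d) (h2 : sad (-S') p' ∈ ball (0 : E3) d)
    (h : Φ S (c (sad (-S) p)) = Φ S' (c (sad (-S') p'))) : p = p' := by
  have h3 := hd _ h1 _ h2 (S - S') (sub_nonneg.2 hS) (hΦ.injective S' (by
    rw [← hΦ.add, add_sub_cancel, h]))
  rw [← sad_add, show S - S' + -S = -S' by ring] at h3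
  exact (sad_injective _ h3).symm

end RSAT

theorem sat_of (M : Type*) [TopologicalSpace M] [T2Space M] [CompactSpace M] [ChartedSpace E3 M]
    [IsManifold (𝓡 3) ∞ M] (hM : OrientedAtlas M) : S_SAT M := by
  intro κ F k l W hl hW hinv hex hinj
  choose! T hT using hex
  let g : E3 → M := fun p => F.Φ (T p) (F.c k (lf (F.a k) (F.b k) (-T p) (l • p)))
  have key : ∀ p ∈ W, ∀ S, lf (F.a k) (F.b k) (-S) (l • p) ∈ ball (0 : E3) 1 →
      g p = F.Φ S (F.c k (lf (F.a k) (F.b k) (-S) (l • p))) :=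
    fun p hp S hS => F.sat_wd k (hT p hp) hS
  have H := exists_pc_of_local g hW
    (fun p hp p' hp' h => hinj p hp p' hp' _ _ (hT p hp) (hT p' hp') h) fun p hp => ?_
  · obtain ⟨e, he, hs, hge⟩ := H
    refine ⟨e, he, hs, fun p hp S hS => (hge p).trans (key p hp S hS), fun t p hp => ?_⟩
    have e1 : lf (F.a k) (F.b k) (-(t + T p)) (l • lf (F.a k) (F.b k) t p) =
        lf (F.a k) (F.b k) (-T p) (l • p) := by
      rw [← lf_smul, ← lf_add]
      congr 1
      ring
    rw [hge, hge, key _ (hinv p hp t) (t + T p) (e1 ▸ hT p hp), e1, F.flow.add]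
  · obtain ⟨L, hL, hLq⟩ := exists_lfEquiv (F.a k) (F.b k) (-T p) l hl
    have hO : IsOpen (W ∩ L ⁻¹' ball 0 1) := hW.inter (isOpen_ball.preimage L.continuous)
    obtain ⟨e1, h1, s1, v1, -⟩ := pc_affine (F.chart k) 0 L hL hO fun q hq => by
      beta_reduce
      rw [F.source, zero_add]
      exact hq.2
    obtain ⟨e2, h2, s2, v2⟩ := pc_flow h1 F.flow (T p)
    have hm : p ∈ W ∩ L ⁻¹' ball 0 1 := ⟨hp, by rw [mem_preimage, hLq]; exact hT p hp⟩
    refine ⟨e2, h2, by rw [s2, s1]; exact hm, ?_⟩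
    filter_upwards [hO.mem_nhds hm] with q hq
    rw [v2, v1, zero_add, hLq, key q hq.1 (T p) (hLq q ▸ hq.2)]

theorem hv_of (M : Type*) [TopologicalSpace M] [T2Space M] [CompactSpace M] [ChartedSpace E3 M]
    [IsManifold (𝓡 3) ∞ M] (hM : OrientedAtlas M)
    (hS : S_SAT M) : S_HV M := by
  intro κ F v ha hb
  have hl : ∀ t q, lf (F.a v) (F.b v) t q = Real.exp t • q := fun t q => by
    rw [ha, hb, lf_source]
  have H := hS κ F v 1 univ one_pos isOpen_univ (fun _ _ _ => mem_univ _)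
    (fun p _ => ⟨‖p‖, by rw [hl, one_smul]; exact RSAT.exp_small p⟩)
    fun p _ p' _ T T' hT hT' h => ?_
  · obtain ⟨e, he, hs, h1, h2⟩ := H
    refine ⟨e, he, hs, fun d hd => ?_, fun t p => by rw [h2 t p (mem_univ p), hl]⟩
    have h3 := h1 d (mem_univ d) 0
    rw [neg_zero, lf_zero, one_smul, F.flow.zero] at h3
    exact h3 hd
  · rw [one_smul] at hT hT' h
    rw [one_smul] at h
    have m1 : lf (F.a v) (F.b v) (-max T T') p ∈ ball (0 : E3) 1 := by
      rw [hl] at hT ⊢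
      exact RSAT.exp_mono (le_max_left _ _) hT
    have m2 : lf (F.a v) (F.b v) (-max T T') p' ∈ ball (0 : E3) 1 := by
      rw [hl] at hT' ⊢
      exact RSAT.exp_mono (le_max_right _ _) hT'
    rw [F.sat_wd v hT m1, F.sat_wd v hT' m2] at h
    exact lf_injective _ _ _ (F.inj m1 m2 (F.flow.injective _ h)).2

theorem he_of (M : Type*) [TopologicalSpace M] [T2Space M] [CompactSpace M] [ChartedSpace E3 M]
    [IsManifold (𝓡 3) ∞ M] (hM : OrientedAtlas M)
    (hS : S_SAT M) (hN : S_NORET M) : S_HE M := by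
  intro κ F k ha hb
  obtain ⟨d, hd, hN⟩ := hN κ F k ha hb
  have hs : ∀ t q, lf (F.a k) (F.b k) t q = sad t q := fun t q => by rw [ha, hb, lf_sad]
  refine ⟨min d 1 / 2, half_pos (lt_min hd one_pos), fun l hl hl' => ?_⟩
  have hsm : ∀ p ∈ Dom, ∃ T, sad (-T) (l • p) ∈ ball (0 : E3) d ∧
      lf (F.a k) (F.b k) (-T) (l • p) ∈ ball (0 : E3) 1 := fun p hp => by
    obtain ⟨T, hT⟩ := RSAT.sad_small hp hl hl'
    exact ⟨T, ball_subset_ball (min_le_left _ _) hT,
      hs _ _ ▸ ball_subset_ball (min_le_right _ _) hT⟩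
  have H := hS κ F k l Dom hl isOpen_Dom
    (fun p hp t => hs _ _ ▸ sad_mem_Dom t hp) (fun p hp => (hsm p hp).imp fun _ h => h.2)
    fun p hp p' hp' T T' hT hT' h => ?_
  · simpa only [hs] using H
  · obtain ⟨S, hS1, hS2⟩ := hsm p hp
    obtain ⟨S', hS1', hS2'⟩ := hsm p' hp'
    rw [F.sat_wd k hT hS2, F.sat_wd k hT' hS2', hs, hs] at h
    refine smul_right_injective E3 hl.ne' ?_
    rcases le_total S' S with h3 | h3
    · exact RSAT.sad_inj F.flow hN h3 hS1 hS1' h
    · exact (RSAT.sad_inj F.flow hN h3 hS1' hS1 h.symm).symm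

end

end Pool.Agent.P.MP_ac4909_gt.B.H
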