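import Pool.Agent.P.MP_ac4909_gt.B.H.API

/-! Explicit shear. β : ℝ → ℝ smooth bump, ≥ 0, tsupport ⊆ [1/3, 1/2], positive integral (ContDiffBump at 5/12); χ : ℝ → ℝ smooth, 1 on (-∞, δ^2/4], 0 on [δ^2/2, ∞)
(Real.smoothTransition). ρ q = β (σ q 2) χ (q 0 ^ 2 + q 1 ^ 2); the support lies in the closed set tube δ σ (closure_minimal, continuous_rad).
B s = ∫ r in (1/6)..s, β r, B₀ = B (2/3) > 0, 0 ≤ B ≤ B₀ on [1/6, 2/3]. Given u put w = -(2/(3 B₀)) • (u 0, u 1, 0), ‖w‖ = 2 rad u/(3 B₀), T = log 4, s t = (2/3) exp (-t),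
h t = -B (s t)/s t, γ t = h t • w + ax (σ s t). Then h' = h + β (s t), γ 0 = u, γ T = ax (σ/6), rad (γ t) ≤ 6 B₀ ‖w‖ ≤ 4 rad u < δ/2 when η ≤ δ/8,
so ρ (γ t) = β (s t), and ‖γ t‖ ≤ rad + |z| < 1 (norm_le_rad_add). -/

namespace Pool.Agent.P.MP_ac4909_gt.B.H

open scoped Manifold ContDiff Topology RealInnerProductSpace
open Set Metric Filter

noncomputable section

namespace RSHEAR

/-- a smooth step from `0` to `1` between `1/3` and `1/2` -/
def st (s : ℝ) : ℝ := Real.smoothTransition (6 * s - 2)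

theorem contDiff_B : ContDiff ℝ ∞ st :=
  Real.smoothTransition.contDiff.comp ((contDiff_const.mul contDiff_id).sub contDiff_const)

theorem B_zero {s : ℝ} (h : s ≤ 1 / 3) : st s = 0 :=
  Real.smoothTransition.zero_of_nonpos (by linarith)

theorem B_one {s : ℝ} (h : 1 / 2 ≤ s) : st s = 1 :=
  Real.smoothTransition.one_of_one_le (by linarith)

theorem hasDerivAt_B (s : ℝ) : HasDerivAt st (deriv st s) s :=
  (contDiff_B.differentiable (by simp) s).hasDerivAt

theorem contDiff_deriv_B : ContDiff ℝ ∞ (deriv st) := (contDiff_infty_iff_deriv.1 contDiff_B).2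

theorem deriv_B_low {s : ℝ} (h : s < 1 / 3) : deriv st s = 0 := by
  have e : st =ᶠ[𝓝 s] fun _ => 0 := by
    filter_upwards [Iio_mem_nhds h] with r hr using B_zero (le_of_lt hr)
  rw [e.deriv_eq, deriv_const]

theorem deriv_B_high {s : ℝ} (h : 1 / 2 < s) : deriv st s = 0 := by
  have e : st =ᶠ[𝓝 s] fun _ => 1 := by
    filter_upwards [Ioi_mem_nhds h] with r hr using B_one (le_of_lt hr)
  rw [e.deriv_eq, deriv_const]

/-- the cutoff function of the shear -/
def rho (δ σ : ℝ) (q : E3) : ℝ :=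
  deriv st (σ * q 2) * Real.smoothTransition (2 - 4 / δ ^ 2 * (q 0 ^ 2 + q 1 ^ 2))

theorem contDiff_co (i : Fin 3) : ContDiff ℝ ∞ fun q : E3 => q i :=
  (EuclideanSpace.proj i : E3 →L[ℝ] ℝ).contDiff

theorem contDiff_rho (δ σ : ℝ) : ContDiff ℝ ∞ (rho δ σ) :=
  (contDiff_deriv_B.comp (contDiff_const.mul (contDiff_co 2))).mul
    (Real.smoothTransition.contDiff.comp (contDiff_const.sub (contDiff_const.mul
      (((contDiff_co 0).pow 2).add ((contDiff_co 1).pow 2)))))

theorem isClosed_tube (δ σ : ℝ) : IsClosed (tube δ σ) :=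
  (isClosed_le continuous_rad continuous_const).inter
    ((isClosed_le continuous_const (continuous_const.mul (contDiff_co 2).continuous)).inter
      (isClosed_le (continuous_const.mul (contDiff_co 2).continuous) continuous_const))

theorem tsupport_rho {δ : ℝ} (hδ : 0 < δ) (σ : ℝ) : tsupport (rho δ σ) ⊆ tube δ σ := by
  refine closure_minimal (fun q hq => ?_) (isClosed_tube δ σ)
  have h1 : deriv st (σ * q 2) ≠ 0 := left_ne_zero_of_mul hq
  have h2 : Real.smoothTransition (2 - 4 / δ ^ 2 * (q 0 ^ 2 + q 1 ^ 2)) ≠ 0 :=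
    right_ne_zero_of_mul hq
  refine ⟨?_, not_lt.1 fun h => h1 (deriv_B_low h), not_lt.1 fun h => h1 (deriv_B_high h)⟩
  refine not_lt.1 fun h => h2 (Real.smoothTransition.zero_of_nonpos ?_)
  have h3 : δ ^ 2 ≤ q 0 ^ 2 + q 1 ^ 2 := by
    rw [← rad_sq]
    exact pow_le_pow_left₀ hδ.le h.le 2
  have h4 : 4 / δ ^ 2 * δ ^ 2 ≤ 4 / δ ^ 2 * (q 0 ^ 2 + q 1 ^ 2) :=
    mul_le_mul_of_nonneg_left h3 (by positivity)
  rw [div_mul_cancel₀ _ (by positivity)] at h4
  linarith

theorem rho_eq {δ : ℝ} (hδ : 0 < δ) (σ : ℝ) {q : E3} (h : rad q ≤ δ / 2) :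
    rho δ σ q = deriv st (σ * q 2) := by
  rw [rho, Real.smoothTransition.one_of_one_le, mul_one]
  have h3 : q 0 ^ 2 + q 1 ^ 2 ≤ (δ / 2) ^ 2 := by
    rw [← rad_sq]
    exact pow_le_pow_left₀ (rad_nonneg q) h 2
  have h4 : 4 / δ ^ 2 * (q 0 ^ 2 + q 1 ^ 2) ≤ 4 / δ ^ 2 * (δ / 2) ^ 2 :=
    mul_le_mul_of_nonneg_left h3 (by positivity)
  have h5 : 4 / δ ^ 2 * (δ / 2) ^ 2 = 1 := by
    field_simp
    norm_num
  linarith

/-- the height along the orbit -/
def s (t : ℝ) : ℝ := 2 / 3 * Real.exp (-t)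

theorem s_pos (t : ℝ) : 0 < s t := by
  unfold s
  positivity

theorem hasDerivAt_s (t : ℝ) : HasDerivAt s (-s t) t := by
  have := ((hasDerivAt_neg t).exp).const_mul (2 / 3 : ℝ)
  refine this.congr_deriv ?_
  unfold s
  ring

theorem s_zero : s 0 = 2 / 3 := by simp [s]

theorem s_log : s (Real.log 4) = 1 / 6 := by
  rw [s, Real.exp_neg, Real.exp_log (by norm_num)]
  norm_num

theorem s_mem {t : ℝ} (ht : t ∈ Icc 0 (Real.log 4)) : 1 / 6 ≤ s t ∧ s t ≤ 2 / 3 := by
  constructor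
  · rw [← s_log]
    exact mul_le_mul_of_nonneg_left (Real.exp_le_exp.2 (neg_le_neg ht.2)) (by norm_num)
  · rw [← s_zero]
    exact mul_le_mul_of_nonneg_left (Real.exp_le_exp.2 (neg_le_neg ht.1)) (by norm_num)

/-- the horizontal coefficient along the orbit -/
def h (t : ℝ) : ℝ := -st (s t) / s t

theorem hasDerivAt_h (t : ℝ) : HasDerivAt h (h t + deriv st (s t)) t := by
  have h1 := (((hasDerivAt_B (s t)).comp t (hasDerivAt_s t)).neg).div (hasDerivAt_s t)
    (s_pos t).ne'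
  refine h1.congr_deriv ?_
  have := (s_pos t).ne'
  simp only [h, Pi.neg_apply, Function.comp_apply]
  field_simp
  ring

theorem abs_h_le {t : ℝ} (ht : t ∈ Icc 0 (Real.log 4)) : |h t| ≤ 6 := by
  have h1 := s_mem ht
  have h2 : 0 ≤ st (s t) := Real.smoothTransition.nonneg _
  have h3 : st (s t) ≤ 1 := Real.smoothTransition.le_one _
  rw [h, abs_div, abs_neg, abs_of_nonneg h2, abs_of_pos (s_pos t), div_le_iff₀ (s_pos t)]
  linarith [h1.1]

theorem rad_add_ax (p : E3) (z : ℝ) : rad (p + ax z) = rad p := by simp [rad]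

end RSHEAR

open RSHEAR in
theorem shear_of : S_SHEAR := by
  intro δ σ hδ hδ' hσ
  have hσ2 : σ * σ = 1 := by rcases hσ with rfl | rfl <;> norm_num
  have hσ1 : |σ| = 1 := by rcases hσ with rfl | rfl <;> norm_num
  refine ⟨rho δ σ, contDiff_rho δ σ, tsupport_rho hδ σ, fun ε hε =>
    ⟨min ε (δ / 8), lt_min hε (by positivity), fun u hu hr => ?_⟩⟩
  have hr1 : rad u < ε := hr.trans_le (min_le_left _ _)
  have hr2 : rad u < δ / 8 := hr.trans_le (min_le_right _ _)
  have hr0 := rad_nonneg u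
  let w : E3 := (-(2 / 3) : ℝ) • (u - ax (u 2))
  have w2 : w 2 = 0 := by simp [w]
  have hw : ‖w‖ = 2 / 3 * rad u := by
    rw [norm_smul, norm_sub_ax, norm_neg, Real.norm_of_nonneg (by norm_num)]
  refine ⟨w, fun t => h t • w + ax (σ * s t), Real.log 4, by rw [hw]; linarith,
    Real.log_nonneg (by norm_num), ?_, ?_, fun t ht => ?_⟩
  · have e : h 0 = -(3 / 2) := by
      rw [h, s_zero, B_one (by norm_num)]
      norm_num
    simp only [e, s_zero, w, smul_smul]
    rw [show (-(3 / 2) * -(2 / 3) : ℝ) = 1 by norm_num, one_smul, hu,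
      show σ * (2 / 3) = 2 * σ / 3 by ring, sub_add_cancel]
  · have e : h (Real.log 4) = 0 := by
      rw [h, s_log, B_zero (by norm_num)]
      norm_num
    simp only [e, s_log, zero_smul, zero_add]
    rw [show σ * (1 / 6) = σ / 6 by ring]
  · have h1 := s_mem ht
    have h2 := abs_h_le ht
    have h3 : rad (h t • w + ax (σ * s t)) ≤ δ / 2 := by
      rw [rad_add_ax, rad_smul]
      have h4 : |h t| * rad w ≤ 6 * ‖w‖ :=
        mul_le_mul h2 (rad_le_norm w) (rad_nonneg w) (by norm_num)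
      rw [hw] at h4
      linarith
    have h5 : (h t • w + ax (σ * s t)) 2 = σ * s t := by simp [w2]
    constructor
    · rw [mem_ball_zero_iff]
      refine (norm_le_rad_add _).trans_lt ?_
      rw [h5, abs_mul, hσ1, abs_of_pos (s_pos t)]
      linarith [h1.2]
    · have h6 : HasDerivAt (fun t => ax (σ * s t)) ((σ * -s t) • ez) t := by
        simp only [ax_eq_smul]
        exact ((hasDerivAt_s t).const_mul σ).smul_const ez
      refine (((hasDerivAt_h t).smul_const w).add h6).congr_deriv ?_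
      rw [rho_eq hδ σ h3, h5, ← mul_assoc, hσ2, one_mul, ← ax_eq_smul]
      refine E3_ext ?_ ?_ ?_
      · simp [add_mul]
      · simp [add_mul]
      · simp [w2]

end

end Pool.Agent.P.MP_ac4909_gt.B.H
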