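import Pool.Agent.P.MP_ac4909_gt.B.H.API

/-! Thin tubes. For 0 < s ≤ s' < 1, ax (σ s) = sad t (ax (σ s')) with t = log (s'/s) ≥ 0 (sad_ax, FL.conj_sad), so f (c k (ax (σ s))) ≤ f (c k (ax (σ/2))) < f (c k (ax (2σ/3))) for s ∈ [1/3,1/2] (F.anti, CD.ne_pt).
Choose m between. exists_cyl for the open sets ball ∩ (c k)⁻¹' {f < m} (CD.isOpen_preimage) over the interval of heights between σ/3 and σ/2, and ball ∩ (c k)⁻¹' {m < f} at the height 2σ/3.
Good orbits: y = c k' (ax (σ'/2)) has limits c v 0 (source) and c k' 0 (FL.tendsto_atTop), so K = orbit ∪ two zeros is compact (compact_orbit), the union over the finitely many (k',σ') is closed.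
It misses c k (ax (σ s)): a zero is not such a point (CD.ne_pt); if Φ t y is, then c k (ax (σ/2)) is on the orbit of y and Src (FL.Src_flow), against badness.
For F.rev.Good (FL.rev_Src_iff, FL.tendsto_atBot): the forward limit would be both a sink c v 0 and c k 0 (tendsto_nhds_unique, CD.pt_inj). exists_cyl for ball ∩ (c k)⁻¹' Kᶜ; take the minimum of the δ and 1/10. -/

namespace Pool.Agent.P.MP_ac4909_gt.B.H

open scoped Manifold ContDiff Topology RealInnerProductSpace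
open Set Metric Filter

noncomputable section

namespace RTUBE

variable {M : Type*} [TopologicalSpace M] [ChartedSpace E3 M] {κ : Type}

theorem ax_ball {σ s : ℝ} (hσ : σ = 1 ∨ σ = -1) (h0 : 0 < s) (h1 : s < 1) :
    ax (σ * s) ∈ ball (0 : E3) 1 := by
  rw [mem_ball_zero_iff, norm_ax]
  rcases hσ with rfl | rfl
  · rw [one_mul, abs_of_pos h0]
    exact h1
  · rw [neg_one_mul, abs_neg, abs_of_pos h0]
    exact h1

theorem ax_ne {σ s : ℝ} (hσ : σ = 1 ∨ σ = -1) (h0 : 0 < s) : ax (σ * s) ≠ 0 := by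
  intro h
  have h2 : ax (σ * s) 2 = 0 := by rw [h]; rfl
  rw [ax_apply_two] at h2
  rcases hσ with rfl | rfl <;> linarith

theorem flow_ax (F : FL M κ) {k : κ} (ha : F.a k = 1) (hb : F.b k = -1) {σ s s' : ℝ}
    (hσ : σ = 1 ∨ σ = -1) (h0 : 0 < s) (h1 : s < 1) (h0' : 0 < s') (h1' : s' < 1) :
    F.Φ (Real.log (s' / s)) (F.c k (ax (σ * s'))) = F.c k (ax (σ * s)) := by
  have e : sad (Real.log (s' / s)) (ax (σ * s')) = ax (σ * s) := by
    rw [sad_ax, Real.exp_neg, Real.exp_log (div_pos h0' h0)]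
    congr 1
    field_simp
  rw [F.conj_sad ha hb (ax_ball hσ h0' h1') (by rw [e]; exact ax_ball hσ h0 h1), e]

theorem ev_of_ex {P : ℝ → Prop} {δ₀ : ℝ} (h0 : 0 < δ₀) (h : ∀ δ, δ ≤ δ₀ → P δ) :
    ∀ᶠ δ in 𝓝[>] (0 : ℝ), P δ := by
  filter_upwards [Ioc_mem_nhdsGT h0] with δ hδ using h δ hδ.2

theorem cyl {O : Set E3} (hO : IsOpen O) {σ : ℝ} (hσ : σ = 1 ∨ σ = -1)
    (h : ∀ s : ℝ, 1 / 3 ≤ s → s ≤ 1 / 2 → ax (σ * s) ∈ O) :
    ∀ᶠ δ in 𝓝[>] (0 : ℝ), ∀ q ∈ tube δ σ, q ∈ O := by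
  rcases hσ with rfl | rfl
  · obtain ⟨δ₀, h0, h1⟩ := exists_cyl hO (a := 1 / 3) (b := 1 / 2) fun z hz => by
      simpa only [one_mul] using h z hz.1 hz.2
    refine ev_of_ex h0 fun δ hδ q hq => h1 q (hq.1.trans hδ) ⟨?_, ?_⟩
    · linarith [hq.2.1]
    · linarith [hq.2.2]
  · obtain ⟨δ₀, h0, h1⟩ := exists_cyl hO (a := -(1 / 2)) (b := -(1 / 3)) fun z hz => by
      have h2 := h (-z) (by linarith [hz.2]) (by linarith [hz.1])
      simpa only [neg_one_mul, neg_neg] using h2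
    refine ev_of_ex h0 fun δ hδ q hq => h1 q (hq.1.trans hδ) ⟨?_, ?_⟩
    · linarith [hq.2.2]
    · linarith [hq.2.1]

theorem miss [T2Space M] (F : FL M κ) {k : κ} (ha : F.a k = 1) (hb : F.b k = -1) {σ : ℝ}
    (hσ : σ = 1 ∨ σ = -1) {y : M} {v w : κ}
    (hv : Tendsto (fun t => F.Φ t y) atBot (𝓝 (F.c v 0)))
    (hw : Tendsto (fun t => F.Φ t y) atTop (𝓝 (F.c w 0)))
    (h : ∀ t, F.Φ t y ≠ F.c k (ax (σ * (1 / 2)))) :
    ∀ᶠ δ in 𝓝[>] (0 : ℝ), ∀ t, F.Φ t y ∉ F.c k '' tube δ σ := by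
  have hK := (compact_orbit (F.flow.continuous_time y) hv hw).isClosed
  have hO := F.toCD.isOpen_preimage k hK.isOpen_compl
  have hc := cyl hO hσ fun s h1 h2 => by
    have h0 : 0 < s := by linarith
    have h3 : s < 1 := by linarith
    refine ⟨ax_ball hσ h0 h3, ?_⟩
    rintro (⟨t, ht⟩ | ht | ht)
    · refine h (Real.log (s / (1 / 2)) + t) ?_
      have ht' : F.Φ t y = F.c k (ax (σ * s)) := ht
      rw [F.flow.add, ht']
      exact flow_ax F ha hb hσ (by norm_num) (by norm_num) h0 h3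
    · exact F.toCD.ne_pt (ax_ball hσ h0 h3) (ax_ne hσ h0) v ht
    · exact F.toCD.ne_pt (ax_ball hσ h0 h3) (ax_ne hσ h0) w ht
  filter_upwards [hc] with δ hδ t
  rintro ⟨q, hq, e⟩
  exact (hδ q hq).2 (Or.inl ⟨t, e.symm⟩)

theorem half (σ : ℝ) : σ / 2 = σ * (1 / 2) := by ring

theorem miss_good [T2Space M] (F : FL M κ) {k : κ} (ha : F.a k = 1) (hb : F.b k = -1) {σ : ℝ}
    (hσ : σ = 1 ∨ σ = -1) (hbad : ¬ F.Good k σ) (k' : κ) {σ' : ℝ} (hσ' : σ' = 1 ∨ σ' = -1) :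
    ∀ᶠ δ in 𝓝[>] (0 : ℝ), F.a k' = 1 → F.b k' = -1 → F.Good k' σ' →
      ∀ t, F.Φ t (F.c k' (ax (σ' / 2))) ∉ F.c k '' tube δ σ := by
  by_cases hg : F.a k' = 1 ∧ F.b k' = -1 ∧ F.Good k' σ'
  · obtain ⟨-, hb', hg⟩ := hg
    have hg' := hg
    obtain ⟨v, -, -, hv⟩ := hg'
    have hw : Tendsto (fun t => F.Φ t (F.c k' (ax (σ' / 2)))) atTop (𝓝 (F.c k' 0)) := by
      refine F.tendsto_atTop ?_ (fun _ => ⟨ax_apply_zero _, ax_apply_one _⟩) fun h => ?_
      · rw [half]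
        exact ax_ball hσ' (by norm_num) (by norm_num)
      · rw [hb'] at h
        norm_num at h
    have hm := miss F ha hb hσ hv hw fun t ht => hbad (by
      have h1 : F.Src (F.Φ t (F.c k' (ax (σ' / 2)))) := (F.Src_flow t _).2 hg
      rw [ht, ← half] at h1
      exact h1)
    filter_upwards [hm] with δ hδ _ _ _ using hδ
  · exact Eventually.of_forall fun δ h1 h2 h3 => absurd ⟨h1, h2, h3⟩ hg

theorem miss_rev [T2Space M] (F : FL M κ) {k : κ} (ha : F.a k = 1) (hb : F.b k = -1) {σ : ℝ}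
    (hσ : σ = 1 ∨ σ = -1) (k' : κ) {σ' : ℝ} (hσ' : σ' = 1 ∨ σ' = -1) :
    ∀ᶠ δ in 𝓝[>] (0 : ℝ), F.a k' = -1 → F.b k' = 1 → F.rev.Good k' σ' →
      ∀ t, F.Φ t (F.c k' (ax (σ' / 2))) ∉ F.c k '' tube δ σ := by
  by_cases hg : F.a k' = -1 ∧ F.b k' = 1 ∧ F.rev.Good k' σ'
  · obtain ⟨-, hb', hg⟩ := hg
    obtain ⟨w, hwa, -, hw⟩ := (F.rev_Src_iff _).1 hg
    have hw' : Tendsto (fun t => F.Φ t (F.c k' (ax (σ' / 2)))) atTop (𝓝 (F.c w 0)) := hw
    have hv : Tendsto (fun t => F.Φ t (F.c k' (ax (σ' / 2)))) atBot (𝓝 (F.c k' 0)) := by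
      refine F.tendsto_atBot ?_ (fun _ => ⟨ax_apply_zero _, ax_apply_one _⟩) fun h => ?_
      · rw [half]
        exact ax_ball hσ' (by norm_num) (by norm_num)
      · rw [hb'] at h
        norm_num at h
    have hm := miss F ha hb hσ hv hw' fun t ht => by
      have h1 := (F.flow.tendsto_atTop_iff t _ _).2 hw'
      rw [ht] at h1
      have h2 : Tendsto (fun t => F.Φ t (F.c k (ax (σ * (1 / 2))))) atTop (𝓝 (F.c k 0)) := by
        refine F.tendsto_atTop (ax_ball hσ (by norm_num) (by norm_num))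
          (fun _ => ⟨ax_apply_zero _, ax_apply_one _⟩) fun h => ?_
        rw [hb] at h
        norm_num at h
      have h3 : w = k := F.toCD.pt_inj (tendsto_nhds_unique h1 h2)
      rw [h3, ha] at hwa
      norm_num at hwa
    filter_upwards [hm] with δ hδ _ _ _ using hδ
  · exact Eventually.of_forall fun δ h1 h2 h3 => absurd ⟨h1, h2, h3⟩ hg

theorem levels (F : FL M κ) {k : κ} (ha : F.a k = 1) (hb : F.b k = -1) {σ : ℝ}
    (hσ : σ = 1 ∨ σ = -1) : ∃ m : ℝ,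
    (∀ᶠ δ in 𝓝[>] (0 : ℝ), ∀ q ∈ tube δ σ, F.f (F.c k q) < m) ∧
    ∀ᶠ δ in 𝓝[>] (0 : ℝ), ∀ u : E3, u 2 = 2 * σ / 3 → rad u < δ → m < F.f (F.c k u) := by
  have h1 : F.f (F.c k (ax (σ * (1 / 2)))) < F.f (F.c k (ax (σ * (2 / 3)))) := by
    rw [← flow_ax F ha hb hσ (s := 1 / 2) (s' := 2 / 3) (by norm_num) (by norm_num) (by norm_num)
      (by norm_num)]
    have h2 := F.anti (F.c k (ax (σ * (2 / 3))))
      (F.toCD.ne_pt (ax_ball hσ (by norm_num) (by norm_num)) (ax_ne hσ (by norm_num)))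
      (Real.log_pos (x := (2 / 3) / (1 / 2)) (by norm_num))
    simpa only [F.flow.zero] using h2
  obtain ⟨m, hm1, hm2⟩ := exists_between h1
  refine ⟨m, ?_, ?_⟩
  · have hO := F.toCD.isOpen_preimage k (isOpen_lt F.f_cont (continuous_const (y := m)))
    have hc := cyl hO hσ fun s h3 h4 => by
      have h0 : 0 < s := by linarith
      have h5 : s < 1 := by linarith
      refine ⟨ax_ball hσ h0 h5, ?_⟩
      show F.f (F.c k (ax (σ * s))) < m
      rw [← flow_ax F ha hb hσ (s' := 1 / 2) h0 h5 (by norm_num) (by norm_num)]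
      exact (F.le_of_nonneg _ (Real.log_nonneg ((one_le_div h0).2 h4))).trans_lt hm1
    filter_upwards [hc] with δ hδ q hq using (hδ q hq).2
  · have hO := F.toCD.isOpen_preimage k (isOpen_lt (continuous_const (y := m)) F.f_cont)
    obtain ⟨δ₀, h0, h3⟩ := exists_cyl hO (a := σ * (2 / 3)) (b := σ * (2 / 3)) fun z hz => by
      have hz' : z = σ * (2 / 3) := le_antisymm hz.2 hz.1
      rw [hz']
      exact ⟨ax_ball hσ (by norm_num) (by norm_num), hm2⟩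
    refine ev_of_ex h0 fun δ hδ u hu hr => (h3 u (hr.le.trans hδ) ?_).2
    rw [hu]
    constructor <;> linarith

end RTUBE

theorem tube_of (M : Type*) [TopologicalSpace M] [T2Space M] [CompactSpace M] [ChartedSpace E3 M]
    [IsManifold (𝓡 3) ∞ M] (hM : OrientedAtlas M) : S_TUBE M := by
  intro κ _ F k σ ha hb hσ hbad
  obtain ⟨m, h1, h2⟩ := RTUBE.levels F ha hb hσ
  have h3 := eventually_all.2 fun k' => RTUBE.miss_good F ha hb hσ hbad k' (Or.inl rfl)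
  have h4 := eventually_all.2 fun k' => RTUBE.miss_good F ha hb hσ hbad k' (Or.inr rfl)
  have h5 := eventually_all.2 fun k' => RTUBE.miss_rev F ha hb hσ k' (Or.inl rfl)
  have h6 := eventually_all.2 fun k' => RTUBE.miss_rev F ha hb hσ k' (Or.inr rfl)
  have h7 : ∀ᶠ δ in 𝓝[>] (0 : ℝ), δ ∈ Ioc (0 : ℝ) (1 / 10) := Ioc_mem_nhdsGT (by norm_num)
  obtain ⟨δ, g1, g2, g3, g4, g5, g6, g7⟩ :=
    (h1.and (h2.and (h3.and (h4.and (h5.and (h6.and h7)))))).exists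
  refine ⟨δ, m, g7.1, g7.2, g1, g2, ?_, ?_⟩
  · rintro k' σ' t ha' hb' (rfl | rfl) hg
    · exact g3 k' ha' hb' hg t
    · exact g4 k' ha' hb' hg t
  · rintro k' σ' t ha' hb' (rfl | rfl) hg
    · exact g5 k' ha' hb' hg t
    · exact g6 k' ha' hb' hg t

end

end Pool.Agent.P.MP_ac4909_gt.B.H
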