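import Pool.Agent.P.MP_ac4909_gt.B.H.RNEM
import Pool.Agent.P.MP_ac4909_gt.B.H.RLFLOW
import Pool.Agent.P.MP_ac4909_gt.B.H.RSARD
import Pool.Agent.P.MP_ac4909_gt.B.H.RQUAD
import Pool.Agent.P.MP_ac4909_gt.B.H.RSHEAR
import Pool.Agent.P.MP_ac4909_gt.B.H.RGLP
import Pool.Agent.P.MP_ac4909_gt.B.H.RPATH
import Pool.Agent.P.MP_ac4909_gt.B.H.RJET
import Pool.Agent.P.MP_ac4909_gt.B.H.RJACLOC
import Pool.Agent.P.MP_ac4909_gt.B.H.RLIMSTAB
import Pool.Agent.P.MP_ac4909_gt.B.H.RDENSE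
import Pool.Agent.P.MP_ac4909_gt.B.H.RTUBE
import Pool.Agent.P.MP_ac4909_gt.B.H.RNORBACK
import Pool.Agent.P.MP_ac4909_gt.B.H.RSAT
import Pool.Agent.P.MP_ac4909_gt.B.H.RHALF
import Pool.Agent.P.MP_ac4909_gt.B.H.RGSCATT
import Pool.Agent.P.MP_ac4909_gt.B.H.RIMM
import Pool.Agent.P.MP_ac4909_gt.B.H.RINJ
import Pool.Agent.P.MP_ac4909_gt.B.H.RMORSE
import Pool.Agent.P.MP_ac4909_gt.B.H.RCRIT
import Pool.Agent.P.MP_ac4909_gt.B.H.RMKVD
import Pool.Agent.P.MP_ac4909_gt.B.H.RLMF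
import Pool.Agent.P.MP_ac4909_gt.B.H.RFLOW
import Pool.Agent.P.MP_ac4909_gt.B.H.RMKFL
import Pool.Agent.P.MP_ac4909_gt.B.H.RGENV
import Pool.Agent.P.MP_ac4909_gt.B.H.RGEN

/-! Layer H: the assembly. -/

namespace Pool.Agent.P.MP_ac4909_gt.B.H

open scoped Manifold ContDiff Topology
open Set Metric Filter

theorem exists_HD' (M : Type*) [TopologicalSpace M] [T2Space M] [CompactSpace M]
    [ChartedSpace E3 M] [IsManifold (𝓡 3) ∞ M] (hM : OrientedAtlas M) :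
    ∃ (ι Vx : Type) (_ : Fintype ι) (_ : Fintype Vx), Nonempty (HD M ι Vx) := by
  have hL := limit_of M hM
  have hS := stab_of M hM
  have hU := uniq_of M hM
  have hsat := sat_of M hM
  have hJ := jacloc_of M E3 hM orientedAtlas_E3
  have hFL : S_MKFL M := mkfl_of M hM (flow_of M hM (lmf_of M hM (lflow_of nem_of)))
    (pos_of M hM (jacloc_of M M hM hM)) hU
  have hhalf : S_HALF M :=
    half_of M hM (hv_of M hM hsat) (he_of M hM hsat (noret_of M hM)) (back_of M hM) hS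
  obtain ⟨κ, _, ⟨V⟩⟩ := mkvd_of M hM (mkcd_of M hM (crit_of M hM quad_of (morse_of M hM sard_of)))
  obtain ⟨F₀, hF₀⟩ := hFL κ V
  obtain ⟨F, hF, hF'⟩ := all_of M hM (gen_of M hM (tube_of M hM) shear_of (genv_of M hM) hFL hU
    (dense_of M hM hL hS)) κ V F₀ hF₀
  obtain ⟨ι, Vx, i1, i2, H, hΦ, -, hH⟩ := hhalf κ F hF
  obtain ⟨ι', Vx', _, _, H', hΦ', hH', -⟩ := hhalf κ F.rev hF'
  obtain ⟨hc, γ, hγ, hcov⟩ := gsc_of M hM ι' Vx' H'
  obtain ⟨j₀, hj₀, hpos⟩ := imm_of M hM (jet_of (path_of glp_of)) (gsc_of M hM) ι' Vx' H'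
  obtain ⟨j, U, hj, hUo, hΓ, hinj, hjp⟩ :=
    inj_of M hM hJ (inj1_of M hM hJ) _ H'.gs γ j₀ hc hγ hcov hj₀ hpos
  have e : ∀ t, H'.Φ (-t) = H.Φ t := fun t => by rw [hΦ, hΦ', FL.rev_Φ, neg_neg]
  refine ⟨ι, Vx, i1, i2, ⟨{
    Φ := H.Φ, Φ_smooth := H.flow.smooth, Φ_zero := H.flow.zero, Φ_add := H.flow.add,
    Φ_pos := H.flow.pos, cv := H.cv, cv_chart := H.cv_chart, cv_source := H.cv_source,
    cv_flow := H.cv_flow, cv_disj := H.cv_disj, ce := H.ce, ce_chart := H.ce_chart,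
    ce_source := H.ce_source, ce_flow := H.ce_flow, ce_disj := H.ce_disj, cv_zero := H.cv_zero,
    ends := H.ends, j := j, j_smooth := hj, U := U, U_open := hUo, j_inj := hinj, j_pos := hjp,
    attract := fun C hC hd => ?_ }⟩⟩
  obtain ⟨T, hT⟩ := attr_of M hM ι' Vx' H' U C hUo hΓ hC fun x hx => by
    obtain ⟨k, hk⟩ := hL κ F x
    rcases F.a_sign k with h | h
    · exact absurd (hH x k h hk) (disjoint_left.1 hd hx)
    · refine ⟨F.c k 0, hH' k (by simp [h]), ?_⟩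
      simpa only [e, hΦ] using hk
  exact ⟨T, fun t ht => e t ▸ hT t ht⟩

end Pool.Agent.P.MP_ac4909_gt.B.H
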