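import Pool.Agent.P.MP_ac4909_gt.B.HDefs

/-! Layer H: gradient-like vector fields and flows with linear models at the zeros. -/

namespace Pool.Agent.P.MP_ac4909_gt.B.H

open scoped Manifold ContDiff Topology
open Set Metric Filter

noncomputable section

/-- the point of height `z` on the vertical axis -/
def ax (z : ℝ) : E3 := !₂[0, 0, z]

/-- the linear field of type a, a, b -/
def lin (a b : ℝ) (q : E3) : E3 := !₂[a * q 0, a * q 1, b * q 2]

/-- the flow of the linear field -/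
def lf (a b t : ℝ) (q : E3) : E3 :=
  !₂[Real.exp (a * t) * q 0, Real.exp (a * t) * q 1, Real.exp (b * t) * q 2]

theorem lf_neg (a b t : ℝ) (q : E3) : lf (-a) (-b) t q = lf a b (-t) q := by
  simp [lf]

theorem lin_neg (a b : ℝ) (q : E3) : lin (-a) (-b) q = -lin a b q := by
  ext i
  fin_cases i <;> simp [lin]

variable {M : Type*} [TopologicalSpace M] [ChartedSpace E3 M]

/-- the differential of a real function -/
def df (f : M → ℝ) (x : M) : E3 →L[ℝ] ℝ := mfderiv (𝓡 3) 𝓘(ℝ, ℝ) f x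

/-- `γ` has velocity `v` at time `t` -/
def HasVel (γ : ℝ → M) (v : E3) (t : ℝ) : Prop :=
  HasMFDerivAt 𝓘(ℝ, ℝ) (𝓡 3) γ t ((1 : ℝ →L[ℝ] ℝ).smulRight v : ℝ →L[ℝ] E3)

/-- a smooth flow -/
structure SFlow (Φ : ℝ → M → M) : Prop where
  smooth : ContMDiff (𝓘(ℝ, ℝ).prod (𝓡 3)) (𝓡 3) ∞ fun p : ℝ × M => Φ p.1 p.2
  zero : ∀ x, Φ 0 x = x
  add : ∀ s t x, Φ (s + t) x = Φ s (Φ t x)
  pos : ∀ t x, 0 < (jac (Φ t) x).det

theorem SFlow.rev {Φ : ℝ → M → M} (h : SFlow Φ) : SFlow fun t => Φ (-t) where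
  smooth := by
    have h1 : ContMDiff (𝓘(ℝ, ℝ).prod (𝓡 3)) (𝓘(ℝ, ℝ).prod (𝓡 3)) ∞
        fun p : ℝ × M => (-p.1, p.2) :=
      (contDiff_neg.contMDiff.comp contMDiff_fst).prodMk contMDiff_snd
    exact h.smooth.comp h1
  zero := fun x => by rw [neg_zero, h.zero]
  add := fun s t x => by rw [neg_add, h.add]
  pos := fun t x => h.pos (-t) x

/-- charts at finitely many points with types a, a, b -/
structure CD (M : Type*) [TopologicalSpace M] [ChartedSpace E3 M] (κ : Type) where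
  c : κ → OpenPartialHomeomorph E3 M
  a : κ → ℝ
  b : κ → ℝ
  chart : ∀ k, IsPChart (c k)
  source : ∀ k, (c k).source = ball 0 1
  a_sign : ∀ k, a k = 1 ∨ a k = -1
  b_sign : ∀ k, b k = 1 ∨ b k = -1
  disj : Pairwise fun k k' => Disjoint (c k).target (c k').target

/-- the opposite types -/
def CD.rev {κ : Type} (C : CD M κ) : CD M κ where
  c := C.c
  a := fun k => -C.a k
  b := fun k => -C.b k
  chart := C.chart
  source := C.source
  a_sign := fun k => by rcases C.a_sign k with h | h <;> simp [h]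
  b_sign := fun k => by rcases C.b_sign k with h | h <;> simp [h]
  disj := C.disj

/-- a gradient-like flow -/
structure FL (M : Type*) [TopologicalSpace M] [ChartedSpace E3 M] (κ : Type) extends CD M κ where
  f : M → ℝ
  f_cont : Continuous f
  Φ : ℝ → M → M
  flow : SFlow Φ
  conj : ∀ k q t, q ∈ ball (0 : E3) 1 → lf (a k) (b k) t q ∈ ball (0 : E3) 1 →
    Φ t (c k q) = c k (lf (a k) (b k) t q)
  anti : ∀ x, (∀ k, x ≠ c k 0) → StrictAnti fun t => f (Φ t x)

/-- the reversed flow -/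
def FL.rev {κ : Type} (F : FL M κ) : FL M κ where
  toCD := F.toCD.rev
  f := fun x => -F.f x
  f_cont := F.f_cont.neg
  Φ := fun t => F.Φ (-t)
  flow := F.flow.rev
  conj := fun k q t hq hq' => by
    have h : lf (F.toCD.rev.a k) (F.toCD.rev.b k) t q = lf (F.a k) (F.b k) (-t) q := lf_neg _ _ _ _
    rw [h] at hq' ⊢
    exact F.conj k q (-t) hq hq'
  anti := fun x hx s t hst => neg_lt_neg (F.anti x hx (neg_lt_neg hst))

/-- the orbit of `x` comes from a source -/
def FL.Src {κ : Type} (F : FL M κ) (x : M) : Prop :=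
  ∃ v, F.a v = 1 ∧ F.b v = 1 ∧ Tendsto (fun t => F.Φ t x) atBot (𝓝 (F.c v 0))

/-- the end `σ` of the axis at `k` comes from a source -/
def FL.Good {κ : Type} (F : FL M κ) (k : κ) (σ : ℝ) : Prop := F.Src (F.c k (ax (σ / 2)))

/-- all ends of the axes at the points with two expanding directions come from sources -/
def FL.AllGood {κ : Type} (F : FL M κ) : Prop :=
  ∀ k σ, F.a k = 1 → F.b k = -1 → σ = 1 ∨ σ = -1 → F.Good k σ

/-- one half of the handle data -/
structure Half (M : Type*) [TopologicalSpace M] [ChartedSpace E3 M] (ι Vx : Type) where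
  Φ : ℝ → M → M
  flow : SFlow Φ
  cv : Vx → OpenPartialHomeomorph E3 M
  cv_chart : ∀ v, IsPChart (cv v)
  cv_source : ∀ v, (cv v).source = univ
  cv_flow : ∀ v t p, Φ t (cv v p) = cv v (Real.exp t • p)
  cv_disj : Pairwise fun v v' => Disjoint (cv v).target (cv v').target
  ce : ι → OpenPartialHomeomorph E3 M
  ce_chart : ∀ e, IsPChart (ce e)
  ce_source : ∀ e, (ce e).source = Dom
  ce_flow : ∀ e t, ∀ p ∈ Dom, Φ t (ce e p) = ce e (sad t p)
  ce_disj : Pairwise fun e e' => Disjoint (ce e).target (ce e').target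
  cv_zero : ∀ v e, cv v 0 ∉ (ce e).target
  ends : ∀ e (σ : ℝ), σ = 1 ∨ σ = -1 →
    ∃ v C, ∀ p ∈ Dom, p 2 = σ → ∃ d, ‖d‖ ≤ C ∧ ce e p = cv v d

/-- the graph of half data -/
def Half.gs {ι Vx : Type} (H : Half M ι Vx) : Set M := B.gs H.cv H.ce

variable [IsManifold (𝓡 3) ∞ M]

/-- a smooth vector field -/
def SVF (ξ : M → E3) : Prop :=
  ContMDiff (𝓡 3) (𝓡 3).tangent ∞ fun x => (⟨x, ξ x⟩ : TM M)

/-- a vector field that is smooth on a set -/
def SVFOn (ξ : M → E3) (s : Set M) : Prop :=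
  ContMDiffOn (𝓡 3) (𝓡 3).tangent ∞ (fun x => (⟨x, ξ x⟩ : TM M)) s

theorem SVF.neg {ξ : M → E3} (h : SVF ξ) : SVF fun x => -ξ x :=
  ContMDiff.neg_section (I := 𝓡 3) (F := E3) (V := (TangentSpace (𝓡 3) : M → Type _))
    (s := fun x => ξ x) h

/-- a gradient-like vector field -/
structure VD (M : Type*) [TopologicalSpace M] [ChartedSpace E3 M] [IsManifold (𝓡 3) ∞ M]
    (κ : Type) extends CD M κ where
  f : M → ℝ
  f_smooth : ContMDiff (𝓡 3) 𝓘(ℝ, ℝ) ∞ f
  ξ : M → E3
  ξ_smooth : SVF ξ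
  model : ∀ k, ∀ q ∈ ball (0 : E3) 1, ξ (c k q) = jac (c k) q (lin (a k) (b k) q)
  dec : ∀ x, (∀ k, x ≠ c k 0) → df f x (ξ x) < 0

theorem df_neg (f : M → ℝ) (x : M) : df (fun y => -f y) x = -df f x :=
  mfderiv_neg

/-- the opposite field -/
def VD.rev {κ : Type} (V : VD M κ) : VD M κ where
  toCD := V.toCD.rev
  f := fun x => -V.f x
  f_smooth := V.f_smooth.neg
  ξ := fun x => -V.ξ x
  ξ_smooth := V.ξ_smooth.neg
  model := fun k q hq => by
    have h : lin (V.toCD.rev.a k) (V.toCD.rev.b k) q = -lin (V.a k) (V.b k) q := lin_neg _ _ _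
    rw [h, map_neg]
    exact congrArg Neg.neg (V.model k q hq)
  dec := fun x hx => by
    rw [df_neg]
    simpa using V.dec x hx

/-- `F` is the flow of `V` -/
structure Flows {κ : Type} (V : VD M κ) (F : FL M κ) : Prop where
  cd : F.toCD = V.toCD
  f : F.f = V.f
  vel : ∀ x t, HasVel (fun s => F.Φ s x) (V.ξ (F.Φ t x)) t

end

end Pool.Agent.P.MP_ac4909_gt.B.H
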