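import Pool.Agent.P.MP_ac4909_gt.B.H.API

/-! Part 1. Apply LIMIT and STAB to F.rev: x = Φ T (c k q) with q in the unstable subspace (a k = -1 → q 0 = q 1 = 0, b k = -1 → q 2 = 0) and Φ t x → c k 0 at atBot. If x is not Src then a k = -1 or b k = -1.
Take n : ℕ, n ≥ T; FL.conj_unstable gives x = Φ n (c k q') with q' = exp (T - n) • q in the ball and in one of the planes {q 2 = 0}, {q 0 = 0}.
dense_compl_surfaces_M with index κ × ℕ × Bool, g (k,n,i) p = Φ n (c k (plane i p)), s = preimage of the ball.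
Part 2. O = {q | rad q < min η (1/4) / 2, 1/2 < σ q 2 < 3/4} is open, nonempty, inside the ball; CD.isOpen_image gives q ∈ O with Src (c k q). u = sad t q with exp t = 3 σ q 2/2 ≤ 2 has
u 2 = 2σ/3 (σ^2 = 1), rad u < min η (1/4); FL.conj_sad and FL.Src_flow. -/

namespace Pool.Agent.P.MP_ac4909_gt.B.H

open scoped Manifold ContDiff Topology RealInnerProductSpace
open Set Metric Filter

noncomputable section

namespace RDENSE

/-- two coordinate planes -/
def plane (i : Bool) (p : ℝ × ℝ) : E3 := if i then !₂[p.1, p.2, 0] else !₂[0, p.1, p.2]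

theorem contDiff_plane (i : Bool) : ContDiff ℝ ∞ (plane i) := by
  refine contDiff_euclidean.2 fun j => ?_
  cases i
  · fin_cases j
    · simpa [plane] using contDiff_const
    · simpa [plane] using contDiff_fst
    · simpa [plane] using contDiff_snd
  · fin_cases j
    · simpa [plane] using contDiff_fst
    · simpa [plane] using contDiff_snd
    · simpa [plane] using contDiff_const

theorem mem_plane_true {q : E3} (h : q 2 = 0) : plane true (q 0, q 1) = q :=
  E3_ext (by simp [plane]) (by simp [plane]) (by simp [plane, h])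

theorem mem_plane_false {q : E3} (h : q 0 = 0) : plane false (q 1, q 2) = q :=
  E3_ext (by simp [plane, h]) (by simp [plane]) (by simp [plane])

variable {M : Type*} [TopologicalSpace M] [T2Space M] [CompactSpace M] [ChartedSpace E3 M]
  [IsManifold (𝓡 3) ∞ M]

/-- A point whose orbit does not come from a source lies on one of countably many surfaces. -/
theorem mem_surface (hL : S_LIMIT M) (hS : S_STAB M) {κ : Type} [Fintype κ] (F : FL M κ) {x : M}
    (hx : ¬ F.Src x) : ∃ (k : κ) (n : ℕ) (i : Bool) (p : ℝ × ℝ),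
      plane i p ∈ ball (0 : E3) 1 ∧ F.Φ n (F.c k (plane i p)) = x := by
  obtain ⟨k, hk⟩ := hL κ F.rev x
  obtain ⟨T, q, hq, h0, h2, hT⟩ := hS κ F.rev x k hk
  have h0' : F.a k = -1 → q 0 = 0 ∧ q 1 = 0 := fun h => h0 (by simp [h])
  have h2' : F.b k = -1 → q 2 = 0 := fun h => h2 (by simp [h])
  have hT' : F.Φ (-T) x = F.c k q := by simpa using hT
  have hk' : Tendsto (fun t => F.Φ t x) atBot (𝓝 (F.c k 0)) := by
    simpa [Function.comp_def] using hk.comp tendsto_neg_atBot_atTop
  obtain ⟨n, hn⟩ := exists_nat_ge T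
  obtain ⟨hm, he⟩ := F.conj_unstable hq h0' h2' (show T - n ≤ 0 by linarith)
  have hx' : F.Φ n (F.c k (Real.exp (T - n) • q)) = x := by
    rw [← he, ← hT', ← F.flow.add, ← F.flow.add]
    have : (n : ℝ) + (T - n) + -T = 0 := by ring
    rw [this, F.flow.zero]
  rcases F.a_sign k with ha | ha
  · rcases F.b_sign k with hb | hb
    · exact absurd ⟨k, ha, hb, hk'⟩ hx
    · have e := mem_plane_true (q := Real.exp (T - n) • q) (by simp [h2' hb])
      exact ⟨k, n, true, _, e.symm ▸ hm, e.symm ▸ hx'⟩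
  · have e := mem_plane_false (q := Real.exp (T - n) • q) (by simp [(h0' ha).1])
    exact ⟨k, n, false, _, e.symm ▸ hm, e.symm ▸ hx'⟩

theorem dense_src (hM : OrientedAtlas M) (hL : S_LIMIT M) (hS : S_STAB M) {κ : Type} [Fintype κ]
    (F : FL M κ) : Dense {x | F.Src x} := by
  have h := dense_compl_surfaces_M hM
    (fun (j : κ × ℕ × Bool) (p : ℝ × ℝ) => F.Φ j.2.1 (F.c j.1 (plane j.2.2 p)))
    (fun j => plane j.2.2 ⁻¹' ball (0 : E3) 1) (fun j p hp => by
      have h1 : ContMDiffAt 𝓘(ℝ, ℝ × ℝ) (𝓡 3) ∞ (plane j.2.2) p :=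
        (contDiff_plane j.2.2).contMDiff p
      have h2 : ContMDiffAt (𝓡 3) (𝓡 3) ∞ (F.c j.1) (plane j.2.2 p) :=
        pc_at (F.chart j.1) (by rw [F.source]; exact hp)
      exact (F.flow.contMDiff _ _).comp p (h2.comp p h1))
  refine h.mono fun x hx => ?_
  by_contra hn
  obtain ⟨k, n, i, p, hp, he⟩ := mem_surface hL hS F hn
  exact hx (mem_iUnion.2 ⟨(k, n, i), p, hp, he⟩)

omit [T2Space M] [CompactSpace M] [IsManifold (𝓡 3) ∞ M] in
theorem exists_height {κ : Type} (F : FL M κ) (hd : Dense {x | F.Src x}) (k : κ) (σ η : ℝ)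
    (ha : F.a k = 1) (hb : F.b k = -1) (hσ : σ = 1 ∨ σ = -1) (hη : 0 < η) :
    ∃ u : E3, u 2 = 2 * σ / 3 ∧ rad u < η ∧ F.Src (F.c k u) := by
  set δ : ℝ := min η (1 / 4) with hδ
  have hδ0 : 0 < δ := lt_min hη (by norm_num)
  have hδ1 : δ ≤ η := min_le_left _ _
  have hδ2 : δ ≤ 1 / 4 := min_le_right _ _
  have hs : σ * σ = 1 := by rcases hσ with rfl | rfl <;> norm_num
  have habs : ∀ z : ℝ, |σ * z| = |z| := fun z => by
    rcases hσ with rfl | rfl <;> simp
  let O : Set E3 := {q | rad q < δ / 2 ∧ 1 / 2 < σ * q 2 ∧ σ * q 2 < 3 / 4}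
  have hc : Continuous fun q : E3 => σ * q 2 := continuous_const.mul (continuous_coord 2)
  have hO : IsOpen O := (isOpen_lt continuous_rad continuous_const).inter
    ((isOpen_lt continuous_const hc).inter (isOpen_lt hc continuous_const))
  have hOb : O ⊆ ball (0 : E3) 1 := fun q hq => by
    obtain ⟨h1, h2, h3⟩ := hq
    rw [mem_ball_zero_iff]
    refine (norm_le_rad_add q).trans_lt ?_
    rw [← habs, abs_of_pos (by linarith)]
    linarith
  have hne : (F.c k '' O).Nonempty := by
    refine ⟨_, ax (2 * σ / 3), ⟨?_, ?_, ?_⟩, rfl⟩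
    · rw [rad_ax]
      linarith
    · rw [ax_apply_two]
      linarith
    · rw [ax_apply_two]
      linarith
  obtain ⟨_, ⟨q, hq, rfl⟩, hsrc⟩ := hd.inter_open_nonempty _ (F.isOpen_image k hO hOb) hne
  obtain ⟨h1, h2, h3⟩ := hq
  set t : ℝ := Real.log (3 * (σ * q 2) / 2) with ht
  have het : Real.exp t = 3 * (σ * q 2) / 2 := Real.exp_log (by linarith)
  have hz : sad t q 2 = 2 * σ / 3 := by
    have hne : σ * q 2 ≠ 0 := by linarith
    rw [sad_apply_two, Real.exp_neg, het, inv_mul_eq_iff_eq_mul₀ (by positivity)]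
    linear_combination (-q 2) * hs
  have hr : rad (sad t q) < δ := by
    rw [rad_sad, het]
    have := rad_nonneg q
    nlinarith
  have hm : sad t q ∈ ball (0 : E3) 1 := by
    rw [mem_ball_zero_iff]
    refine (norm_le_rad_add _).trans_lt ?_
    have e : |sad t q 2| = 2 / 3 := by
      rw [hz, show 2 * σ / 3 = σ * (2 / 3) by ring, habs, abs_of_pos (by norm_num)]
    rw [e]
    linarith
  refine ⟨sad t q, hz, hr.trans_le hδ1, ?_⟩
  rw [← F.conj_sad ha hb (hOb ⟨h1, h2, h3⟩) hm, F.Src_flow]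
  exact hsrc

end RDENSE

theorem dense_of (M : Type*) [TopologicalSpace M] [T2Space M] [CompactSpace M] [ChartedSpace E3 M]
    [IsManifold (𝓡 3) ∞ M] (hM : OrientedAtlas M)
    (hL : S_LIMIT M) (hS : S_STAB M) : S_DENSE M := fun _ _ F =>
  ⟨RDENSE.dense_src hM hL hS F, fun k σ η ha hb hσ hη =>
    RDENSE.exists_height F (RDENSE.dense_src hM hL hS F) k σ η ha hb hσ hη⟩

end

end Pool.Agent.P.MP_ac4909_gt.B.H
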