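import Pool.Agent.P.MP_ac4909_gt.B.H.API

/-! Local flow on M. Chart e with e q₀ = x₀ (exists_pc); Y q = jac e.symm (e q) (ξ (e q)) is smooth on the source (pc_pull); ext_smooth_E3 gives X with compact support, X = Y on an open W ∋ q₀, W ⊆ source. LFLOW gives ε, φ.
By continuity of φ at (0,q₀) shrink ε so that φ maps Ioo (-ε') ε' ×ˢ ball q₀ ε' into W and ball q₀ ε' ⊆ source. U = e '' ball q₀ ε', ψ (t,x) = e (φ (t, e.symm x)); pc_hasVel and pc_apply_symm give the velocity ξ.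
Smoothness: ContDiffOn on ℝ × E3 versus the product model: compose φ (as ContMDiffAt 𝓘(ℝ, ℝ × E3) through ContDiffAt.comp_contMDiffAt) with contMDiffAt_fst.prodMk_space (pc_symm_at ∘ snd). -/

namespace Pool.Agent.P.MP_ac4909_gt.B.H

open scoped Manifold ContDiff Topology RealInnerProductSpace
open Set Metric Filter

noncomputable section

namespace RLMF

end RLMF

theorem lmf_of (M : Type*) [TopologicalSpace M] [T2Space M] [CompactSpace M] [ChartedSpace E3 M]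
    [IsManifold (𝓡 3) ∞ M] (hM : OrientedAtlas M)
    (hL : S_LFLOW) : S_LMF M := by
  intro ξ hξ x₀
  obtain ⟨e, q₀, he, hq₀, rfl⟩ := exists_pc hM x₀
  obtain ⟨X, hX, hXc, hXe⟩ := ext_smooth_E3 e.open_source hq₀ (pc_pull he hξ)
  obtain ⟨ε, φ, hε, hφ, hd⟩ := hL X q₀ hX hXc
  have hn : Ioo (-ε) ε ×ˢ ball q₀ ε ∈ 𝓝 ((0 : ℝ), q₀) :=
    prod_mem_nhds (Ioo_mem_nhds (by linarith) hε) (ball_mem_nhds _ hε)
  have hc : Tendsto φ (𝓝 (0, q₀)) (𝓝 q₀) := by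
    have h := (hφ.continuousOn.continuousAt hn).tendsto
    rwa [(hd q₀ (mem_ball_self hε)).1] at h
  have h1 : ∀ᶠ z in 𝓝 ((0 : ℝ), q₀), (φ z ∈ e.source ∧
      X (φ z) = jac e.symm (e (φ z)) (ξ (e (φ z)))) ∧ z.2 ∈ e.source ∧
      z ∈ Ioo (-ε) ε ×ˢ ball q₀ ε :=
    (hc.eventually ((e.open_source.eventually_mem hq₀).and hXe)).and
      ((continuousAt_snd.eventually (e.open_source.eventually_mem hq₀)).and hn)
  obtain ⟨δ, hδ, h2⟩ := Metric.eventually_nhds_iff_ball.1 h1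
  rw [← ball_prod_same, Real.ball_eq_Ioo, zero_sub, zero_add] at h2
  have h0 : (0 : ℝ) ∈ Ioo (-δ) δ := ⟨by linarith, hδ⟩
  have hs : ball q₀ δ ⊆ e.source := fun q hq => (h2 (0, q) ⟨h0, hq⟩).2.1
  refine ⟨δ, e '' ball q₀ δ, fun z => e (φ (z.1, e.symm z.2)), hδ,
    e.isOpen_image_of_subset_source isOpen_ball hs, ⟨q₀, mem_ball_self hδ, rfl⟩, ?_, ?_⟩
  · rintro ⟨t, _⟩ ⟨ht, q, hq, rfl⟩
    have hq' := e.left_inv (hs hq)
    obtain ⟨⟨h3, -⟩, -, h4⟩ := h2 (t, q) ⟨ht, hq⟩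
    have h5 : ContMDiffAt (𝓘(ℝ, ℝ).prod (𝓡 3)) 𝓘(ℝ, ℝ × E3) ∞
        (fun z : ℝ × M => (z.1, e.symm z.2)) (t, e q) :=
      contMDiffAt_fst.prodMk_space
        ((pc_symm_at he (e.map_source (hs hq))).comp (t, e q) contMDiffAt_snd)
    have h6 : ContDiffAt ℝ ∞ φ (t, e.symm (e q)) := by
      rw [hq']
      exact hφ.contDiffAt ((isOpen_Ioo.prod isOpen_ball).mem_nhds h4)
    have h7 : φ (t, e.symm (e q)) ∈ e.source := by rwa [hq']
    exact ((pc_at he h7).comp (t, e q) 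
      (ContDiffAt.comp_contMDiffAt (f := fun z : ℝ × M => (z.1, e.symm z.2)) h6 h5)).contMDiffWithinAt
  · rintro _ ⟨q, hq, rfl⟩
    simp only [e.left_inv (hs hq)]
    have h3 := hd q (h2 (0, q) ⟨h0, hq⟩).2.2.2
    refine ⟨by rw [h3.1], fun t ht => ?_⟩
    obtain ⟨⟨h4, h5⟩, -, h6⟩ := h2 (t, q) ⟨ht, hq⟩
    have h7 := pc_hasVel he (h3.2 t h6.1) h4
    rwa [h5, pc_apply_symm he h4] at h7

end

end Pool.Agent.P.MP_ac4909_gt.B.H
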