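import Pool.Agent.P.MP_ac4909_gt.B.H.API

/-! Composition with a smooth map is smooth on C(K, E3), K = Icc (-1) 1.
Hint: induction on n : ℕ generalising the target F (a normed space in Type) of v : E3 → F. The derivative at γ is
ev (fderiv v ∘ γ), where ev : C(K, E3 →L F) →L (C(K,E3) →L C(K,F)) is pointwise application (LinearMap.mkContinuous₂).
HasFDerivAt: fderiv v is uniformly continuous on a compact ball containing all values; mean value inequality
(Convex.norm_image_sub_le_of_norm_hasFDerivWithin_le') on small balls. contDiff_succ_iff_fderiv, contDiff_infty.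
The scalar case is done in outputs/live/Pool/Agent/P/MP_0a0487_an/SX/ThomAAux.lean (copy the method, do not import). -/

namespace Pool.Agent.P.MP_ac4909_gt.B.H

open scoped Manifold ContDiff Topology RealInnerProductSpace
open Set Metric Filter

noncomputable section

namespace RNEM

variable {K : Type} [TopologicalSpace K] [CompactSpace K] {F : Type} [NormedAddCommGroup F]
  [NormedSpace ℝ F]

/-- pointwise application -/
def ev (K F : Type) [TopologicalSpace K] [CompactSpace K] [NormedAddCommGroup F]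
    [NormedSpace ℝ F] : C(K, E3 →L[ℝ] F) →L[ℝ] C(K, E3) →L[ℝ] C(K, F) :=
  LinearMap.mkContinuous₂ (LinearMap.mk₂ ℝ
    (fun (A : C(K, E3 →L[ℝ] F)) (h : C(K, E3)) =>
      (⟨fun s => A s (h s), A.continuous.clm_apply h.continuous⟩ : C(K, F)))
    (fun _ _ _ => by ext; simp) (fun _ _ _ => by ext; simp) (fun _ _ _ => by ext; simp)
    (fun _ _ _ => by ext; simp)) 1 fun A h => by
      refine (ContinuousMap.norm_le _ (by positivity)).2 fun s => ?_
      rw [one_mul]
      exact ((A s).le_opNorm (h s)).trans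
        (mul_le_mul (A.norm_coe_le_norm s) (h.norm_coe_le_norm s) (norm_nonneg _) (norm_nonneg A))

theorem hasFDerivAt {v : E3 → F} (hv : Differentiable ℝ v) (hc' : Continuous (fderiv ℝ v))
    (u : C(K, E3)) :
    HasFDerivAt (fun γ : C(K, E3) => (⟨v, hv.continuous⟩ : C(E3, F)).comp γ)
      (ev K F ((⟨fderiv ℝ v, hc'⟩ : C(E3, E3 →L[ℝ] F)).comp u)) u := by
  rw [hasFDerivAt_iff_isLittleO_nhds_zero, Asymptotics.isLittleO_iff]
  intro ε hε
  have hK : IsCompact (closedBall (0 : E3) (‖u‖ + 1)) := isCompact_closedBall _ _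
  obtain ⟨δ, hδ, hu⟩ := Metric.uniformContinuousOn_iff_le.1
    (hK.uniformContinuousOn_of_continuous hc'.continuousOn) ε hε
  filter_upwards [closedBall_mem_nhds (0 : C(K, E3)) (lt_min hδ one_pos)] with h hh
  rw [mem_closedBall_zero_iff, le_min_iff] at hh
  refine (ContinuousMap.norm_le _ (by positivity)).2 (fun p => ?_)
  have hx : ‖u p‖ ≤ ‖u‖ := u.norm_coe_le_norm p
  have hy : ‖h p‖ ≤ ‖h‖ := h.norm_coe_le_norm p
  have key := Convex.norm_image_sub_le_of_norm_hasFDerivWithin_le'
    (f := v) (f' := fderiv ℝ v) (φ := fderiv ℝ v (u p)) (C := ε)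
    (s := closedBall (u p) ‖h‖) (x := u p) (y := u p + h p)
    (fun y _ => (hv y).hasFDerivAt.hasFDerivWithinAt)
    (fun y hy' => by
      rw [mem_closedBall] at hy'
      rw [← dist_eq_norm]
      refine hu y ?_ (u p) ?_ (hy'.trans hh.1)
      · rw [mem_closedBall_zero_iff]
        rw [dist_eq_norm] at hy'
        calc ‖y‖ = ‖(y - u p) + u p‖ := by simp
          _ ≤ ‖y - u p‖ + ‖u p‖ := norm_add_le _ _
          _ ≤ ‖u‖ + 1 := by linarith [hh.2]
      · rw [mem_closedBall_zero_iff]
        linarith)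
    (convex_closedBall _ _) (mem_closedBall_self (norm_nonneg _)) (by simpa using hy)
  rw [add_sub_cancel_left] at key
  exact key.trans (by gcongr)

theorem contDiff_nat (n : ℕ) : ∀ {F : Type} [NormedAddCommGroup F] [NormedSpace ℝ F] {v : E3 → F}
    (hv : ContDiff ℝ ∞ v),
    ContDiff ℝ n fun γ : C(K, E3) => (⟨v, hv.continuous⟩ : C(E3, F)).comp γ := by
  induction n with
  | zero =>
    intro F _ _ v hv
    exact contDiff_zero.2 (ContinuousMap.continuous_postcomp _)
  | succ n ih =>
    intro F _ _ v hv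
    obtain ⟨h1, h2⟩ := contDiff_infty_iff_fderiv.1 hv
    refine contDiff_succ_iff_hasFDerivAt.2 ⟨_, ?_, fun u => hasFDerivAt h1 h2.continuous u⟩
    exact (ContinuousLinearMap.contDiff (𝕜 := ℝ) (E := C(K, E3 →L[ℝ] F))
      (F := C(K, E3) →L[ℝ] C(K, F)) (ev K F)).comp (ih h2)

end RNEM

theorem nem_of : S_NEM := fun _ hv => contDiff_infty.2 fun n => RNEM.contDiff_nat n hv

end

end Pool.Agent.P.MP_ac4909_gt.B.H
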