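import Pool.Agent.P.MP_ac4909_gt.B.H.Defs

/-! Layer H: the statements. -/

namespace Pool.Agent.P.MP_ac4909_gt.B.H

open scoped Manifold ContDiff Topology RealInnerProductSpace
open Set Metric Filter

noncomputable section

/-! ### Statements in Euclidean space -/

/-- Composition with a smooth map is smooth on the space of continuous paths. -/
def S_NEM : Prop := ∀ (v : E3 → E3) (hv : ContDiff ℝ ∞ v),
  ContDiff ℝ ∞ fun γ : C(Icc (-1 : ℝ) 1, E3) =>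
    ((⟨v, hv.continuous⟩ : C(E3, E3)).comp γ : C(Icc (-1 : ℝ) 1, E3))

/-- A smooth field with compact support has a smooth local flow. -/
def S_LFLOW : Prop := ∀ (X : E3 → E3) (q₀ : E3), ContDiff ℝ ∞ X → HasCompactSupport X →
  ∃ (ε : ℝ) (φ : ℝ × E3 → E3), 0 < ε ∧ ContDiffOn ℝ ∞ φ (Ioo (-ε) ε ×ˢ ball q₀ ε) ∧
    ∀ q ∈ ball q₀ ε, φ (0, q) = q ∧
      ∀ t ∈ Ioo (-ε) ε, HasDerivAt (fun s => φ (s, q)) (X (φ (t, q))) t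

/-- Adding a generic linear form makes all critical points nondegenerate. -/
def S_SARD : Prop := ∀ (g : E3 → ℝ) (V : Set E3), IsOpen V → ContDiffOn ℝ ∞ g V →
  Dense {b : E3 | ∀ q ∈ V, fderiv ℝ g q + innerSL ℝ b = 0 →
    Function.Injective (fderiv ℝ (fderiv ℝ g) q)}

/-- Near a nondegenerate critical point a linear field of one of the four types is
gradient-like. -/
def S_QUAD : Prop := ∀ (g : E3 → ℝ) (V : Set E3) (q₀ : E3), IsOpen V → q₀ ∈ V →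
  ContDiffOn ℝ ∞ g V → fderiv ℝ g q₀ = 0 → Function.Injective (fderiv ℝ (fderiv ℝ g) q₀) →
  ∃ (L : E3 ≃L[ℝ] E3) (a b : ℝ), (a = 1 ∨ a = -1) ∧ (b = 1 ∨ b = -1) ∧
    0 < (L : E3 →L[ℝ] E3).det ∧ MapsTo (fun q => q₀ + L q) (ball 0 1) V ∧
    ∀ q ∈ ball (0 : E3) 1, q ≠ 0 → fderiv ℝ g (q₀ + L q) (L (lin a b q)) < 0

/-- the thin tube about a segment of the axis -/
def tube (δ σ : ℝ) : Set E3 := {q | rad q ≤ δ ∧ 1 / 3 ≤ σ * q 2 ∧ σ * q 2 ≤ 1 / 2}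

/-- A small shear of the linear saddle field moves any nearby orbit onto the axis. -/
def S_SHEAR : Prop := ∀ δ σ : ℝ, 0 < δ → δ ≤ 1 / 10 → σ = 1 ∨ σ = -1 →
  ∃ ρ : E3 → ℝ, ContDiff ℝ ∞ ρ ∧ tsupport ρ ⊆ tube δ σ ∧ ∀ ε : ℝ, 0 < ε → ∃ η : ℝ, 0 < η ∧
    ∀ u : E3, u 2 = 2 * σ / 3 → rad u < η → ∃ (w : E3) (γ : ℝ → E3) (T : ℝ), ‖w‖ < ε ∧ 0 ≤ T ∧
      γ 0 = u ∧ γ T = ax (σ / 6) ∧ ∀ t ∈ Icc 0 T, γ t ∈ ball (0 : E3) 1 ∧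
        HasDerivAt γ (lin 1 (-1) (γ t) + ρ (γ t) • w) t

/-- Matrices with positive determinant are joined by smooth paths. -/
def S_GLP : Prop := ∀ A B : E3 →L[ℝ] E3, 0 < A.det → 0 < B.det →
  ∃ P : ℝ → E3 →L[ℝ] E3, ContDiff ℝ ∞ P ∧ (∀ t, 0 < (P t).det) ∧ (∀ t ≤ 0, P t = A) ∧
    ∀ t, 1 ≤ t → P t = B

/-- The integral of the last column of the path can be prescribed. -/
def S_PATH : Prop := ∀ (A B : E3 →L[ℝ] E3) (D : E3), 0 < A.det → 0 < B.det →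
  ∃ P : ℝ → E3 →L[ℝ] E3, ContDiff ℝ ∞ P ∧ (∀ t, 0 < (P t).det) ∧ (∀ t ≤ -1, P t = A) ∧
    (∀ t, 1 ≤ t → P t = B) ∧ ∫ t in (-1 : ℝ)..1, P t ez = D

/-- An immersion given near the two ends of the axis extends along the axis. -/
def S_JET : Prop := ∀ (g : E3 → E3) (Ω : Set E3), IsOpen Ω → (∀ z, 1 ≤ |z| → ax z ∈ Ω) →
  ContDiffOn ℝ ∞ g Ω → (∀ z, 1 ≤ |z| → 0 < (fderiv ℝ g (ax z)).det) →
  ∃ J : E3 → E3, ContDiffOn ℝ ∞ J (Ω ∪ {p | |p 2| < 2}) ∧ (∀ z, 0 < (fderiv ℝ J (ax z)).det) ∧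
    ∀ p, 3 ≤ |p 2| → J p = g p

/-! ### Statements on a manifold -/

/-- The sign of the Jacobian determinant is locally constant. -/
def S_JACLOC (M N : Type*) [TopologicalSpace M] [ChartedSpace E3 M] [TopologicalSpace N]
    [ChartedSpace E3 N] : Prop :=
  ∀ (P : Type) [NormedAddCommGroup P] [NormedSpace ℝ P] (g : P → M → N) (p₀ : P) (x₀ : M) (s : ℝ),
    ContMDiffAt (𝓘(ℝ, P).prod (𝓡 3)) (𝓡 3) ∞ (fun z : P × M => g z.1 z.2) (p₀, x₀) →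
    0 < s * (jac (g p₀) x₀).det → ∀ᶠ z in 𝓝 (p₀, x₀), 0 < s * (jac (g z.1) z.2).det

variable (M : Type*) [TopologicalSpace M] [ChartedSpace E3 M]

/-- Every orbit converges to a zero. -/
def S_LIMIT : Prop := ∀ (κ : Type) [Fintype κ] (F : FL M κ) (x : M),
  ∃ k, Tendsto (fun t => F.Φ t x) atTop (𝓝 (F.c k 0))

/-- An orbit that converges to a zero enters through the stable subspace. -/
def S_STAB : Prop := ∀ (κ : Type) (F : FL M κ) (x : M) (k : κ),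
  Tendsto (fun t => F.Φ t x) atTop (𝓝 (F.c k 0)) → ∃ (T : ℝ) (q : E3), q ∈ ball (0 : E3) 1 ∧
    (F.a k = 1 → q 0 = 0 ∧ q 1 = 0) ∧ (F.b k = 1 → q 2 = 0) ∧ F.Φ T x = F.c k q

/-- Most orbits come from sources. -/
def S_DENSE : Prop := ∀ (κ : Type) [Fintype κ] (F : FL M κ), Dense {x | F.Src x} ∧
  ∀ k (σ η : ℝ), F.a k = 1 → F.b k = -1 → σ = 1 ∨ σ = -1 → 0 < η →
    ∃ u : E3, u 2 = 2 * σ / 3 ∧ rad u < η ∧ F.Src (F.c k u)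

/-- A thin tube about a bad end misses the good orbits and lies below the top of the end. -/
def S_TUBE : Prop := ∀ (κ : Type) [Fintype κ] (F : FL M κ) (k : κ) (σ : ℝ), F.a k = 1 →
  F.b k = -1 → σ = 1 ∨ σ = -1 → ¬ F.Good k σ → ∃ δ m : ℝ, 0 < δ ∧ δ ≤ 1 / 10 ∧
    (∀ q ∈ tube δ σ, F.f (F.c k q) < m) ∧
    (∀ u : E3, u 2 = 2 * σ / 3 → rad u < δ → m < F.f (F.c k u)) ∧
    (∀ k' (σ' t : ℝ), F.a k' = 1 → F.b k' = -1 → σ' = 1 ∨ σ' = -1 → F.Good k' σ' →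
      F.Φ t (F.c k' (ax (σ' / 2))) ∉ F.c k '' tube δ σ) ∧
    ∀ k' (σ' t : ℝ), F.a k' = -1 → F.b k' = 1 → σ' = 1 ∨ σ' = -1 → F.rev.Good k' σ' →
      F.Φ t (F.c k' (ax (σ' / 2))) ∉ F.c k '' tube δ σ

/-- Orbits do not return to a small ball about a saddle. -/
def S_NORET : Prop := ∀ (κ : Type) (F : FL M κ) (k : κ), F.a k = 1 → F.b k = -1 →
  ∃ d : ℝ, 0 < d ∧ ∀ q ∈ ball (0 : E3) d, ∀ q' ∈ ball (0 : E3) d, ∀ s : ℝ, 0 ≤ s →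
    F.Φ s (F.c k q) = F.c k q' → q' = sad s q

/-- Backward orbits from the ends and from a small ball about a saddle with good ends. -/
def S_BACK : Prop := ∀ (κ : Type) (F : FL M κ) (k : κ), F.a k = 1 → F.b k = -1 →
  (∀ σ : ℝ, σ = 1 ∨ σ = -1 → F.Good k σ → ∃ (v : κ) (δ T : ℝ), F.a v = 1 ∧ F.b v = 1 ∧ 0 < δ ∧
    ∀ q : E3, ‖q - ax (σ / 2)‖ < δ → ∃ d ∈ ball (0 : E3) 1, F.c k q = F.Φ T (F.c v d)) ∧
  (F.Good k 1 → F.Good k (-1) → ∀ k', k' ≠ k → F.b k' = -1 → ∃ d : ℝ, 0 < d ∧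
    ∀ q ∈ ball (0 : E3) d, ∀ q' ∈ ball (0 : E3) d, ∀ s : ℝ, 0 ≤ s →
      F.c k q ≠ F.Φ s (F.c k' q'))

/-- The chart at a zero spreads along the flow. -/
def S_SAT : Prop := ∀ (κ : Type) (F : FL M κ) (k : κ) (l : ℝ) (W : Set E3), 0 < l → IsOpen W →
  (∀ p ∈ W, ∀ t, lf (F.a k) (F.b k) t p ∈ W) →
  (∀ p ∈ W, ∃ T, lf (F.a k) (F.b k) (-T) (l • p) ∈ ball (0 : E3) 1) →
  (∀ p ∈ W, ∀ p' ∈ W, ∀ T T', lf (F.a k) (F.b k) (-T) (l • p) ∈ ball (0 : E3) 1 →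
    lf (F.a k) (F.b k) (-T') (l • p') ∈ ball (0 : E3) 1 →
    F.Φ T (F.c k (lf (F.a k) (F.b k) (-T) (l • p)))
      = F.Φ T' (F.c k (lf (F.a k) (F.b k) (-T') (l • p'))) → p = p') →
  ∃ e : OpenPartialHomeomorph E3 M, IsPChart e ∧ e.source = W ∧
    (∀ p ∈ W, ∀ T, lf (F.a k) (F.b k) (-T) (l • p) ∈ ball (0 : E3) 1 →
      e p = F.Φ T (F.c k (lf (F.a k) (F.b k) (-T) (l • p)))) ∧
    ∀ t, ∀ p ∈ W, F.Φ t (e p) = e (lf (F.a k) (F.b k) t p)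

/-- The global chart at a source. -/
def S_HV : Prop := ∀ (κ : Type) (F : FL M κ) (v : κ), F.a v = 1 → F.b v = 1 →
  ∃ e : OpenPartialHomeomorph E3 M, IsPChart e ∧ e.source = univ ∧
    (∀ d ∈ ball (0 : E3) 1, e d = F.c v d) ∧ ∀ t p, F.Φ t (e p) = e (Real.exp t • p)

/-- The global chart at a saddle. -/
def S_HE : Prop := ∀ (κ : Type) (F : FL M κ) (k : κ), F.a k = 1 → F.b k = -1 →
  ∃ l₀ : ℝ, 0 < l₀ ∧ ∀ l : ℝ, 0 < l → l ≤ l₀ →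
    ∃ e : OpenPartialHomeomorph E3 M, IsPChart e ∧ e.source = Dom ∧
      (∀ p ∈ Dom, ∀ T, sad (-T) (l • p) ∈ ball (0 : E3) 1 →
        e p = F.Φ T (F.c k (sad (-T) (l • p)))) ∧
      ∀ t, ∀ p ∈ Dom, F.Φ t (e p) = e (sad t p)

/-- Half data from a flow with good ends. -/
def S_HALF : Prop := ∀ (κ : Type) [Fintype κ] (F : FL M κ), F.AllGood →
  ∃ (ι Vx : Type) (_ : Fintype ι) (_ : Fintype Vx) (H : Half M ι Vx), H.Φ = F.Φ ∧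
    (∀ k, F.a k = 1 → F.c k 0 ∈ H.gs) ∧
    ∀ x k, F.a k = 1 → Tendsto (fun t => F.Φ t x) atTop (𝓝 (F.c k 0)) → x ∈ H.gs

/-- The graph is compact and covered by finitely many smooth curves. -/
def S_GSC : Prop := ∀ (ι Vx : Type) [Fintype ι] [Fintype Vx] (H : Half M ι Vx),
  IsCompact H.gs ∧ ∃ γ : ι ⊕ Vx → ℝ → M, (∀ i, ContMDiff 𝓘(ℝ, ℝ) (𝓡 3) ∞ (γ i)) ∧
    H.gs ⊆ ⋃ i, range (γ i)

/-- An immersion near the graph. -/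
def S_IMM : Prop := ∀ (ι Vx : Type) [Fintype ι] [Fintype Vx] (H : Half M ι Vx),
  ∃ j : M → E3, ContMDiff (𝓡 3) (𝓡 3) ∞ j ∧ ∀ x ∈ H.gs, 0 < (jac j x).det

/-- One generic perturbation. -/
def S_INJ1 : Prop := ∀ (ι : Type) [Fintype ι] (Γ : Set M) (γ : ι → ℝ → M) (j : M → E3)
  (ρ : M → ℝ), IsCompact Γ → (∀ i, ContMDiff 𝓘(ℝ, ℝ) (𝓡 3) ∞ (γ i)) → Γ ⊆ ⋃ i, range (γ i) →
  ContMDiff (𝓡 3) (𝓡 3) ∞ j → ContMDiff (𝓡 3) 𝓘(ℝ, ℝ) ∞ ρ → (∀ x ∈ Γ, 0 < (jac j x).det) →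
  ∃ a : E3, (∀ x ∈ Γ, 0 < (jac (fun y => j y + ρ y • a) x).det) ∧
    ∀ x ∈ Γ, ∀ y ∈ Γ, j x + ρ x • a = j y + ρ y • a → ρ x = ρ y

/-- An immersion near a compact one dimensional set can be made an embedding. -/
def S_INJ : Prop := ∀ (ι : Type) [Fintype ι] (Γ : Set M) (γ : ι → ℝ → M) (j₀ : M → E3),
  IsCompact Γ → (∀ i, ContMDiff 𝓘(ℝ, ℝ) (𝓡 3) ∞ (γ i)) → Γ ⊆ ⋃ i, range (γ i) →
  ContMDiff (𝓡 3) (𝓡 3) ∞ j₀ → (∀ x ∈ Γ, 0 < (jac j₀ x).det) →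
  ∃ (j : M → E3) (U : Set M), ContMDiff (𝓡 3) (𝓡 3) ∞ j ∧ IsOpen U ∧ Γ ⊆ U ∧ InjOn j U ∧
    ∀ x ∈ U, 0 < (jac j x).det

/-- The graph attracts under the reversed flow. -/
def S_ATTR : Prop := ∀ (ι Vx : Type) [Fintype ι] [Fintype Vx] (H : Half M ι Vx) (U C : Set M),
  IsOpen U → H.gs ⊆ U → IsCompact C →
  (∀ x ∈ C, ∃ p ∈ H.gs, Tendsto (fun t => H.Φ (-t) x) atTop (𝓝 p)) →
  ∃ T, ∀ t ≥ T, MapsTo (H.Φ (-t)) C U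

/-- A smooth function with nondegenerate critical points. -/
def S_MORSE : Prop := ∃ f : M → ℝ, ContMDiff (𝓡 3) 𝓘(ℝ, ℝ) ∞ f ∧ ∀ x : M,
  ∃ (c : OpenPartialHomeomorph E3 M) (q₀ : E3), IsPChart c ∧ q₀ ∈ c.source ∧ c q₀ = x ∧
    (fderiv ℝ (f ∘ c) q₀ = 0 → Function.Injective (fderiv ℝ (fderiv ℝ (f ∘ c)) q₀))

/-- Linear models at the critical points. -/
def S_CRIT : Prop := ∃ f : M → ℝ, ContMDiff (𝓡 3) 𝓘(ℝ, ℝ) ∞ f ∧ ∀ x : M, df f x = 0 →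
  ∃ (c : OpenPartialHomeomorph E3 M) (a b : ℝ), IsPChart c ∧ c.source = ball 0 1 ∧ c 0 = x ∧
    (a = 1 ∨ a = -1) ∧ (b = 1 ∨ b = -1) ∧
    ∀ q ∈ ball (0 : E3) 1, q ≠ 0 → df f (c q) (jac c q (lin a b q)) < 0

/-- Finitely many disjoint linear models. -/
def S_MKCD : Prop := ∃ (κ : Type) (_ : Fintype κ) (C : CD M κ) (f : M → ℝ),
  ContMDiff (𝓡 3) 𝓘(ℝ, ℝ) ∞ f ∧ (∀ x, (∀ k, x ≠ C.c k 0) → df f x ≠ 0) ∧
    ∀ k, ∀ q ∈ ball (0 : E3) 1, q ≠ 0 →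
      df f (C.c k q) (jac (C.c k) q (lin (C.a k) (C.b k) q)) < 0

/-- A smooth one parameter group preserves the orientation. -/
def S_POS : Prop := ∀ Φ : ℝ → M → M,
  ContMDiff (𝓘(ℝ, ℝ).prod (𝓡 3)) (𝓡 3) ∞ (fun p : ℝ × M => Φ p.1 p.2) → (∀ x, Φ 0 x = x) →
  (∀ s t x, Φ (s + t) x = Φ s (Φ t x)) → SFlow Φ

variable [IsManifold (𝓡 3) ∞ M]

/-- A smooth field has a smooth local flow. -/
def S_LMF : Prop := ∀ ξ : M → E3, SVF ξ → ∀ x₀ : M,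
  ∃ (ε : ℝ) (U : Set M) (ψ : ℝ × M → M), 0 < ε ∧ IsOpen U ∧ x₀ ∈ U ∧
    ContMDiffOn (𝓘(ℝ, ℝ).prod (𝓡 3)) (𝓡 3) ∞ ψ (Ioo (-ε) ε ×ˢ U) ∧
    ∀ x ∈ U, ψ (0, x) = x ∧ ∀ t ∈ Ioo (-ε) ε, HasVel (fun s => ψ (s, x)) (ξ (ψ (t, x))) t

/-- A smooth field has a smooth flow. -/
def S_FLOW : Prop := ∀ ξ : M → E3, SVF ξ → ∃ Φ : ℝ → M → M,
  ContMDiff (𝓘(ℝ, ℝ).prod (𝓡 3)) (𝓡 3) ∞ (fun p : ℝ × M => Φ p.1 p.2) ∧ (∀ x, Φ 0 x = x) ∧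
    (∀ s t x, Φ (s + t) x = Φ s (Φ t x)) ∧ ∀ x t, HasVel (fun s => Φ s x) (ξ (Φ t x)) t

/-- Integral curves follow the flow. -/
def S_UNIQ : Prop := ∀ (ξ : M → E3) (Φ : ℝ → M → M), SVF ξ → SFlow Φ →
  (∀ x t, HasVel (fun s => Φ s x) (ξ (Φ t x)) t) → ∀ (γ : ℝ → M) (s t : ℝ),
    ContinuousOn γ (uIcc s t) → (∀ u ∈ uIoo s t, HasVel γ (ξ (γ u)) u) → γ t = Φ (t - s) (γ s)

/-- A gradient-like field exists. -/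
def S_MKVD : Prop := ∃ (κ : Type) (_ : Fintype κ), Nonempty (VD M κ)

/-- A gradient-like field has a gradient-like flow. -/
def S_MKFL : Prop := ∀ (κ : Type) (V : VD M κ), ∃ F : FL M κ, Flows V F

/-- Small perturbations inside a chart, away from the zero. -/
def S_GENV : Prop := ∀ (κ : Type) (V : VD M κ) (k : κ) (ρ : E3 → ℝ), ContDiff ℝ ∞ ρ →
  IsCompact (tsupport ρ) → tsupport ρ ⊆ ball 0 1 \ ball 0 (1 / 3) → ∃ ε : ℝ, 0 < ε ∧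
    ∀ w : E3, ‖w‖ < ε → ∃ V' : VD M κ, V'.f = V.f ∧ V'.a = V.a ∧ V'.b = V.b ∧
      (∀ k', k' ≠ k → V'.c k' = V.c k') ∧ (∀ q, V'.c k q = V.c k ((1 / 3 : ℝ) • q)) ∧
      (∀ q ∈ ball (0 : E3) 1,
        V'.ξ (V.c k q) = jac (V.c k) q (lin (V.a k) (V.b k) q + ρ q • w)) ∧
      ∀ x, x ∉ V.c k '' tsupport ρ → V'.ξ x = V.ξ x

/-- One bad end can be repaired. -/
def S_GEN : Prop := ∀ (κ : Type) [Fintype κ] (V : VD M κ) (F : FL M κ) (k : κ) (σ : ℝ),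
  Flows V F → F.a k = 1 → F.b k = -1 → σ = 1 ∨ σ = -1 → ¬ F.Good k σ →
  ∃ (V' : VD M κ) (F' : FL M κ), Flows V' F' ∧ F'.a = F.a ∧ F'.b = F.b ∧ F'.Good k σ ∧
    (∀ k' (σ' : ℝ), F.a k' = 1 → F.b k' = -1 → σ' = 1 ∨ σ' = -1 → F.Good k' σ' →
      F'.Good k' σ') ∧
    ∀ k' (σ' : ℝ), F.a k' = -1 → F.b k' = 1 → σ' = 1 ∨ σ' = -1 → F.rev.Good k' σ' →
      F'.rev.Good k' σ'

/-- All ends can be repaired. -/
def S_ALL : Prop := ∀ (κ : Type) [Fintype κ] (V : VD M κ) (F : FL M κ), Flows V F →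
  ∃ F' : FL M κ, F'.AllGood ∧ F'.rev.AllGood

end

end Pool.Agent.P.MP_ac4909_gt.B.H
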